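import Pool.Agent.H699.TA.Box

/-!
# The algorithm
-/

namespace Pool.Agent.H699.TA

open Finset Pool.Agent.NPC Pool.Agent.H699.TU Pool.Agent.Y644.QS

/-- the system of an instance -/
def syS (I : Inst) : List (List ℤ × ℤ) := List.zip (rows I) (rhs I)

/-- rounding down a fractional solution -/
def yL (I : Inst) : List ℤ := (List.range (numV I)).map fun j =>
  (faceV (numV I) (syS I)).getD j 0 / (((faceV (numV I) (syS I)).getD (numV I) 0).toNat : ℤ)

/-- rounding up a fractional solution -/
def yU (I : Inst) : List ℤ := (List.range (numV I)).map fun j => (yL I).getD j 0 + 1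

/-- an integral solution -/
def xS (I : Inst) : List ℤ :=
  solV (numV I) (sysB (numV I) (rows I) (rhs I) (yL I) (yU I)) (zeroL (numV I))

/-- sum of the absolute values of the entries -/
def D0 (I : Inst) : ℕ := ((List.range (numV I)).map fun j => ((xS I).getD j 0).natAbs).sum

/-- sum of the slacks -/
def D1 (I : Inst) : ℕ := ((syS I).map fun p => (p.2 - dtl (numV I) p.1 (xS I)).toNat).sum

/-- the size of the box -/
def Dl (I : Inst) : ℕ := D0 I + nrows (numV I) (rows I) (rhs I) * D1 I

/-- the box -/
def bx (I : Inst) : List ℤ × List ℤ :=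
  ((List.range (numV I)).map fun _ => -(Dl I : ℤ), (List.range (numV I)).map fun _ => (Dl I : ℤ))

/-- the concave variables -/
def cc (I : Inst) : List ℕ := (List.range (numV I)).filter fun j => decide ((quad I).getD j 0 < 0)

/-- the list found by the algorithm -/
def outL (p E : ℕ) (I : Inst) : List ℤ :=
  bOpt p (numV I) (rows I) (rhs I) (quad I) (lin I) E (sz (Dl I)) (cc I) (bx I) (xS I)

/-- the point found by the algorithm -/
def outP (p E : ℕ) (I : Inst) : Fin (numV I) → ℤ := fun j => (outL p E I).getD j 0

/-- the answer of the algorithm -/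
def answ (p E : ℕ) (I : Inst) : Answer :=
  if feasB (numV I) (syS I) = true then
    Sum.inr ((List.range (numV I)).map fun j => (outL p E I).getD j 0) else Sum.inl false

theorem answ_point (p E : ℕ) (I : Inst) (h : feasB (numV I) (syS I) = true) :
    bits (answ p E I) = point I (outP p E I) := by
  unfold answ point outP
  rw [if_pos h]
  congr 2
  apply List.ext_getElem
  · simp
  · intro i h1 h2
    simp

theorem answ_infeasible (p E : ℕ) (I : Inst) (h : ¬ feasB (numV I) (syS I) = true) :
    bits (answ p E I) = infeasible := by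
  unfold answ infeasible
  rw [if_neg h]

/-- extension by zero -/
def ext0 {n : ℕ} (x : Fin n → ℤ) : ℕ → ℤ := fun j => if h : j < n then x ⟨j, h⟩ else 0

theorem ext0_val {n : ℕ} (x : Fin n → ℤ) (j : Fin n) : ext0 x j = x j := by
  unfold ext0
  rw [dif_pos j.2]

theorem obj_eq (I : Inst) (x : Fin (numV I) → ℤ) {z : ℕ → ℤ} (hz : ∀ j : Fin (numV I), z j = x j) :
    TU.obj I x = FF (numV I) (rl (quad I)) (rl (lin I)) z := by
  unfold TU.obj FF rl
  rw [← Fin.sum_univ_eq_sum_range (fun j => (quad I).getD j 0 * z j ^ 2 + (lin I).getD j 0 * z j)]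
  exact Finset.sum_congr rfl fun j _ => by rw [hz]

theorem feasible_iff {I : Inst} (hI : Valid I) (x : Fin (numV I) → ℤ) {z : ℕ → ℤ}
    (hz : ∀ j : Fin (numV I), z j = x j) : Feasible I x ↔ PF (numV I) (syS I) z := by
  obtain ⟨-, -, -, h4, -, -⟩ := hI
  have key : ∀ i : Fin (numC I), dt (numV I) (rl ((rows I).getD i [])) z = ∑ j, W I i j * x j := by
    intro i
    unfold dt rl W
    simp only [Int.cast_id]
    rw [← Fin.sum_univ_eq_sum_range (fun j => ((rows I).getD i []).getD j 0 * z j)]
    exact Finset.sum_congr rfl fun j _ => by rw [hz]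
  unfold Feasible PF syS
  constructor
  · intro h p hp
    obtain ⟨i, hi, rfl⟩ := List.mem_iff_getElem.1 hp
    have hi' : i < (rows I).length := by
      rw [List.length_zip] at hi
      omega
    have hi'' : i < (rhs I).length := by
      rw [List.length_zip] at hi
      omega
    have h1 := h ⟨i, hi'⟩
    rw [← key] at h1
    rw [List.getElem_zip]
    simp only
    rw [List.getD_eq_getElem _ _ hi', List.getD_eq_getElem _ _ hi''] at h1
    exact h1
  · intro h i
    have hi' : (i : ℕ) < (rows I).length := i.2
    have hi'' : (i : ℕ) < (rhs I).length := by rw [h4]; exact i.2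
    rw [← key, List.getD_eq_getElem _ _ hi', List.getD_eq_getElem _ _ hi'']
    have h1 := h ((rows I)[(i : ℕ)], (rhs I)[(i : ℕ)]) (by
      rw [List.mem_iff_getElem]
      exact ⟨i, by rw [List.length_zip]; omega, by rw [List.getElem_zip]⟩)
    exact h1

theorem U_of_range {x : ℤ} (h : x ∈ Set.range (SignType.cast : SignType → ℤ)) : U x := by
  obtain ⟨s, rfl⟩ := h
  cases s
  · exact Or.inl rfl
  · exact Or.inr (Or.inr rfl)
  · exact Or.inr (Or.inl rfl)

theorem tuf_of_valid {I : Inst} (hI : Valid I) : TUF (numV I) (fr (rows I)) := by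
  obtain ⟨-, -, -, -, -, h6⟩ := hI
  rw [Matrix.isTotallyUnimodular_iff] at h6
  intro k f g hf hg
  choose r hr hfr using hf
  choose i hi hir using fun a => List.mem_iff_getElem.1 (hr a)
  have h := h6 k (fun a => ⟨i a, hi a⟩) (fun b => ⟨g b, hg b⟩)
  have e : (Matrix.of fun a b => f a (g b)) =
      (W I).submatrix (fun a => ⟨i a, hi a⟩) (fun b => ⟨g b, hg b⟩) := by
    ext a b
    simp only [Matrix.of_apply, Matrix.submatrix_apply, W, hfr, rl]
    rw [List.getD_eq_getElem _ _ (hi a), hir]
  rw [e]
  exact U_of_range h

theorem cc_length {I : Inst} : (cc I).length = numConcave I := by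
  unfold cc numConcave numV
  have : ∀ l : List ℤ, ((List.range l.length).filter fun j => decide (l.getD j 0 < 0)).length =
      (l.filter fun q => decide (q < 0)).length := by
    intro l
    have e1 : l = (List.range l.length).map fun j => l.getD j 0 := by
      apply List.ext_getElem
      · simp
      · intro i h1 h2
        rw [List.getElem_map, List.getElem_range, List.getD_eq_getElem _ _ h1]
    conv_rhs => rw [e1]
    rw [List.filter_map, List.length_map]
    rfl
  exact this (quad I)

end Pool.Agent.H699.TA
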