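import Pool.Agent.H699.TA.Conf

/-!
# Augmentation for separable convex quadratic functions
-/

namespace Pool.Agent.H699.TA

open Finset Pool.Agent.H699.TU Pool.Agent.Y644.QS

/-- a separable quadratic function -/
def FF (n : ℕ) (a h : ℕ → ℤ) (x : ℕ → ℤ) : ℤ := ∑ j ∈ range n, (a j * x j ^ 2 + h j * x j)

/-- feasibility of an integer point -/
def PF (n : ℕ) (S : List (List ℤ × ℤ)) (x : ℕ → ℤ) : Prop := ∀ p ∈ S, dt n (rl p.1) x ≤ p.2

/-- the rows of the system -/
def rowsL (S : List (List ℤ × ℤ)) : List (List ℤ) := S.map fun p => p.1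

/-- the unit rows are among the rows -/
def HasU (n : ℕ) (R : List (List ℤ)) : Prop := ∀ j < n, unitV n j ∈ R

theorem HasU.inj {n : ℕ} {R : List (List ℤ)} (h : HasU n R) : Inj n R := by
  intro d hd j hj
  have := hd _ (h j hj)
  rwa [dt_unitV hj] at this

theorem FF_congr {n : ℕ} {a h : ℕ → ℤ} {x y : ℕ → ℤ} (hxy : ∀ j < n, x j = y j) :
    FF n a h x = FF n a h y := by
  unfold FF
  exact Finset.sum_congr rfl fun j hj => by rw [hxy j (Finset.mem_range.1 hj)]

theorem PF_congr {n : ℕ} {S : List (List ℤ × ℤ)} {x y : ℕ → ℤ} (hxy : ∀ j < n, x j = y j)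
    (h : PF n S x) : PF n S y := by
  intro p hp
  rw [dt_congr n (rl p.1) fun j hj => (hxy j hj).symm]
  exact h p hp

theorem sum_nonpos' (l : List ℤ) (hl : ∀ u ∈ l, u ≤ 0) : l.sum ≤ 0 := by
  induction l with
  | nil => simp
  | cons u l ih =>
    have h1 := ih fun v hv => hl v (List.mem_cons_of_mem _ hv)
    have h2 := hl u List.mem_cons_self
    rw [List.sum_cons]
    linarith

/-- the square of a sum of numbers of the same sign -/
theorem sq_sum_ge (l : List ℤ) (hl : (∀ u ∈ l, 0 ≤ u) ∨ (∀ u ∈ l, u ≤ 0)) :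
    (l.map fun u => u ^ 2).sum ≤ l.sum ^ 2 := by
  induction l with
  | nil => simp
  | cons u l ih =>
    simp only [List.map_cons, List.sum_cons]
    rcases hl with hl | hl
    · have h1 := ih (Or.inl fun v hv => hl v (List.mem_cons_of_mem _ hv))
      have h2 := hl u List.mem_cons_self
      have h3 : 0 ≤ l.sum := List.sum_nonneg fun v hv => hl v (List.mem_cons_of_mem _ hv)
      nlinarith [mul_nonneg h2 h3]
    · have h1 := ih (Or.inr fun v hv => hl v (List.mem_cons_of_mem _ hv))
      have h2 := hl u List.mem_cons_self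
      have h3 : l.sum ≤ 0 := sum_nonpos' l fun v hv => hl v (List.mem_cons_of_mem _ hv)
      nlinarith [mul_nonneg_of_nonpos_of_nonpos h2 h3]

theorem dec_coord {n : ℕ} {R : List (List ℤ)} (hU : HasU n R) {z : ℕ → ℤ}
    {L : List (ℤ × (ℕ → ℤ))} (hL : Dec n R z L) {j : ℕ} (hj : j < n) :
    (∀ p ∈ L, |p.2 j| ≤ 1) ∧ (∀ p ∈ L, Btw (p.1 * p.2 j) (z j)) := by
  constructor
  · intro p hp
    have := hL.unit p hp _ (hU j hj)
    rwa [dt_unitV hj] at this
  · intro p hp
    have := hL.btw p hp _ (hU j hj)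
    rwa [dt_unitV hj, dt_unitV hj] at this

/-- superadditivity -/
theorem FF_super {n : ℕ} {R : List (List ℤ)} (hU : HasU n R) {z : ℕ → ℤ}
    {L : List (ℤ × (ℕ → ℤ))} (hL : Dec n R z L) {a : ℕ → ℤ} (ha : ∀ j < n, 0 ≤ a j) (h x : ℕ → ℤ) :
    (L.map fun p => FF n a h (fun j => x j + p.1 * p.2 j) - FF n a h x).sum ≤
      FF n a h (fun j => x j + z j) - FF n a h x := by
  have h1 : (L.map fun p => FF n a h (fun j => x j + p.1 * p.2 j) - FF n a h x).sum =
      ∑ j ∈ range n, (L.map fun p => a j * (2 * x j * (p.1 * p.2 j) + (p.1 * p.2 j) ^ 2) +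
        h j * (p.1 * p.2 j)).sum := by
    clear hL
    induction L with
    | nil => simp
    | cons p L ih =>
      simp only [List.map_cons, List.sum_cons]
      rw [ih, Finset.sum_add_distrib]
      congr 1
      unfold FF
      rw [← Finset.sum_sub_distrib]
      exact Finset.sum_congr rfl fun j _ => by ring
  rw [h1]
  unfold FF
  rw [← Finset.sum_sub_distrib]
  refine Finset.sum_le_sum fun j hj => ?_
  have hj := Finset.mem_range.1 hj
  have h2 := (dec_coord hU hL hj).2
  have h3 : ∀ (M : List (ℤ × (ℕ → ℤ))) (c d : ℤ),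
      (M.map fun p => c * (2 * x j * (p.1 * p.2 j) + (p.1 * p.2 j) ^ 2) +
        d * (p.1 * p.2 j)).sum = c * (2 * x j * (M.map fun p => p.1 * p.2 j).sum +
        ((M.map fun p => p.1 * p.2 j).map fun u => u ^ 2).sum) +
        d * (M.map fun p => p.1 * p.2 j).sum := by
    intro M c d
    induction M with
    | nil => simp
    | cons p M ih =>
      simp only [List.map_cons, List.sum_cons]
      rw [ih]
      ring
  rw [h3, ← hL.sum j hj]
  have h4 : ((L.map fun p => p.1 * p.2 j).map fun u => u ^ 2).sum ≤ z j ^ 2 := by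
    rw [hL.sum j hj]
    refine sq_sum_ge _ ?_
    rcases le_total 0 (z j) with hz | hz
    · left
      intro u hu
      obtain ⟨p, hp, rfl⟩ := List.mem_map.1 hu
      have := h2 p hp
      unfold Btw at this
      omega
    · right
      intro u hu
      obtain ⟨p, hp, rfl⟩ := List.mem_map.1 hu
      have := h2 p hp
      unfold Btw at this
      omega
  have h5 := mul_le_mul_of_nonneg_left h4 (ha j hj)
  linarith

/-- a good element of a decomposition -/
theorem exists_step {n : ℕ} {R : List (List ℤ)} (hU : HasU n R) {z : ℕ → ℤ}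
    {L : List (ℤ × (ℕ → ℤ))} (hL : Dec n R z L) {a : ℕ → ℤ} (ha : ∀ j < n, 0 ≤ a j) (h x : ℕ → ℤ)
    (hlt : FF n a h (fun j => x j + z j) < FF n a h x) :
    ∃ p ∈ L, (R.length : ℤ) * (FF n a h (fun j => x j + p.1 * p.2 j) - FF n a h x) ≤
      FF n a h (fun j => x j + z j) - FF n a h x := by
  by_contra hno
  push Not at hno
  have h1 := FF_super hU hL ha h x
  set D : ℤ := FF n a h (fun j => x j + z j) - FF n a h x with hD
  set N : ℤ := (R.length : ℤ) with hN
  have hlen : L.length ≤ R.length := hL.len.trans (List.length_filter_le _ _)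
  have hD0 : D < 0 := by linarith
  have h2 : ∀ M : List (ℤ × (ℕ → ℤ)), (∀ p ∈ M, D < N * (FF n a h (fun j => x j + p.1 * p.2 j) -
      FF n a h x)) → (M.length : ℤ) * (D + 1) ≤
      N * (M.map fun p => FF n a h (fun j => x j + p.1 * p.2 j) - FF n a h x).sum := by
    intro M hM
    induction M with
    | nil => simp
    | cons p M ih =>
      have h3 := ih fun q hq => hM q (List.mem_cons_of_mem _ hq)
      have h4 := hM p List.mem_cons_self
      simp only [List.map_cons, List.sum_cons, List.length_cons]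
      push_cast
      rw [mul_add]
      nlinarith
  have h3 := h2 L hno
  have hLne : L ≠ [] := by
    rintro rfl
    simp at h1
    omega
  have hLpos : 0 < L.length := List.length_pos_iff.2 hLne
  have h5 : (L.length : ℤ) ≤ N := by rw [hN]; exact_mod_cast hlen
  have h6 : (1 : ℤ) ≤ (L.length : ℤ) := by exact_mod_cast hLpos
  have h7 : N * (L.map fun p => FF n a h (fun j => x j + p.1 * p.2 j) - FF n a h x).sum ≤ N * D :=
    mul_le_mul_of_nonneg_left h1 (by linarith)
  nlinarith

/-- feasibility along a decomposition -/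
theorem PF_along {n : ℕ} {S : List (List ℤ × ℤ)} {x z : ℕ → ℤ} {L : List (ℤ × (ℕ → ℤ))}
    (hL : Dec n (rowsL S) z L) (hx : PF n S x) (hy : PF n S fun j => x j + z j)
    {p : ℤ × (ℕ → ℤ)} (hp : p ∈ L) {c : ℤ} (hc0 : 0 ≤ c) (hc : c ≤ p.1) :
    PF n S fun j => x j + c * p.2 j := by
  intro q hq
  have h1 := hL.btw p hp q.1 (List.mem_map.2 ⟨q, hq, rfl⟩)
  have h2 := hx q hq
  have h3 := hy q hq
  have h4 : dt n (rl q.1) (fun j => x j + z j) = dt n (rl q.1) x + dt n (rl q.1) z := by
    have := dt_add (n := n) (rl q.1) x z 1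
    simpa using this
  rw [h4] at h3
  rw [dt_add]
  unfold Btw at h1
  set g := dt n (rl q.1) p.2
  rcases le_total 0 g with hg | hg
  · have h5 : c * g ≤ p.1 * g := mul_le_mul_of_nonneg_right hc hg
    have h6 := hL.pos p hp
    have h7 : 0 ≤ p.1 * g := mul_nonneg h6.le hg
    rcases h1 with h1 | h1
    · linarith
    · linarith
  · have h5 : c * g ≤ 0 := mul_nonpos_of_nonneg_of_nonpos hc0 hg
    linarith

/-- along a line -/
theorem FF_line {n : ℕ} (a h x g : ℕ → ℤ) (c : ℤ) :
    FF n a h (fun j => x j + c * g j) - FF n a h x =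
      c * (∑ j ∈ range n, (2 * a j * x j * g j + h j * g j)) +
        c ^ 2 * ∑ j ∈ range n, a j * g j ^ 2 := by
  unfold FF
  rw [← Finset.sum_sub_distrib, Finset.mul_sum, Finset.mul_sum, ← Finset.sum_add_distrib]
  exact Finset.sum_congr rfl fun j _ => by ring

/-- halving the step -/
theorem half_step {n : ℕ} {a : ℕ → ℤ} (ha : ∀ j < n, 0 ≤ a j) (h x g : ℕ → ℤ) {c t : ℤ}
    (hc : 0 < c) (h1 : c ≤ t) (h2 : t ≤ 2 * c)
    (hneg : FF n a h (fun j => x j + t * g j) - FF n a h x ≤ 0) :
    2 * (FF n a h (fun j => x j + c * g j) - FF n a h x) ≤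
      FF n a h (fun j => x j + t * g j) - FF n a h x := by
  rw [FF_line] at hneg ⊢
  rw [FF_line]
  set b := ∑ j ∈ range n, (2 * a j * x j * g j + h j * g j)
  have hA : 0 ≤ ∑ j ∈ range n, a j * g j ^ 2 :=
    Finset.sum_nonneg fun j hj => mul_nonneg (ha j (Finset.mem_range.1 hj)) (sq_nonneg _)
  set A := ∑ j ∈ range n, a j * g j ^ 2
  have h3 : t * (b + t * A) ≤ 0 := by nlinarith
  have h4 : b + t * A ≤ 0 := by
    by_contra h5
    push Not at h5
    have : 0 < t * (b + t * A) := mul_pos (by linarith) h5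
    linarith
  have h5 : b + c * A ≤ b + t * A := by nlinarith
  -- 2 c (b + c A) ≤ t (b + t A)
  have h6 : 2 * c * (b + c * A) ≤ 2 * c * (b + t * A) :=
    mul_le_mul_of_nonneg_left h5 (by linarith)
  have h7 : 2 * c * (b + t * A) ≤ t * (b + t * A) := by nlinarith
  nlinarith

/-- a power of two below a positive number -/
theorem exists_pow (t : ℤ) (ht : 0 < t) : ∃ k : ℕ, (2 : ℤ) ^ k ≤ t ∧ t ≤ 2 * 2 ^ k := by
  obtain ⟨m, rfl⟩ := Int.eq_ofNat_of_zero_le ht.le
  have hm : m ≠ 0 := by rintro rfl; simp at ht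
  refine ⟨Nat.log 2 m, ?_, ?_⟩
  · exact_mod_cast Nat.pow_log_le_self 2 hm
  · have := (Nat.lt_pow_succ_log_self (b := 2) (by norm_num) m).le
    rw [pow_succ, mul_comm] at this
    exact_mod_cast this

/-- The main estimate for augmentation. -/
theorem exists_aug {n : ℕ} {S : List (List ℤ × ℤ)} (hS : LenS n S) (htu : TUF n (fr (rowsL S)))
    (hU : HasU n (rowsL S)) {a : ℕ → ℤ} (ha : ∀ j < n, 0 ≤ a j) (h : ℕ → ℤ) {x y : ℕ → ℤ}
    (hx : PF n S x) (hy : PF n S y) (hlt : FF n a h y < FF n a h x) :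
    ∃ (k : ℕ) (g : ℕ → ℤ), (∀ j < n, |g j| ≤ 1) ∧ (∃ j < n, (2 : ℤ) ^ k ≤ |y j - x j|) ∧
      PF n S (fun j => x j + 2 ^ k * g j) ∧
      2 * (S.length : ℤ) * (FF n a h (fun j => x j + 2 ^ k * g j) - FF n a h x) ≤
        FF n a h y - FF n a h x := by
  set z : ℕ → ℤ := fun j => y j - x j with hz
  have hyz : ∀ j < n, x j + z j = y j := fun j _ => by simp [hz]
  obtain ⟨L, hL⟩ := exists_dec (R := rowsL S) (fun r hr => by
    obtain ⟨p, hp, rfl⟩ := List.mem_map.1 hr; exact hS p hp) htu hU.inj z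
  have hlt' : FF n a h (fun j => x j + z j) < FF n a h x := by rw [FF_congr hyz]; exact hlt
  obtain ⟨p, hp, hstep⟩ := exists_step hU hL ha h x hlt'
  rw [FF_congr hyz] at hstep
  have hp1 := hL.pos p hp
  obtain ⟨k, hk1, hk2⟩ := exists_pow p.1 hp1
  have hlen : ((rowsL S).length : ℤ) = (S.length : ℤ) := by simp [rowsL]
  rw [hlen] at hstep
  have hSpos : 0 < (S.length : ℤ) := by
    by_contra h0
    have : (S.length : ℤ) = 0 := by have := Int.natCast_nonneg S.length; omega
    rw [this] at hstep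
    omega
  have hneg : FF n a h (fun j => x j + p.1 * p.2 j) - FF n a h x < 0 := by
    by_contra h0
    push Not at h0
    have := mul_nonneg hSpos.le h0
    omega
  have hhalf := half_step ha h x p.2 (c := 2 ^ k) (t := p.1) (by positivity) hk1 hk2 hneg.le
  refine ⟨k, p.2, fun j hj => (dec_coord hU hL hj).1 p hp, ?_, ?_, ?_⟩
  · by_contra hno
    push Not at hno
    -- then all entries vanish, contradicting the decrease
    have hzero : ∀ j < n, p.2 j = 0 := by
      intro j hj
      have h1 := (dec_coord hU hL hj).2 p hp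
      have h2 := hno j hj
      by_contra h3
      have h4 : |p.1 * p.2 j| ≤ |z j| := by
        unfold Btw at h1
        rcases h1 with h1 | h1
        · rw [abs_of_nonneg h1.1, abs_of_nonneg (by omega)]; exact h1.2
        · rw [abs_of_nonpos h1.2, abs_of_nonpos (by omega)]; omega
      rw [abs_mul, abs_of_pos hp1] at h4
      have h5 : 1 ≤ |p.2 j| := Int.one_le_abs h3
      have h6 : p.1 ≤ p.1 * |p.2 j| := by nlinarith
      have h7 : |z j| < 2 ^ k := h2
      omega
    rw [FF_congr (n := n) (x := fun j => x j + p.1 * p.2 j) (y := x) (fun j hj => by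
      rw [hzero j hj]; ring)] at hneg
    omega
  · exact PF_along hL hx (PF_congr (fun j hj => (hyz j hj).symm) hy) hp (by positivity) hk1
  · calc 2 * (S.length : ℤ) * (FF n a h (fun j => x j + 2 ^ k * p.2 j) - FF n a h x)
        = (S.length : ℤ) * (2 * (FF n a h (fun j => x j + 2 ^ k * p.2 j) - FF n a h x)) := by ring
      _ ≤ (S.length : ℤ) * (FF n a h (fun j => x j + p.1 * p.2 j) - FF n a h x) :=
          mul_le_mul_of_nonneg_left hhalf hSpos.le
      _ ≤ _ := hstep

end Pool.Agent.H699.TA
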