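import Pool.Agent.H699.TA.Aug
import Pool.Agent.H699.TU.PolyT

/-!
# One augmentation
-/

namespace Pool.Agent.H699.TA

open Finset Pool.Agent.H699.TU Pool.Agent.Y644.QS

/-- the inner product of lists -/
def dtl (n : ℕ) (r x : List ℤ) : ℤ := ((List.range n).map fun j => r.getD j 0 * x.getD j 0).sum

theorem dtl_eq (n : ℕ) (r x : List ℤ) : dtl n r x = dt n (rl r) (rl x) := by
  unfold dtl dt rl
  rw [← sum_range_list]
  simp

/-- the system of the augmentation step, with doubled variables -/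
def dblS (n : ℕ) (S : List (List ℤ × ℤ)) (x : List ℤ) (c : ℕ) : List (List ℤ × ℤ) :=
  S.map (fun p => (p.1 ++ negV p.1, (p.2 - dtl n p.1 x) / (c : ℤ))) ++
    (List.range (n + n)).flatMap fun j => [(unitV (n + n) j, 1), (negV (unitV (n + n) j), 0)]

/-- the objective of the augmentation step -/
def costV (n : ℕ) (a h x : List ℤ) (c : ℕ) : List ℤ :=
  (List.range n).map (fun j => -(a.getD j 0 * (2 * x.getD j 0 * (c : ℤ) + (c : ℤ) * (c : ℤ)) +
      h.getD j 0 * (c : ℤ))) ++
    (List.range n).map (fun j => -(a.getD j 0 * ((c : ℤ) * (c : ℤ) - 2 * x.getD j 0 * (c : ℤ)) -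
      h.getD j 0 * (c : ℤ)))

/-- the augmented point -/
def augV (n : ℕ) (S : List (List ℤ × ℤ)) (a h x : List ℤ) (c : ℕ) : List ℤ :=
  (List.range n).map fun j => x.getD j 0 + (c : ℤ) *
    ((solV (n + n) (dblS n S x c) (costV n a h x c)).getD j 0 -
      (solV (n + n) (dblS n S x c) (costV n a h x c)).getD (n + j) 0)

theorem dt_append {K : Type} [CommRing K] {n m : ℕ} {l l' : List ℤ} (hl : l.length = n)
    (y : ℕ → K) : dt (n + m) (rl (l ++ l')) y = dt n (rl l) y + dt m (rl l') fun j => y (n + j) := by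
  unfold dt
  rw [Finset.sum_range_add]
  congr 1
  · refine Finset.sum_congr rfl fun j hj => ?_
    have hj := Finset.mem_range.1 hj
    unfold rl
    rw [List.getD_append _ _ _ _ (by omega)]
  · refine Finset.sum_congr rfl fun j hj => ?_
    unfold rl
    rw [List.getD_append_right _ _ _ _ (by omega), hl, Nat.add_sub_cancel_left]

theorem dt_dbl {K : Type} [CommRing K] {n : ℕ} {r : List ℤ} (hr : r.length = n) (y : ℕ → K) :
    dt (n + n) (rl (r ++ negV r)) y = dt n (rl r) fun j => y j - y (n + j) := by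
  rw [dt_append hr, dt_neg]
  unfold dt
  rw [← sub_eq_add_neg, ← Finset.sum_sub_distrib]
  exact Finset.sum_congr rfl fun j _ => by ring

theorem mem_dblS {n : ℕ} {S : List (List ℤ × ℤ)} {x : List ℤ} {c : ℕ} {q : List ℤ × ℤ} :
    q ∈ dblS n S x c ↔ (∃ p ∈ S, q = (p.1 ++ negV p.1, (p.2 - dtl n p.1 x) / (c : ℤ))) ∨
      ∃ j < n + n, q = (unitV (n + n) j, 1) ∨ q = (negV (unitV (n + n) j), 0) := by
  unfold dblS
  simp only [List.mem_append, List.mem_map, List.mem_flatMap, List.mem_range, List.mem_cons,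
    List.not_mem_nil, or_false]
  constructor
  · rintro (⟨p, hp, rfl⟩ | ⟨j, hj, h⟩)
    · exact Or.inl ⟨p, hp, rfl⟩
    · exact Or.inr ⟨j, hj, h⟩
  · rintro (⟨p, hp, rfl⟩ | ⟨j, hj, h⟩)
    · exact Or.inl ⟨p, hp, rfl⟩
    · exact Or.inr ⟨j, hj, h⟩

theorem good_dblS {n : ℕ} {S : List (List ℤ × ℤ)} (hS : LenS n S) (htu : TUF n (fr (rowsL S)))
    (x : List ℤ) (c : ℕ) : Good (n + n) (dblS n S x c) := by
  refine ⟨fun q hq => ?_, ?_, fun d hd j hj => ?_⟩
  · rcases mem_dblS.1 hq with ⟨p, hp, rfl⟩ | ⟨j, hj, rfl | rfl⟩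
    · simp only [List.length_append, length_negV (hS p hp), hS p hp]
    · exact length_unitV _ _
    · exact length_negV (length_unitV _ _)
  · refine (htu.double.unit).signed.mono ?_
    rintro f ⟨q, hq, rfl⟩
    rcases mem_dblS.1 hq with ⟨p, hp, rfl⟩ | ⟨j, hj, rfl | rfl⟩
    · refine ⟨rl (p.1 ++ negV p.1), Or.inl ⟨rl p.1, ⟨p.1, List.mem_map.2 ⟨p, hp, rfl⟩, rfl⟩,
        fun j hj => ?_, fun j hj => ?_⟩, 1, Or.inr (Or.inl rfl), fun j _ => by simp⟩
      · unfold rl
        rw [List.getD_append _ _ _ _ (by rw [hS p hp]; exact hj)]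
      · rw [← rl_negV]
        unfold rl
        rw [List.getD_append_right _ _ _ _ (by rw [hS p hp]; omega), hS p hp,
          Nat.add_sub_cancel_left]
    · exact ⟨rl (unitV (n + n) j), Or.inr ⟨j, fun i hi => getD_unitV hi j⟩, 1, Or.inr (Or.inl rfl),
        fun i _ => by simp⟩
    · exact ⟨rl (unitV (n + n) j), Or.inr ⟨j, fun i hi => getD_unitV hi j⟩, -1,
        Or.inr (Or.inr rfl), fun i _ => by rw [rl_negV]; ring⟩
  · have h1 := hd _ (mem_dblS.2 (Or.inr ⟨j, hj, Or.inl rfl⟩))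
    have h2 := hd _ (mem_dblS.2 (Or.inr ⟨j, hj, Or.inr rfl⟩))
    simp only at h1 h2
    rw [dt_unitV hj] at h1
    rw [dt_neg, dt_unitV hj] at h2
    linarith

theorem rl_map_range {n : ℕ} (f : ℕ → ℤ) {j : ℕ} (hj : j < n) :
    rl ((List.range n).map f) j = f j := by
  unfold rl
  rw [List.getD_eq_getElem _ _ (by simpa using hj)]
  simp

theorem augV_spec {n : ℕ} {S : List (List ℤ × ℤ)} (hS : LenS n S) (htu : TUF n (fr (rowsL S)))
    {a h x : List ℤ} (ha : ∀ j < n, 0 ≤ rl a j) (hx : PF n S (rl x)) {c : ℕ} (hc : 0 < c) :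
    PF n S (rl (augV n S a h x c)) ∧
      ∀ g : ℕ → ℤ, (∀ j < n, |g j| ≤ 1) → PF n S (fun j => rl x j + (c : ℤ) * g j) →
        FF n (rl a) (rl h) (rl (augV n S a h x c)) ≤
          FF n (rl a) (rl h) (fun j => rl x j + (c : ℤ) * g j) := by
  have hcz : (0 : ℤ) < (c : ℤ) := by exact_mod_cast hc
  have hG := good_dblS hS htu x c
  have hcl : (costV n a h x c).length = n + n := by simp [costV]
  have hint : ∀ y : ℕ → ℤ, (∀ q ∈ dblS n S x c, dt (n + n) (rl q.1) y ≤ q.2) →
      ∀ q ∈ dblS n S x c, dt (n + n) (rl q.1) (fun j => ((y j : ℤ) : ℝ)) ≤ q.2 := by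
    intro y hy q hq
    rw [← dt_int_cast]
    exact_mod_cast hy q hq
  have h0 : ∀ q ∈ dblS n S x c, dt (n + n) (rl q.1) (fun _ => (0 : ℤ)) ≤ q.2 := by
    intro q hq
    have e0 : dt (n + n) (rl q.1) (fun _ => (0 : ℤ)) = 0 := by
      unfold dt
      exact Finset.sum_eq_zero fun j _ => by ring
    rw [e0]
    rcases mem_dblS.1 hq with ⟨p, hp, rfl⟩ | ⟨j, hj, rfl | rfl⟩
    · have := hx p hp
      simp only
      rw [dtl_eq]
      exact Int.ediv_nonneg (by linarith) hcz.le
    · norm_num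
    · norm_num
  obtain ⟨s1, s2⟩ := solV_spec hG hcl ⟨_, hint _ h0⟩
  set G : ℕ → ℤ := rl (solV (n + n) (dblS n S x c) (costV n a h x c)) with hGdef
  set d : ℕ → ℤ := fun j => G j - G (n + j) with hd
  have hG01 : ∀ j < n + n, 0 ≤ G j ∧ G j ≤ 1 := by
    intro j hj
    have h1 := s1 _ (mem_dblS.2 (Or.inr ⟨j, hj, Or.inl rfl⟩))
    have h2 := s1 _ (mem_dblS.2 (Or.inr ⟨j, hj, Or.inr rfl⟩))
    simp only at h1 h2
    rw [dt_unitV hj] at h1
    rw [dt_neg, dt_unitV hj] at h2
    omega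
  have hv : ∀ j < n, rl (augV n S a h x c) j = rl x j + (c : ℤ) * d j := by
    intro j hj
    unfold augV
    rw [rl_map_range _ hj]
    rfl
  -- costs
  have hcost : ∀ y : ℕ → ℤ, dt (n + n) (rl (costV n a h x c)) y =
      - ∑ j ∈ range n, ((rl a j * (2 * rl x j * (c : ℤ) + (c : ℤ) * (c : ℤ)) +
        rl h j * (c : ℤ)) * y j + (rl a j * ((c : ℤ) * (c : ℤ) - 2 * rl x j * (c : ℤ)) -
        rl h j * (c : ℤ)) * y (n + j)) := by
    intro y
    unfold costV
    rw [dt_append (by simp)]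
    unfold dt
    rw [← Finset.sum_neg_distrib, ← Finset.sum_add_distrib]
    refine Finset.sum_congr rfl fun j hj => ?_
    have hj := Finset.mem_range.1 hj
    rw [rl_map_range _ hj, rl_map_range _ hj]
    simp only [Int.cast_id, rl]
    ring
  have hval : FF n (rl a) (rl h) (rl (augV n S a h x c)) - FF n (rl a) (rl h) (rl x) ≤
      - dt (n + n) (rl (costV n a h x c)) G := by
    rw [hcost, neg_neg, FF_congr hv]
    unfold FF
    rw [← Finset.sum_sub_distrib]
    refine Finset.sum_le_sum fun j hj => ?_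
    have hj := Finset.mem_range.1 hj
    have g1 := hG01 j (by omega)
    have g2 := hG01 (n + j) (by omega)
    have haj := ha j hj
    simp only [hd]
    have e1 : (rl a j * (2 * rl x j * (c : ℤ) + (c : ℤ) * (c : ℤ)) + rl h j * (c : ℤ)) * G j +
        (rl a j * ((c : ℤ) * (c : ℤ) - 2 * rl x j * (c : ℤ)) - rl h j * (c : ℤ)) * G (n + j) -
        (rl a j * (rl x j + (c : ℤ) * (G j - G (n + j))) ^ 2 +
          rl h j * (rl x j + (c : ℤ) * (G j - G (n + j))) - (rl a j * rl x j ^ 2 +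
          rl h j * rl x j)) = rl a j * ((c : ℤ) * (c : ℤ)) *
          (G j + G (n + j) - (G j - G (n + j)) ^ 2) := by ring
    have e2 : 0 ≤ G j + G (n + j) - (G j - G (n + j)) ^ 2 := by
      have : G j = 0 ∨ G j = 1 := by omega
      have : G (n + j) = 0 ∨ G (n + j) = 1 := by omega
      rcases ‹G j = 0 ∨ G j = 1› with h1 | h1 <;> rcases this with h2 | h2 <;> rw [h1, h2] <;>
        norm_num
    have e3 : 0 ≤ rl a j * ((c : ℤ) * (c : ℤ)) * (G j + G (n + j) - (G j - G (n + j)) ^ 2) :=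
      mul_nonneg (mul_nonneg haj (mul_nonneg hcz.le hcz.le)) e2
    linarith
  refine ⟨fun p hp => ?_, fun g hg hgf => ?_⟩
  · have h1 := s1 _ (mem_dblS.2 (Or.inl ⟨p, hp, rfl⟩))
    simp only at h1
    rw [dt_dbl (hS p hp), dtl_eq] at h1
    rw [dt_congr n (rl p.1) hv, dt_add]
    have h2 : (c : ℤ) * ((p.2 - dt n (rl p.1) (rl x)) / (c : ℤ)) ≤ p.2 - dt n (rl p.1) (rl x) :=
      Int.mul_ediv_self_le hcz.ne'
    have h3 : (c : ℤ) * dt n (rl p.1) d ≤
        (c : ℤ) * ((p.2 - dt n (rl p.1) (rl x)) / (c : ℤ)) := mul_le_mul_of_nonneg_left h1 hcz.le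
    linarith
  · set gg : ℕ → ℤ := fun j => if j < n then max (g j) 0 else max (-(g (j - n))) 0 with hgg
    have hgg1 : ∀ j < n, gg j = max (g j) 0 := fun j hj => by simp [hgg, hj]
    have hgg2 : ∀ j < n, gg (n + j) = max (-(g j)) 0 := fun j hj => by simp [hgg]
    have hggd : ∀ j < n, gg j - gg (n + j) = g j := by
      intro j hj
      rw [hgg1 j hj, hgg2 j hj]
      omega
    have hggf : ∀ q ∈ dblS n S x c, dt (n + n) (rl q.1) gg ≤ q.2 := by
      intro q hq
      rcases mem_dblS.1 hq with ⟨p, hp, rfl⟩ | ⟨j, hj, rfl | rfl⟩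
      · simp only
        rw [dt_dbl (hS p hp), dt_congr n (rl p.1) hggd, dtl_eq, Int.le_ediv_iff_mul_le hcz]
        have := hgf p hp
        rw [dt_add] at this
        linarith
      · simp only
        rw [dt_unitV hj]
        by_cases hjn : j < n
        · rw [hgg1 j hjn]
          have := abs_le.1 (hg j hjn)
          omega
        · have e : j = n + (j - n) := by omega
          rw [e, hgg2 (j - n) (by omega)]
          have := abs_le.1 (hg (j - n) (by omega))
          omega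
      · simp only
        rw [dt_neg, dt_unitV hj]
        by_cases hjn : j < n
        · rw [hgg1 j hjn]
          omega
        · have e : j = n + (j - n) := by omega
          rw [e, hgg2 (j - n) (by omega)]
          omega
    have h2 := s2 _ (hint _ hggf)
    rw [← dt_int_cast] at h2
    have h3 : dt (n + n) (rl (costV n a h x c)) gg ≤ dt (n + n) (rl (costV n a h x c)) G := by
      exact_mod_cast h2
    have h4 : dt (n + n) (rl (costV n a h x c)) gg =
        -(FF n (rl a) (rl h) (fun j => rl x j + (c : ℤ) * g j) - FF n (rl a) (rl h) (rl x)) := by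
      rw [hcost]
      unfold FF
      rw [← Finset.sum_sub_distrib]
      congr 1
      refine Finset.sum_congr rfl fun j hj => ?_
      have hj := Finset.mem_range.1 hj
      rw [hgg1 j hj, hgg2 j hj]
      have h5 := abs_le.1 (hg j hj)
      have : g j = -1 ∨ g j = 0 ∨ g j = 1 := by omega
      rcases this with h6 | h6 | h6 <;> simp only [h6] <;> norm_num <;> ring
    linarith

end Pool.Agent.H699.TA
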