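import Pool.Agent.H699.TA.Opt

/-!
# An optimal solution of small size
-/

namespace Pool.Agent.H699.TA

open Finset Pool.Agent.H699.TU Pool.Agent.Y644.QS

/-- sums over part of a decomposition -/
def psum (L : List (ℤ × (ℕ → ℤ))) (j : ℕ) : ℤ := (L.map fun p => p.1 * p.2 j).sum

theorem dt_psum (n : ℕ) (r : ℕ → ℤ) (L : List (ℤ × (ℕ → ℤ))) :
    dt n r (psum L) = (L.map fun p => p.1 * dt n r p.2).sum := by
  unfold psum
  induction L with
  | nil => simp [dt]
  | cons p L ih =>
    simp only [List.map_cons, List.sum_cons]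
    rw [← ih]
    unfold dt
    rw [Finset.mul_sum, ← Finset.sum_add_distrib]
    exact Finset.sum_congr rfl fun j _ => by ring

theorem psum_filter (L : List (ℤ × (ℕ → ℤ))) (P : ℤ × (ℕ → ℤ) → Bool) (j : ℕ) :
    psum L j = psum (L.filter P) j + psum (L.filter fun p => !P p) j := by
  unfold psum
  induction L with
  | nil => simp
  | cons p L ih =>
    simp only [List.map_cons, List.sum_cons, List.filter_cons]
    rw [ih]
    cases P p <;> simp <;> ring

theorem sum_sub_le (l : List ℤ) (P : ℤ → Prop) (h0 : ∀ a ∈ l, 0 ≤ a) : 0 ≤ l.sum :=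
  List.sum_nonneg h0

/-- A quadratic function bounded on the natural numbers is constant. -/
theorem bounded_quad {a b C : ℤ} (h : ∀ t : ℕ, |(t : ℤ) * b + (t : ℤ) ^ 2 * a| ≤ C) :
    a = 0 ∧ b = 0 := by
  have hC : 0 ≤ C := (abs_nonneg _).trans (h 0)
  have ha : a = 0 := by
    by_contra ha
    have h1 : 1 ≤ |a| := Int.one_le_abs ha
    obtain ⟨c, hc⟩ := Int.eq_ofNat_of_zero_le hC
    have e1 := h (3 * c + 3)
    have e2 := h (2 * (3 * c + 3))
    set t : ℤ := ((3 * c + 3 : ℕ) : ℤ) with ht
    have ht2 : ((2 * (3 * c + 3) : ℕ) : ℤ) = 2 * t := by rw [ht]; push_cast; ring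
    rw [ht2] at e2
    have h2 : |2 * t ^ 2 * a| ≤ 3 * C := by
      have e3 : 2 * t ^ 2 * a = (2 * t * b + (2 * t) ^ 2 * a) - 2 * (t * b + t ^ 2 * a) := by ring
      rw [e3]
      calc |(2 * t * b + (2 * t) ^ 2 * a) - 2 * (t * b + t ^ 2 * a)|
          ≤ |2 * t * b + (2 * t) ^ 2 * a| + |2 * (t * b + t ^ 2 * a)| := abs_sub _ _
        _ ≤ C + 2 * C := by rw [abs_mul, abs_two]; linarith
        _ = 3 * C := by ring
    have h3 : 2 * t ^ 2 * |a| ≤ 3 * C := by
      rwa [abs_mul, abs_of_nonneg (by positivity : (0 : ℤ) ≤ 2 * t ^ 2)] at h2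
    have h4 : 2 * t ^ 2 ≤ 2 * t ^ 2 * |a| := by nlinarith [sq_nonneg t]
    have h5 : t = 3 * C + 3 := by rw [ht, hc]; push_cast; ring
    nlinarith
  refine ⟨ha, ?_⟩
  subst ha
  by_contra hb
  have h1 : 1 ≤ |b| := Int.one_le_abs hb
  obtain ⟨c, hc⟩ := Int.eq_ofNat_of_zero_le hC
  have e1 := h (c + 1)
  rw [mul_zero, add_zero, abs_mul] at e1
  have h5 : ((c + 1 : ℕ) : ℤ) = C + 1 := by rw [hc]; push_cast; ring
  rw [h5, abs_of_nonneg (by linarith : (0 : ℤ) ≤ C + 1)] at e1
  nlinarith

theorem exists_small {n : ℕ} {Wr : List (List ℤ)} (hl : ∀ r ∈ Wr, r.length = n)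
    (htu : TUF n (fr Wr)) (w : List ℤ) (q h : ℕ → ℤ) {x0 y : ℕ → ℤ}
    (hx0 : PF n (List.zip Wr w) x0) (hy : PF n (List.zip Wr w) y)
    (hopt : ∀ x, PF n (List.zip Wr w) x → FF n q h y ≤ FF n q h x) {M : ℤ}
    (hM : ∀ x, PF n (List.zip Wr w) x → FF n q h x ≤ M) {D0 D1 : ℤ}
    (hD0 : ∀ j < n, |x0 j| ≤ D0) (hD1 : ∀ p ∈ List.zip Wr w, p.2 - dt n (rl p.1) x0 ≤ D1)
    (hD1' : 0 ≤ D1) :
    ∃ v, PF n (List.zip Wr w) v ∧ FF n q h v = FF n q h y ∧
      ∀ j < n, |v j| ≤ D0 + (nrows n Wr w : ℤ) * D1 := by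
  classical
  set S := sysB n Wr w [] [] with hS
  have hU : HasU n (rowsL S) := hasU_sysB n Wr w [] []
  have htS : TUF n (fr (rowsL S)) := tuf_sysB htu w [] []
  have hlS := lenS_sysB hl w [] []
  set z : ℕ → ℤ := fun j => y j - x0 j with hz
  obtain ⟨L, hL⟩ := exists_dec (R := rowsL S) (fun r hr => by
    obtain ⟨p, hp, rfl⟩ := List.mem_map.1 hr; exact hlS p hp) htS hU.inj z
  set P : ℤ × (ℕ → ℤ) → Bool := fun p => (List.zip Wr w).all fun c =>
    decide (dt n (rl c.1) p.2 ≤ 0) with hP
  set d : ℕ → ℤ := psum (L.filter P) with hd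
  set e : ℕ → ℤ := psum (L.filter fun p => !P p) with he
  have hzde : ∀ j < n, z j = d j + e j := by
    intro j hj
    rw [hL.sum j hj]
    exact psum_filter L P j
  have hrow : ∀ c ∈ List.zip Wr w, c.1 ∈ rowsL S := fun c hc =>
    List.mem_map.2 ⟨c, mem_sysB.2 (Or.inl hc), rfl⟩
  have hdtz : ∀ r : ℕ → ℤ, dt n r z = dt n r y - dt n r x0 := by
    intro r
    have := dt_sub (n := n) r y x0 1
    simpa using this
  have hdtde : ∀ r : ℕ → ℤ, dt n r z = dt n r d + dt n r e := by
    intro r
    have h1 : dt n r z = dt n r (fun j => d j + 1 * e j) := dt_congr n r fun j hj => by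
      rw [hzde j hj, one_mul]
    rw [h1, dt_add, one_mul]
  -- the direction d
  have hdrec : ∀ c ∈ List.zip Wr w, dt n (rl c.1) d ≤ 0 := by
    intro c hc
    rw [hd, dt_psum]
    refine sum_nonpos' _ fun u hu => ?_
    obtain ⟨p, hp, rfl⟩ := List.mem_map.1 hu
    rw [List.mem_filter] at hp
    have h1 := hL.pos p hp.1
    have h2 : dt n (rl c.1) p.2 ≤ 0 := by
      have := (List.all_eq_true.1 hp.2) c hc
      simpa using this
    exact mul_nonpos_of_nonneg_of_nonpos h1.le h2
  -- v = x0 + e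
  have hve : ∀ c ∈ List.zip Wr w, dt n (rl c.1) x0 + dt n (rl c.1) e ≤ c.2 := by
    intro c hc
    have h1 := hx0 c hc
    have h2 := hy c hc
    have hterm : ∀ p ∈ L, Btw (p.1 * dt n (rl c.1) p.2) (dt n (rl c.1) z) := fun p hp =>
      hL.btw p hp _ (hrow c hc)
    rcases le_total 0 (dt n (rl c.1) z) with h0 | h0
    · have h3 : 0 ≤ dt n (rl c.1) d := by
        rw [hd, dt_psum]
        refine List.sum_nonneg fun u hu => ?_
        obtain ⟨p, hp, rfl⟩ := List.mem_map.1 hu
        rw [List.mem_filter] at hp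
        have := hterm p hp.1
        unfold Btw at this
        omega
      have h4 := hdtde (rl c.1)
      have h5 := hdtz (rl c.1)
      linarith
    · have h3 : dt n (rl c.1) e ≤ 0 := by
        rw [he, dt_psum]
        refine sum_nonpos' _ fun u hu => ?_
        obtain ⟨p, hp, rfl⟩ := List.mem_map.1 hu
        rw [List.mem_filter] at hp
        have := hterm p hp.1
        unfold Btw at this
        omega
      linarith
  set v : ℕ → ℤ := fun j => x0 j + 1 * e j with hv
  have hline : ∀ t : ℕ, PF n (List.zip Wr w) (fun j => v j + (t : ℤ) * d j) := by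
    intro t c hc
    rw [dt_add, hv, dt_add, one_mul]
    have h1 := hve c hc
    have h2 := hdrec c hc
    have h3 : (t : ℤ) * dt n (rl c.1) d ≤ 0 :=
      mul_nonpos_of_nonneg_of_nonpos (by positivity) h2
    linarith
  have hvf : PF n (List.zip Wr w) v := by
    have := hline 0
    simpa using this
  have hconst : FF n q h v = FF n q h y := by
    have hb : ∀ t : ℕ, |(t : ℤ) * (∑ j ∈ range n, (2 * q j * v j * d j + h j * d j)) +
        (t : ℤ) ^ 2 * ∑ j ∈ range n, q j * d j ^ 2| ≤ M - FF n q h y := by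
      intro t
      rw [← FF_line, abs_le]
      have h1 := hopt _ (hline t)
      have h2 := hM _ (hline t)
      have h3 := hopt _ hvf
      have h4 := hM _ hvf
      constructor <;> linarith
    obtain ⟨ha, hb'⟩ := bounded_quad hb
    have h1 := FF_line (n := n) q h v d 1
    rw [ha, hb'] at h1
    have h2 : FF n q h (fun j => v j + 1 * d j) = FF n q h y := FF_congr fun j hj => by
      have h3 := hzde j hj
      simp only [hv, hz] at h3 ⊢
      linarith
    rw [h2] at h1
    linarith
  refine ⟨v, hvf, hconst, fun j hj => ?_⟩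
  -- size
  have hej : |e j| ≤ (nrows n Wr w : ℤ) * D1 := by
    have hlen : (L.filter fun p => !P p).length ≤ nrows n Wr w := by
      have h1 := List.length_filter_le (fun p => !P p) L
      have h2 := hL.len.trans (List.length_filter_le _ _)
      have h3 : (rowsL S).length = nrows n Wr w := by
        rw [rowsL, List.length_map]; exact length_sysB _ _ _ _ _
      omega
    have hcoef : ∀ p ∈ L.filter fun p => !P p, |p.1 * p.2 j| ≤ D1 := by
      intro p hp
      rw [List.mem_filter] at hp
      obtain ⟨hpL, hpP⟩ := hp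
      have hneg : P p = false := by simpa using hpP
      obtain ⟨c, hc, hcp⟩ : ∃ c ∈ List.zip Wr w, 0 < dt n (rl c.1) p.2 := by
        by_contra hno
        push Not at hno
        have : P p = true := by
          rw [hP]
          simp only [List.all_eq_true, decide_eq_true_eq]
          exact hno
        rw [this] at hneg
        exact absurd hneg (by simp)
      have h1 := hL.btw p hpL _ (hrow c hc)
      have h2 := hL.pos p hpL
      have h3 : p.1 ≤ p.1 * dt n (rl c.1) p.2 := by nlinarith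
      have h4 : p.1 * dt n (rl c.1) p.2 ≤ dt n (rl c.1) z := by
        unfold Btw at h1
        omega
      have h5 := hdtz (rl c.1)
      have h6 := hy c hc
      have h7 := hD1 c hc
      have h8 := (dec_coord hU hL hj).1 p hpL
      rw [abs_mul, abs_of_pos h2]
      have h9 : p.1 * |p.2 j| ≤ p.1 * 1 := mul_le_mul_of_nonneg_left h8 h2.le
      linarith
    have key : ∀ M : List (ℤ × (ℕ → ℤ)), (∀ p ∈ M, |p.1 * p.2 j| ≤ D1) →
        |psum M j| ≤ (M.length : ℤ) * D1 := by
      intro M hM
      unfold psum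
      induction M with
      | nil => simp
      | cons p M ih =>
        have ih := ih fun q hq => hM q (List.mem_cons_of_mem _ hq)
        have h1 := hM p List.mem_cons_self
        simp only [List.map_cons, List.sum_cons, List.length_cons]
        have h2 := abs_add_le (p.1 * p.2 j) ((M.map fun p => p.1 * p.2 j).sum)
        push_cast
        linarith
    have h1 := key _ hcoef
    have h2 : ((L.filter fun p => !P p).length : ℤ) * D1 ≤ (nrows n Wr w : ℤ) * D1 :=
      mul_le_mul_of_nonneg_right (by exact_mod_cast hlen) hD1'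
    exact h1.trans h2
  have h1 := hD0 j hj
  have h2 := abs_add_le (x0 j) (1 * e j)
  rw [one_mul] at h2
  simp only [hv, one_mul]
  linarith

end Pool.Agent.H699.TA
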