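import Pool.Agent.H699.TA.LP

/-!
# Conformal decompositions
-/

namespace Pool.Agent.H699.TA

open Finset Pool.Agent.H699.TU Pool.Agent.Y644.QS

/-- `a` lies between `0` and `b` -/
def Btw (a b : ℤ) : Prop := (0 ≤ a ∧ a ≤ b) ∨ (b ≤ a ∧ a ≤ 0)

/-- The rows `R` have trivial kernel. -/
def Inj (n : ℕ) (R : List (List ℤ)) : Prop :=
  ∀ d : ℕ → ℝ, (∀ r ∈ R, dt n (rl r) d = 0) → ∀ j < n, d j = 0

/-- The functions of a list of rows. -/
def fr (R : List (List ℤ)) : Set (ℕ → ℤ) := {f | ∃ r ∈ R, f = rl r}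

theorem rl_negV (r : List ℤ) (j : ℕ) : rl (negV r) j = - rl r j := by
  unfold rl negV
  simp only [List.getD_eq_getElem?_getD, List.getElem?_map]
  cases r[j]? <;> simp

theorem dt_neg {R : Type} [CommRing R] (n : ℕ) (r : List ℤ) (x : ℕ → R) :
    dt n (rl (negV r)) x = - dt n (rl r) x := by
  unfold dt
  rw [← Finset.sum_neg_distrib]
  refine Finset.sum_congr rfl fun j _ => ?_
  rw [rl_negV]
  push_cast
  ring

theorem dt_sub {n : ℕ} (r x y : ℕ → ℤ) (s : ℤ) :
    dt n r (fun j => x j - s * y j) = dt n r x - s * dt n r y := by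
  unfold dt
  rw [Finset.mul_sum, ← Finset.sum_sub_distrib]
  exact Finset.sum_congr rfl fun j _ => by ring

theorem dt_add {n : ℕ} (r x y : ℕ → ℤ) (s : ℤ) :
    dt n r (fun j => x j + s * y j) = dt n r x + s * dt n r y := by
  unfold dt
  rw [Finset.mul_sum, ← Finset.sum_add_distrib]
  exact Finset.sum_congr rfl fun j _ => by ring

/-- the sign -/
def sgn (a : ℤ) : ℤ := if 0 < a then 1 else if a < 0 then -1 else 0

/-- the system of the unit circuits conformal to `z` -/
def cirS (n : ℕ) (R : List (List ℤ)) (z : ℕ → ℤ) : List (List ℤ × ℤ) :=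
  R.flatMap fun r => [(r, if 0 < dt n (rl r) z then 1 else 0),
    (negV r, if dt n (rl r) z < 0 then 1 else 0)]

/-- the objective -/
def cirC (n : ℕ) (R : List (List ℤ)) (z : ℕ → ℤ) : List ℤ :=
  (List.range n).map fun j => (R.map fun r => sgn (dt n (rl r) z) * rl r j).sum

theorem dt_cirC (n : ℕ) (R : List (List ℤ)) (z : ℕ → ℤ) {K : Type} [CommRing K] (x : ℕ → K) :
    dt n (rl (cirC n R z)) x = (R.map fun r => ((sgn (dt n (rl r) z) : ℤ) : K) *
      dt n (rl r) x).sum := by
  have h1 : ∀ j < n, rl (cirC n R z) j = (R.map fun r => sgn (dt n (rl r) z) * rl r j).sum := by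
    intro j hj
    unfold cirC
    rw [rl, List.getD_eq_getElem _ _ (by simpa using hj)]
    simp
  rw [dt_congr' n x h1]
  unfold dt
  induction R with
  | nil => simp
  | cons r R ih =>
    simp only [List.map_cons, List.sum_cons]
    have h2 : ∀ j < n, rl (cirC n R z) j = (R.map fun r => sgn (dt n (rl r) z) * rl r j).sum := by
      intro j hj
      unfold cirC
      rw [rl, List.getD_eq_getElem _ _ (by simpa using hj)]
      simp
    have ih := ih h2
    rw [← ih, Finset.mul_sum, ← Finset.sum_add_distrib]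
    refine Finset.sum_congr rfl fun j _ => ?_
    push_cast
    ring

/-- Existence of a unit circuit conformal to `z`. -/
theorem exists_circuit {n : ℕ} {R : List (List ℤ)} (hl : ∀ r ∈ R, r.length = n)
    (htu : TUF n (fr R)) (hinj : Inj n R) {z : ℕ → ℤ} (hz : ∃ r ∈ R, dt n (rl r) z ≠ 0) :
    ∃ g : ℕ → ℤ, (∀ r ∈ R, Btw (dt n (rl r) g) (sgn (dt n (rl r) z))) ∧
      ∃ r ∈ R, dt n (rl r) g ≠ 0 := by
  set S := cirS n R z with hS
  have hmem : ∀ p, p ∈ S ↔ ∃ r ∈ R, p = (r, if 0 < dt n (rl r) z then 1 else 0) ∨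
      p = (negV r, if dt n (rl r) z < 0 then 1 else 0) := by
    intro p
    simp [hS, cirS, List.mem_flatMap]
  have hG : Good n S := by
    refine ⟨fun p hp => ?_, ?_, fun d hd => hinj d fun r hr => ?_⟩
    · obtain ⟨r, hr, rfl | rfl⟩ := (hmem p).1 hp
      · exact hl r hr
      · exact length_negV (hl r hr)
    · refine htu.signed.mono ?_
      rintro f ⟨p, hp, rfl⟩
      obtain ⟨r, hr, rfl | rfl⟩ := (hmem p).1 hp
      · exact ⟨rl r, ⟨r, hr, rfl⟩, 1, Or.inr (Or.inl rfl), fun j _ => by simp⟩
      · exact ⟨rl r, ⟨r, hr, rfl⟩, -1, Or.inr (Or.inr rfl), fun j _ => by rw [rl_negV]; ring⟩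
    · have h1 := hd _ ((hmem _).2 ⟨r, hr, Or.inl rfl⟩)
      have h2 := hd _ ((hmem _).2 ⟨r, hr, Or.inr rfl⟩)
      simp only at h1 h2
      rw [dt_neg] at h2
      linarith
  obtain ⟨r₀, hr₀, hr₀z⟩ := hz
  obtain ⟨r₁, hr₁, hmax⟩ : ∃ r₁ ∈ R, ∀ r ∈ R, |dt n (rl r) z| ≤ |dt n (rl r₁) z| := by
    have hne : R.toFinset.Nonempty := ⟨r₀, by simpa using hr₀⟩
    obtain ⟨r₁, h1, h2⟩ := Finset.exists_max_image R.toFinset (fun r => |dt n (rl r) z|) hne
    exact ⟨r₁, by simpa using h1, fun r hr => h2 r (by simpa using hr)⟩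
  set M : ℤ := |dt n (rl r₁) z| with hM
  have hMpos : 0 < M := lt_of_lt_of_le (abs_pos.2 hr₀z) (hmax r₀ hr₀)
  have hMr : (0 : ℝ) < (M : ℝ) := by exact_mod_cast hMpos
  set x : ℕ → ℝ := fun j => (M : ℝ)⁻¹ * (z j : ℝ) with hx
  have hdx : ∀ r : List ℤ, dt n (rl r) x = (M : ℝ)⁻¹ * ((dt n (rl r) z : ℤ) : ℝ) := by
    intro r
    rw [hx, dt_smul, dt_int_cast]
  have hfeas : ∀ p ∈ S, dt n (rl p.1) x ≤ p.2 := by
    intro p hp
    obtain ⟨r, hr, rfl | rfl⟩ := (hmem p).1 hp
    · simp only
      rw [hdx, inv_mul_le_iff₀ hMr]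
      have h1 := hmax r hr
      have h2 := le_abs_self (dt n (rl r) z)
      split_ifs with h3
      · have : dt n (rl r) z ≤ M := h2.trans h1
        rw [Int.cast_one, mul_one]
        exact_mod_cast this
      · rw [Int.cast_zero, mul_zero]
        exact_mod_cast not_lt.1 h3
    · simp only
      rw [dt_neg, hdx, neg_le]
      have h1 := hmax r hr
      have h2 := neg_abs_le (dt n (rl r) z)
      split_ifs with h3
      · have h4 : -M ≤ dt n (rl r) z := by linarith
        rw [Int.cast_one, le_inv_mul_iff₀ hMr]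
        have : ((-M : ℤ) : ℝ) ≤ ((dt n (rl r) z : ℤ) : ℝ) := by exact_mod_cast h4
        push_cast at this
        linarith
      · rw [Int.cast_zero, neg_zero]
        have : (0 : ℝ) ≤ ((dt n (rl r) z : ℤ) : ℝ) := by exact_mod_cast not_lt.1 h3
        positivity
  obtain ⟨s1, s2⟩ := solV_spec hG (c := cirC n R z) (by simp [cirC]) ⟨x, hfeas⟩
  set g : ℕ → ℤ := rl (solV n S (cirC n R z)) with hg
  have hg1 : ∀ r ∈ R, Btw (dt n (rl r) g) (sgn (dt n (rl r) z)) := by
    intro r hr
    have h1 := s1 _ ((hmem _).2 ⟨r, hr, Or.inl rfl⟩)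
    have h2 := s1 _ ((hmem _).2 ⟨r, hr, Or.inr rfl⟩)
    simp only at h1 h2
    rw [dt_neg] at h2
    unfold Btw sgn
    rcases lt_trichotomy (dt n (rl r) z) 0 with h | h | h
    · rw [if_neg (by omega)] at h1
      rw [if_pos h] at h2
      rw [if_neg (by omega), if_pos h]
      right; omega
    · rw [if_neg (by omega)] at h1
      rw [if_neg (by omega)] at h2
      rw [if_neg (by omega), if_neg (by omega)]
      left; omega
    · rw [if_pos h] at h1
      rw [if_neg (by omega)] at h2
      rw [if_pos h]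
      left; omega
  refine ⟨g, hg1, ?_⟩
  by_contra hno
  push Not at hno
  have h3 := s2 x hfeas
  rw [dt_cirC, dt_cirC] at h3
  simp only [Int.cast_id] at h3
  have h4 : (R.map fun r => ((sgn (dt n (rl r) z) : ℤ) : ℤ) * dt n (rl r) g).sum = 0 := by
    refine List.sum_eq_zero fun a ha => ?_
    obtain ⟨r, hr, rfl⟩ := List.mem_map.1 ha
    rw [hno r hr, mul_zero]
  rw [h4, Int.cast_zero] at h3
  have hterm : ∀ r : List ℤ, 0 ≤ ((sgn (dt n (rl r) z) : ℤ) : ℝ) * dt n (rl r) x := by
    intro r
    rw [hdx]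
    unfold sgn
    split_ifs with h5 h6
    · have : (0 : ℝ) < ((dt n (rl r) z : ℤ) : ℝ) := by exact_mod_cast h5
      push_cast
      positivity
    · have : ((dt n (rl r) z : ℤ) : ℝ) < 0 := by exact_mod_cast h6
      push_cast
      have h7 : (M : ℝ)⁻¹ * ((dt n (rl r) z : ℤ) : ℝ) ≤ 0 :=
        mul_nonpos_of_nonneg_of_nonpos (by positivity) this.le
      linarith
    · simp
  have hpos : 0 < (R.map fun r => ((sgn (dt n (rl r) z) : ℤ) : ℝ) * dt n (rl r) x).sum := by
    have h6 : ((sgn (dt n (rl r₀) z) : ℤ) : ℝ) * dt n (rl r₀) x ≤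
        (R.map fun r => ((sgn (dt n (rl r) z) : ℤ) : ℝ) * dt n (rl r) x).sum :=
      List.single_le_sum (by
        intro a ha
        obtain ⟨r, _, rfl⟩ := List.mem_map.1 ha
        exact hterm r) _ (List.mem_map.2 ⟨r₀, hr₀, rfl⟩)
    refine lt_of_lt_of_le ?_ h6
    rw [hdx]
    unfold sgn
    split_ifs with h7 h8
    · have : (0 : ℝ) < ((dt n (rl r₀) z : ℤ) : ℝ) := by exact_mod_cast h7
      push_cast
      positivity
    · have : ((dt n (rl r₀) z : ℤ) : ℝ) < 0 := by exact_mod_cast h8
      push_cast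
      have h9 : (M : ℝ)⁻¹ * ((dt n (rl r₀) z : ℤ) : ℝ) < 0 :=
        mul_neg_of_pos_of_neg (by positivity) this
      linarith
    · exfalso; omega
  linarith

theorem filter_le {α : Type} (l : List α) (p q : α → Bool) (hsub : ∀ a ∈ l, p a = true → q a = true) :
    (l.filter p).length ≤ (l.filter q).length := by
  induction l with
  | nil => simp
  | cons a l ih =>
    have ih := ih fun b hb => hsub b (List.mem_cons_of_mem _ hb)
    have h := hsub a List.mem_cons_self
    simp only [List.filter_cons]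
    by_cases hp : p a = true
    · rw [if_pos hp, if_pos (h hp)]
      simpa using ih
    · rw [if_neg hp]
      split_ifs
      · rw [List.length_cons]; omega
      · exact ih

theorem filter_lt {α : Type} (l : List α) (p q : α → Bool) (hsub : ∀ a ∈ l, p a = true → q a = true)
    {a₀ : α} (h0 : a₀ ∈ l) (h1 : q a₀ = true) (h2 : p a₀ ≠ true) :
    (l.filter p).length < (l.filter q).length := by
  induction l with
  | nil => simp at h0
  | cons a l ih =>
    have hsub' := fun b hb => hsub b (List.mem_cons_of_mem a hb)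
    simp only [List.filter_cons]
    rcases List.mem_cons.1 h0 with rfl | h0
    · rw [if_neg h2, if_pos h1, List.length_cons]
      have := filter_le l p q hsub'
      omega
    · have ih := ih hsub' h0
      have h := hsub a List.mem_cons_self
      by_cases hp : p a = true
      · rw [if_pos hp, if_pos (h hp), List.length_cons, List.length_cons]; omega
      · rw [if_neg hp]
        split_ifs
        · rw [List.length_cons]; omega
        · exact ih

/-- A conformal decomposition of `z`. -/
structure Dec (n : ℕ) (R : List (List ℤ)) (z : ℕ → ℤ) (L : List (ℤ × (ℕ → ℤ))) : Prop where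
  len : L.length ≤ (R.filter fun r => decide (dt n (rl r) z ≠ 0)).length
  pos : ∀ p ∈ L, 0 < p.1
  unit : ∀ p ∈ L, ∀ r ∈ R, |dt n (rl r) p.2| ≤ 1
  btw : ∀ p ∈ L, ∀ r ∈ R, Btw (p.1 * dt n (rl r) p.2) (dt n (rl r) z)
  sum : ∀ j < n, z j = (L.map fun p => p.1 * p.2 j).sum

theorem exists_dec {n : ℕ} {R : List (List ℤ)} (hl : ∀ r ∈ R, r.length = n)
    (htu : TUF n (fr R)) (hinj : Inj n R) (z : ℕ → ℤ) : ∃ L, Dec n R z L := by
  obtain ⟨N, hN⟩ : ∃ N, N = (R.filter fun r => decide (dt n (rl r) z ≠ 0)).length := ⟨_, rfl⟩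
  induction N using Nat.strong_induction_on generalizing z with
  | _ N ih =>
    by_cases hz : ∃ r ∈ R, dt n (rl r) z ≠ 0
    · obtain ⟨g, hg1, r₀, hr₀, hr₀g⟩ := exists_circuit hl htu hinj hz
      -- the largest step
      obtain ⟨r₁, hr₁, hr₁g, hmin⟩ : ∃ r₁ ∈ R, dt n (rl r₁) g ≠ 0 ∧
          ∀ r ∈ R, dt n (rl r) g ≠ 0 → |dt n (rl r₁) z| ≤ |dt n (rl r) z| := by
        have hne : (R.toFinset.filter fun r => dt n (rl r) g ≠ 0).Nonempty :=
          ⟨r₀, by simp [hr₀, hr₀g]⟩
        obtain ⟨r₁, h1, h2⟩ := Finset.exists_min_image _ (fun r => |dt n (rl r) z|) hne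
        simp only [Finset.mem_filter, List.mem_toFinset] at h1 h2
        exact ⟨r₁, h1.1, h1.2, fun r hr hrg => h2 r ⟨hr, hrg⟩⟩
      set c : ℤ := |dt n (rl r₁) z| with hc
      have hunit : ∀ r ∈ R, dt n (rl r) g = 0 ∨ (dt n (rl r) g = 1 ∧ 0 < dt n (rl r) z) ∨
          (dt n (rl r) g = -1 ∧ dt n (rl r) z < 0) := by
        intro r hr
        have h1 := hg1 r hr
        unfold Btw sgn at h1
        split_ifs at h1 with h2 h3
        · rcases h1 with h1 | h1 <;> omega
        · rcases h1 with h1 | h1 <;> omega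
        · rcases h1 with h1 | h1 <;> omega
      have hcpos : 0 < c := by
        rw [hc]
        rcases hunit r₁ hr₁ with h | h | h
        · exact absurd h hr₁g
        · exact abs_pos.2 (by omega)
        · exact abs_pos.2 (by omega)
      set z' : ℕ → ℤ := fun j => z j - c * g j with hz'
      have hdz' : ∀ r : List ℤ, dt n (rl r) z' = dt n (rl r) z - c * dt n (rl r) g := fun r => by
        rw [hz', dt_sub]
      have hkey : ∀ r ∈ R, Btw (c * dt n (rl r) g) (dt n (rl r) z) ∧
          Btw (dt n (rl r) z') (dt n (rl r) z) := by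
        intro r hr
        rw [hdz']
        rcases hunit r hr with h | ⟨h, h'⟩ | ⟨h, h'⟩
        · rw [h]
          unfold Btw
          constructor <;> omega
        · have h2 := hmin r hr (by omega)
          rw [abs_of_pos h'] at h2
          rw [h]
          unfold Btw
          constructor <;> omega
        · have h2 := hmin r hr (by omega)
          rw [abs_of_neg h'] at h2
          rw [h]
          unfold Btw
          constructor <;> omega
      have hzero : dt n (rl r₁) z' = 0 := by
        rw [hdz', hc]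
        rcases hunit r₁ hr₁ with h | ⟨h, h'⟩ | ⟨h, h'⟩
        · exact absurd h hr₁g
        · rw [h, abs_of_pos h']; ring
        · rw [h, abs_of_neg h']; ring
      have hne1 : dt n (rl r₁) z ≠ 0 := by
        rcases hunit r₁ hr₁ with h | ⟨h, h'⟩ | ⟨h, h'⟩
        · exact absurd h hr₁g
        · omega
        · omega
      have hlt : (R.filter fun r => decide (dt n (rl r) z' ≠ 0)).length < N := by
        rw [hN]
        have hsub : ∀ r ∈ R, dt n (rl r) z' ≠ 0 → dt n (rl r) z ≠ 0 := by
          intro r hr h1 h2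
          have h3 := (hkey r hr).2
          rw [h2] at h3
          unfold Btw at h3
          omega
        exact filter_lt R _ _ (fun r hr h => by
          simp only [ne_eq, decide_eq_true_eq] at h ⊢
          exact hsub r hr h) hr₁ (by simpa using hne1) (by simp [hzero])
      obtain ⟨L, hL⟩ := ih _ hlt z' rfl
      refine ⟨(c, g) :: L, ?_, ?_, ?_, ?_, ?_⟩
      · rw [List.length_cons, ← hN]
        have := hL.len
        omega
      · intro p hp
        rcases List.mem_cons.1 hp with rfl | hp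
        · exact hcpos
        · exact hL.pos p hp
      · intro p hp r hr
        rcases List.mem_cons.1 hp with rfl | hp
        · simp only
          rcases hunit r hr with h | ⟨h, h'⟩ | ⟨h, h'⟩ <;> rw [h] <;> norm_num
        · exact hL.unit p hp r hr
      · intro p hp r hr
        rcases List.mem_cons.1 hp with rfl | hp
        · exact (hkey r hr).1
        · have h1 := hL.btw p hp r hr
          have h2 := (hkey r hr).2
          unfold Btw at h1 h2 ⊢
          omega
      · intro j hj
        have h1 := hL.sum j hj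
        simp only [List.map_cons, List.sum_cons]
        rw [← h1, hz']
        ring
    · push Not at hz
      refine ⟨[], by simp, by simp, by simp, by simp, fun j hj => ?_⟩
      have h1 := hinj (fun j => (z j : ℝ)) (fun r hr => by
        rw [← dt_int_cast, hz r hr, Int.cast_zero]) j hj
      have h2 : z j = 0 := by exact_mod_cast h1
      rw [h2]; simp

end Pool.Agent.H699.TA
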