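import Pool.Agent.H699.TA.Leaf

/-!
# Fixing a concave variable on a grid
-/

namespace Pool.Agent.H699.TA

open Finset Pool.Agent.H699.TU Pool.Agent.Y644.QS

/-- the system with a box -/
def sysB (n : ℕ) (Wr : List (List ℤ)) (w l u : List ℤ) : List (List ℤ × ℤ) :=
  List.zip Wr w ++ (List.range n).flatMap fun j =>
    [(unitV n j, u.getD j 0), (negV (unitV n j), -(l.getD j 0))]

theorem mem_sysB {n : ℕ} {Wr : List (List ℤ)} {w l u : List ℤ} {q : List ℤ × ℤ} :
    q ∈ sysB n Wr w l u ↔ q ∈ List.zip Wr w ∨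
      ∃ j < n, q = (unitV n j, rl u j) ∨ q = (negV (unitV n j), -(rl l j)) := by
  unfold sysB
  simp only [List.mem_append, List.mem_flatMap, List.mem_range, List.mem_cons, List.not_mem_nil,
    or_false]
  rfl

theorem PF_sysB {n : ℕ} {Wr : List (List ℤ)} {w l u : List ℤ} {x : ℕ → ℤ} :
    PF n (sysB n Wr w l u) x ↔ PF n (List.zip Wr w) x ∧ ∀ j < n, rl l j ≤ x j ∧ x j ≤ rl u j := by
  unfold PF
  constructor
  · intro h
    refine ⟨fun p hp => h p (mem_sysB.2 (Or.inl hp)), fun j hj => ?_⟩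
    have h1 := h _ (mem_sysB.2 (Or.inr ⟨j, hj, Or.inl rfl⟩))
    have h2 := h _ (mem_sysB.2 (Or.inr ⟨j, hj, Or.inr rfl⟩))
    simp only at h1 h2
    rw [dt_unitV hj] at h1
    rw [dt_neg, dt_unitV hj] at h2
    constructor <;> linarith
  · rintro ⟨h1, h2⟩ q hq
    rcases mem_sysB.1 hq with hq | ⟨j, hj, rfl | rfl⟩
    · exact h1 q hq
    · simp only
      rw [dt_unitV hj]
      exact (h2 j hj).2
    · simp only
      rw [dt_neg, dt_unitV hj]
      have := (h2 j hj).1
      linarith

theorem lenS_zip {n : ℕ} {Wr : List (List ℤ)} (hl : ∀ r ∈ Wr, r.length = n) (w : List ℤ) :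
    LenS n (List.zip Wr w) := fun p hp => hl _ (List.of_mem_zip hp).1

theorem lenS_sysB {n : ℕ} {Wr : List (List ℤ)} (hl : ∀ r ∈ Wr, r.length = n) (w l u : List ℤ) :
    LenS n (sysB n Wr w l u) := by
  intro q hq
  rcases mem_sysB.1 hq with hq | ⟨j, hj, rfl | rfl⟩
  · exact lenS_zip hl w q hq
  · exact length_unitV _ _
  · exact length_negV (length_unitV _ _)

theorem tuf_sysB {n : ℕ} {Wr : List (List ℤ)} (htu : TUF n (fr Wr)) (w l u : List ℤ) :
    TUF n (fr (rowsL (sysB n Wr w l u))) := by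
  refine (htu.unit).signed.mono ?_
  rintro f ⟨r, hr, rfl⟩
  obtain ⟨q, hq, rfl⟩ := List.mem_map.1 hr
  rcases mem_sysB.1 hq with hq | ⟨j, hj, rfl | rfl⟩
  · exact ⟨rl q.1, Or.inl ⟨q.1, (List.of_mem_zip hq).1, rfl⟩, 1, Or.inr (Or.inl rfl),
      fun i _ => by simp⟩
  · exact ⟨rl (unitV n j), Or.inr ⟨j, fun i hi => getD_unitV hi j⟩, 1, Or.inr (Or.inl rfl),
      fun i _ => by simp⟩
  · exact ⟨rl (unitV n j), Or.inr ⟨j, fun i hi => getD_unitV hi j⟩, -1, Or.inr (Or.inr rfl),
      fun i _ => by rw [rl_negV]; ring⟩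

theorem hasU_sysB (n : ℕ) (Wr : List (List ℤ)) (w l u : List ℤ) :
    HasU n (rowsL (sysB n Wr w l u)) := fun j hj =>
  List.mem_map.2 ⟨_, mem_sysB.2 (Or.inr ⟨j, hj, Or.inl rfl⟩), rfl⟩

theorem rowsOfS_eq (S : List (List ℤ × ℤ)) : rowsOfS S = fr (rowsL S) := by
  ext f
  constructor
  · rintro ⟨p, hp, rfl⟩
    exact ⟨p.1, List.mem_map.2 ⟨p, hp, rfl⟩, rfl⟩
  · rintro ⟨r, hr, rfl⟩
    obtain ⟨p, hp, rfl⟩ := List.mem_map.1 hr
    exact ⟨p, hp, rfl⟩

theorem good_sysB {n : ℕ} {Wr : List (List ℤ)} (hl : ∀ r ∈ Wr, r.length = n)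
    (htu : TUF n (fr Wr)) (w l u : List ℤ) : Good n (sysB n Wr w l u) := by
  refine ⟨lenS_sysB hl w l u, by rw [rowsOfS_eq]; exact tuf_sysB htu w l u, fun d hd j hj => ?_⟩
  have h1 := hd _ (mem_sysB.2 (Or.inr ⟨j, hj, Or.inl rfl⟩))
  have h2 := hd _ (mem_sysB.2 (Or.inr ⟨j, hj, Or.inr rfl⟩))
  simp only at h1 h2
  rw [dt_unitV hj] at h1
  rw [dt_neg, dt_unitV hj] at h2
  linarith

theorem length_sysB (n : ℕ) (Wr : List (List ℤ)) (w l u : List ℤ) :
    (sysB n Wr w l u).length = (List.zip Wr w).length + 2 * n := by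
  unfold sysB
  rw [List.length_append, List.length_flatMap]
  simp
  ring

/-- integer feasibility gives real feasibility -/
theorem real_of_int {n : ℕ} {S : List (List ℤ × ℤ)} {x : ℕ → ℤ} (hx : PF n S x) :
    ∃ x : ℕ → ℝ, ∀ p ∈ S, dt n (rl p.1) x ≤ p.2 :=
  ⟨fun j => (x j : ℝ), fun p hp => by rw [← dt_int_cast]; exact_mod_cast hx p hp⟩

/-- solutions with extreme coordinates -/
theorem sol_extreme {n : ℕ} {S : List (List ℤ × ℤ)} (hG : Good n S) {x : ℕ → ℤ} (hx : PF n S x)
    {j : ℕ} (hj : j < n) : PF n S (rl (solV n S (unitV n j))) ∧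
      PF n S (rl (solV n S (negV (unitV n j)))) ∧
      ∀ y, PF n S y → rl (solV n S (negV (unitV n j))) j ≤ y j ∧
        y j ≤ rl (solV n S (unitV n j)) j := by
  obtain ⟨s1, s2⟩ := solV_spec hG (c := unitV n j) (length_unitV _ _) (real_of_int hx)
  obtain ⟨t1, t2⟩ := solV_spec hG (c := negV (unitV n j)) (length_negV (length_unitV _ _))
    (real_of_int hx)
  refine ⟨s1, t1, fun y hy => ?_⟩
  have hyr : ∀ p ∈ S, dt n (rl p.1) (fun j => (y j : ℝ)) ≤ p.2 := fun p hp => by
    rw [← dt_int_cast]; exact_mod_cast hy p hp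
  have h1 := s2 _ hyr
  have h2 := t2 _ hyr
  rw [← dt_int_cast] at h1 h2
  have h3 : dt n (rl (unitV n j)) y ≤ dt n (rl (unitV n j)) (rl (solV n S (unitV n j))) := by
    exact_mod_cast h1
  have h4 : dt n (rl (negV (unitV n j))) y ≤
      dt n (rl (negV (unitV n j))) (rl (solV n S (negV (unitV n j)))) := by
    exact_mod_cast h2
  rw [dt_unitV hj, dt_unitV hj] at h3
  rw [dt_neg, dt_neg, dt_unitV hj, dt_unitV hj] at h4
  constructor <;> linarith

/-- a quadratic function with small range changes slowly -/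
theorem quad_range {b a R t : ℤ} (ht : 1 ≤ t) (h : ∀ s, 0 ≤ s → s ≤ t → |s * b + s ^ 2 * a| ≤ R)
    {m : ℤ} (hm0 : 0 ≤ m) (hm : m ≤ t) : t * |m * b + m ^ 2 * a| ≤ 21 * R * m := by
  have hR : 0 ≤ R := (abs_nonneg _).trans (h 0 le_rfl (by linarith))
  rcases eq_or_lt_of_le ht with h1 | h1
  · have : m = 0 ∨ m = 1 := by omega
    rcases this with rfl | rfl
    · simp
    · have h2 := h 1 (by norm_num) (by omega)
      rw [← h1]
      linarith
  · obtain ⟨k, hk1, hk2, hk3⟩ : ∃ k : ℤ, 1 ≤ k ∧ 2 * k ≤ t ∧ t ≤ 3 * k := ⟨t / 2, by omega, by omega,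
      by omega⟩
    have e1 := h k (by omega) (by omega)
    have e2 := h (2 * k) (by omega) hk2
    have hA : 2 * k ^ 2 * |a| ≤ 3 * R := by
      have : 2 * k ^ 2 * |a| = |2 * k ^ 2 * a| := by
        rw [abs_mul, abs_of_nonneg (by positivity : (0 : ℤ) ≤ 2 * k ^ 2)]
      rw [this]
      have e3 : 2 * k ^ 2 * a = (2 * k * b + (2 * k) ^ 2 * a) - 2 * (k * b + k ^ 2 * a) := by ring
      rw [e3]
      calc |(2 * k * b + (2 * k) ^ 2 * a) - 2 * (k * b + k ^ 2 * a)|
          ≤ |2 * k * b + (2 * k) ^ 2 * a| + |2 * (k * b + k ^ 2 * a)| := abs_sub _ _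
        _ ≤ R + 2 * R := by
            rw [abs_mul, abs_two]
            linarith
        _ = 3 * R := by ring
    have hB : 2 * k * |b| ≤ 5 * R := by
      have : 2 * k * |b| = |2 * k * b| := by
        rw [abs_mul, abs_of_nonneg (by positivity : (0 : ℤ) ≤ 2 * k)]
      rw [this]
      have e3 : 2 * k * b = 2 * (k * b + k ^ 2 * a) - 2 * k ^ 2 * a := by ring
      rw [e3]
      calc |2 * (k * b + k ^ 2 * a) - 2 * k ^ 2 * a|
          ≤ |2 * (k * b + k ^ 2 * a)| + |2 * k ^ 2 * a| := abs_sub _ _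
        _ ≤ 2 * R + 3 * R := by
            rw [abs_mul, abs_two, abs_mul, abs_of_nonneg (by positivity : (0 : ℤ) ≤ 2 * k ^ 2)]
            linarith
        _ = 5 * R := by ring
    have h2 : |m * b + m ^ 2 * a| ≤ m * (|b| + t * |a|) := by
      calc |m * b + m ^ 2 * a| ≤ |m * b| + |m ^ 2 * a| := abs_add_le _ _
        _ = m * |b| + m ^ 2 * |a| := by
            rw [abs_mul, abs_mul, abs_of_nonneg hm0, abs_of_nonneg (sq_nonneg m)]
        _ ≤ m * (|b| + t * |a|) := by
            have h3 : m * |a| ≤ t * |a| := mul_le_mul_of_nonneg_right hm (abs_nonneg a)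
            have h4 := mul_le_mul_of_nonneg_left h3 hm0
            nlinarith
    have h3 : t * (|b| + t * |a|) ≤ 21 * R := by
      have hb := abs_nonneg b
      have ha := abs_nonneg a
      have h4 : t * |b| ≤ 3 * k * |b| := mul_le_mul_of_nonneg_right hk3 hb
      have h5 : t * t ≤ (3 * k) * (3 * k) := mul_le_mul hk3 hk3 (by linarith) (by linarith)
      have h6 : t * t * |a| ≤ (3 * k) * (3 * k) * |a| := mul_le_mul_of_nonneg_right h5 ha
      nlinarith
    calc t * |m * b + m ^ 2 * a| ≤ t * (m * (|b| + t * |a|)) :=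
          mul_le_mul_of_nonneg_left h2 (by linarith)
      _ = m * (t * (|b| + t * |a|)) := by ring
      _ ≤ m * (21 * R) := mul_le_mul_of_nonneg_left h3 hm0
      _ = 21 * R * m := by ring

/-- a long circuit in a decomposition -/
theorem exists_long {n : ℕ} {S : List (List ℤ × ℤ)} (hU : HasU n (rowsL S)) {z : ℕ → ℤ}
    {L : List (ℤ × (ℕ → ℤ))} (hL : Dec n (rowsL S) z L) {j : ℕ} (hj : j < n) (hz : z j ≠ 0) :
    ∃ p ∈ L, p.2 j ≠ 0 ∧ |z j| ≤ (S.length : ℤ) * p.1 := by
  by_contra hno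
  push Not at hno
  have h1 := (dec_coord hU hL hj).1
  have hlen : (L.length : ℤ) ≤ (S.length : ℤ) := by
    have := hL.len.trans (List.length_filter_le _ _)
    simp only [rowsL, List.length_map] at this
    exact_mod_cast this
  have hSpos : 0 < (S.length : ℤ) := by
    by_contra h0
    have hL0 : L.length = 0 := by
      have := Int.natCast_nonneg L.length
      omega
    have := hL.sum j hj
    rw [List.length_eq_zero_iff.1 hL0] at this
    simp at this
    exact hz this
  -- each term is small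
  have key : ∀ M : List (ℤ × (ℕ → ℤ)), (∀ p ∈ M, p ∈ L) →
      (S.length : ℤ) * |(M.map fun p => p.1 * p.2 j).sum| ≤ (M.length : ℤ) * (|z j| - 1) := by
    intro M hM
    induction M with
    | nil => simp
    | cons p M ih =>
      have ih := ih fun q hq => hM q (List.mem_cons_of_mem _ hq)
      have hp := hM p List.mem_cons_self
      simp only [List.map_cons, List.sum_cons, List.length_cons]
      have h2 : (S.length : ℤ) * |p.1 * p.2 j| ≤ |z j| - 1 := by
        by_cases hpj : p.2 j = 0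
        · rw [hpj, mul_zero, abs_zero, mul_zero]
          have := Int.one_le_abs hz
          linarith
        · have h3 := hno p hp hpj
          have h4 := h1 p hp
          have h5 := hL.pos p hp
          rw [abs_mul, abs_of_pos h5]
          have h6 : p.1 * |p.2 j| ≤ p.1 * 1 := mul_le_mul_of_nonneg_left h4 h5.le
          have h7 := mul_le_mul_of_nonneg_left h6 hSpos.le
          rw [mul_one] at h7
          linarith
      have h3 := abs_add_le (p.1 * p.2 j) ((M.map fun p => p.1 * p.2 j).sum)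
      have h4 := mul_le_mul_of_nonneg_left h3 hSpos.le
      push_cast
      nlinarith
  have h2 := key L fun p hp => hp
  rw [← hL.sum j hj] at h2
  have h3 := Int.one_le_abs hz
  have h4 : (L.length : ℤ) * (|z j| - 1) ≤ (S.length : ℤ) * (|z j| - 1) :=
    mul_le_mul_of_nonneg_right hlen (by linarith)
  nlinarith

/-- set an entry -/
def setL (n : ℕ) (l : List ℤ) (j : ℕ) (v : ℤ) : List ℤ :=
  (List.range n).map fun i => if i = j then v else l.getD i 0

theorem rl_setL {n : ℕ} (l : List ℤ) (j : ℕ) (v : ℤ) {i : ℕ} (hi : i < n) :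
    rl (setL n l j v) i = if i = j then v else rl l i := by
  unfold setL
  rw [rl_map_range _ hi]
  rfl

/-- lowest value of the coordinate -/
def loV (n : ℕ) (Wr : List (List ℤ)) (w l u : List ℤ) (j : ℕ) : ℤ :=
  (solV n (sysB n Wr w l u) (negV (unitV n j))).getD j 0

/-- highest value of the coordinate -/
def hiV (n : ℕ) (Wr : List (List ℤ)) (w l u : List ℤ) (j : ℕ) : ℤ :=
  (solV n (sysB n Wr w l u) (unitV n j)).getD j 0

/-- the grid -/
def gridB (n : ℕ) (Wr : List (List ℤ)) (w : List ℤ) (D j : ℕ) (b : List ℤ × List ℤ) :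
    List (List ℤ × List ℤ) :=
  (List.range (2 * D + 1)).map fun (i : ℕ) =>
    (setL n b.1 j (min (loV n Wr w b.1 b.2 j + (i : ℤ) *
      max 1 ((hiV n Wr w b.1 b.2 j - loV n Wr w b.1 b.2 j) / (D : ℤ))) (hiV n Wr w b.1 b.2 j)),
    setL n b.2 j (min (loV n Wr w b.1 b.2 j + (i : ℤ) *
      max 1 ((hiV n Wr w b.1 b.2 j - loV n Wr w b.1 b.2 j) / (D : ℤ))) (hiV n Wr w b.1 b.2 j)))

/-- One grid value is good. -/
theorem grid_spec {n : ℕ} {Wr : List (List ℤ)} (hl : ∀ r ∈ Wr, r.length = n)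
    (htu : TUF n (fr Wr)) (w : List ℤ) {D : ℕ} {b : List ℤ × List ℤ}
    (hD : 2 * (sysB n Wr w b.1 b.2).length ≤ D) {j : ℕ} (hj : j < n) (q h : ℕ → ℤ) {m0 M0 : ℤ}
    (hf : ∀ y, PF n (sysB n Wr w b.1 b.2) y → m0 ≤ FF n q h y ∧ FF n q h y ≤ M0)
    {x : ℕ → ℤ} (hx : PF n (sysB n Wr w b.1 b.2) x) :
    ∃ b' ∈ gridB n Wr w D j b, rl b'.1 j = rl b'.2 j ∧
      (∀ i < n, i ≠ j → rl b'.1 i = rl b.1 i ∧ rl b'.2 i = rl b.2 i) ∧
      (∀ y, PF n (sysB n Wr w b'.1 b'.2) y → PF n (sysB n Wr w b.1 b.2) y) ∧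
      ∃ x', PF n (sysB n Wr w b'.1 b'.2) x' ∧
        (D : ℤ) * (FF n q h x' - FF n q h x) ≤
          42 * ((sysB n Wr w b.1 b.2).length : ℤ) * (M0 - m0) := by
  set S := sysB n Wr w b.1 b.2 with hS
  have hG := good_sysB hl htu w b.1 b.2
  rw [← hS] at hG
  have hU : HasU n (rowsL S) := hasU_sysB n Wr w b.1 b.2
  have htS : TUF n (fr (rowsL S)) := tuf_sysB htu w b.1 b.2
  obtain ⟨e1, e2, e3⟩ := sol_extreme hG hx hj
  set lo := loV n Wr w b.1 b.2 j with hlo
  set hi := hiV n Wr w b.1 b.2 j with hhi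
  have elo : rl (solV n S (negV (unitV n j))) j = lo := rfl
  have ehi : rl (solV n S (unitV n j)) j = hi := rfl
  rw [elo, ehi] at e3
  have hxj := e3 x hx
  have hSl : 2 * n ≤ S.length := by rw [hS, length_sysB]; omega
  have hSpos : 0 < S.length := by omega
  have hDpos : 0 < D := by omega
  set s : ℤ := max 1 ((hi - lo) / (D : ℤ)) with hs
  have hR : 0 ≤ M0 - m0 := by have := hf x hx; linarith
  -- it suffices to find the value
  have main : ∀ (i : ℕ) (x' : ℕ → ℤ), i < 2 * D + 1 → PF n S x' →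
      x' j = min (lo + (i : ℤ) * s) hi →
      (D : ℤ) * (FF n q h x' - FF n q h x) ≤ 42 * (S.length : ℤ) * (M0 - m0) →
      ∃ b' ∈ gridB n Wr w D j b, rl b'.1 j = rl b'.2 j ∧
      (∀ i < n, i ≠ j → rl b'.1 i = rl b.1 i ∧ rl b'.2 i = rl b.2 i) ∧
      (∀ y, PF n (sysB n Wr w b'.1 b'.2) y → PF n S y) ∧
      ∃ x', PF n (sysB n Wr w b'.1 b'.2) x' ∧
        (D : ℤ) * (FF n q h x' - FF n q h x) ≤ 42 * (S.length : ℤ) * (M0 - m0) := by
    intro i x' hi' hx' hv herr
    set v := min (lo + (i : ℤ) * s) hi with hvdef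
    refine ⟨(setL n b.1 j v, setL n b.2 j v), ?_, ?_, ?_, ?_, x', ?_, herr⟩
    · unfold gridB
      rw [List.mem_map]
      exact ⟨i, List.mem_range.2 hi', rfl⟩
    · simp only
      rw [rl_setL _ _ _ hj, rl_setL _ _ _ hj]
      simp
    · intro i' hi'' hne
      simp only
      rw [rl_setL _ _ _ hi'', rl_setL _ _ _ hi'', if_neg hne, if_neg hne]
      exact ⟨rfl, rfl⟩
    · intro y hy
      simp only at hy
      rw [PF_sysB] at hy
      rw [hS, PF_sysB]
      refine ⟨hy.1, fun i' hi'' => ?_⟩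
      have h1 := hy.2 i' hi''
      rw [rl_setL _ _ _ hi'', rl_setL _ _ _ hi''] at h1
      by_cases hne : i' = j
      · subst hne
        rw [if_pos rfl, if_pos rfl, ← hv] at h1
        have h2 := (PF_sysB.1 hx').2 i' hi''
        omega
      · rw [if_neg hne, if_neg hne] at h1
        exact h1
    · simp only
      rw [PF_sysB]
      have h2 := PF_sysB.1 hx'
      refine ⟨h2.1, fun i' hi'' => ?_⟩
      rw [rl_setL _ _ _ hi'', rl_setL _ _ _ hi'']
      by_cases hne : i' = j
      · subst hne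
        rw [if_pos rfl, if_pos rfl, hv]
        exact ⟨le_rfl, le_rfl⟩
      · rw [if_neg hne, if_neg hne]
        exact h2.2 i' hi''
  have hDz : (0 : ℤ) < (D : ℤ) := by exact_mod_cast hDpos
  have hSz : (0 : ℤ) < (S.length : ℤ) := by exact_mod_cast hSpos
  have hdiv : (D : ℤ) * ((hi - lo) / (D : ℤ)) ≤ hi - lo := Int.mul_ediv_self_le hDz.ne'
  have hdiv2 : hi - lo < (D : ℤ) * ((hi - lo) / (D : ℤ)) + D := by
    have h1 := Int.emod_add_mul_ediv (hi - lo) (D : ℤ)
    have h2 := Int.emod_lt_of_pos (hi - lo) hDz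
    linarith
  by_cases hs1 : (hi - lo) / (D : ℤ) ≤ 1
  · -- the grid contains all values
    have hs' : s = 1 := by rw [hs]; omega
    have hL : hi - lo < 2 * (D : ℤ) := by nlinarith
    obtain ⟨i, hi'⟩ := Int.eq_ofNat_of_zero_le (show 0 ≤ x j - lo by omega)
    refine main i x (by omega) hx ?_ ?_
    · rw [hs']
      have : ((i : ℕ) : ℤ) = x j - lo := hi'.symm
      rw [this]
      omega
    · rw [sub_self, mul_zero]
      positivity
  · push Not at hs1
    have hs' : s = (hi - lo) / (D : ℤ) := by rw [hs]; omega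
    rw [← hs'] at hs1 hdiv hdiv2
    -- a far away point
    obtain ⟨y, hy, hyj⟩ : ∃ y, PF n S y ∧ hi - lo ≤ 2 * |y j - x j| := by
      by_cases hc : hi - lo ≤ 2 * (hi - x j)
      · refine ⟨_, e1, ?_⟩
        rw [ehi]
        have := le_abs_self (hi - x j)
        linarith
      · refine ⟨_, e2, ?_⟩
        rw [elo]
        have := neg_abs_le (lo - x j)
        linarith
    set z : ℕ → ℤ := fun j => y j - x j with hz
    have hyz : ∀ i < n, x i + z i = y i := fun i _ => by simp [hz]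
    have hLpos : 0 < hi - lo := by nlinarith
    have hzj : z j ≠ 0 := by
      intro h0
      have : y j - x j = 0 := h0
      rw [this, abs_zero] at hyj
      omega
    obtain ⟨L, hL⟩ := exists_dec (R := rowsL S) (fun r hr => by
      obtain ⟨p, hp, rfl⟩ := List.mem_map.1 hr; exact hG.len p hp) htS hU.inj z
    obtain ⟨p, hp, hpj, hplong⟩ := exists_long hU hL hj hzj
    have hplong' : hi - lo ≤ 2 * ((S.length : ℤ) * p.1) := by
      have : |z j| = |y j - x j| := rfl
      rw [this] at hplong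
      linarith
    have hp1 := hL.pos p hp
    have halong : ∀ t, 0 ≤ t → t ≤ p.1 → PF n S (fun i => x i + t * p.2 i) := fun t ht0 ht =>
      PF_along hL hx (PF_congr (fun i hi'' => (hyz i hi'').symm) hy) hp ht0 ht
    have hDS : 2 * (S.length : ℤ) ≤ (D : ℤ) := by exact_mod_cast hD
    -- the step is shorter than the circuit
    have hsp : s ≤ p.1 := by
      have h1 : (D : ℤ) * s ≤ 2 * ((S.length : ℤ) * p.1) := by linarith
      have h2 : 2 * (S.length : ℤ) * s ≤ (D : ℤ) * s := mul_le_mul_of_nonneg_right hDS (by omega)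
      have h3 : (S.length : ℤ) * s ≤ (S.length : ℤ) * p.1 := by linarith
      exact le_of_mul_le_mul_left h3 hSz
    -- the error of a short step
    have herr : ∀ m, 0 ≤ m → m ≤ s →
        (D : ℤ) * (FF n q h (fun i => x i + m * p.2 i) - FF n q h x) ≤
          42 * (S.length : ℤ) * (M0 - m0) := by
      intro m hm0 hm
      have h1 := quad_range (b := ∑ i ∈ range n, (2 * q i * x i * p.2 i + h i * p.2 i))
        (a := ∑ i ∈ range n, q i * p.2 i ^ 2) (R := M0 - m0) (t := p.1) (by omega)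
        (fun t ht0 ht => by
          rw [← FF_line, abs_le]
          have h2 := hf _ (halong t ht0 ht)
          have h3 := hf _ hx
          constructor <;> linarith) hm0 (hm.trans hsp)
      rw [← FF_line] at h1
      set ψ := FF n q h (fun i => x i + m * p.2 i) - FF n q h x
      have h2 : p.1 * ψ ≤ 21 * (M0 - m0) * m :=
        (mul_le_mul_of_nonneg_left (le_abs_self ψ) hp1.le).trans h1
      have h3 : (D : ℤ) * m ≤ 2 * ((S.length : ℤ) * p.1) := by
        have : (D : ℤ) * m ≤ (D : ℤ) * s := mul_le_mul_of_nonneg_left hm hDz.le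
        linarith
      have h4 : p.1 * ((D : ℤ) * ψ) ≤ p.1 * (42 * (S.length : ℤ) * (M0 - m0)) := by
        have h5 : (D : ℤ) * (p.1 * ψ) ≤ (D : ℤ) * (21 * (M0 - m0) * m) :=
          mul_le_mul_of_nonneg_left h2 hDz.le
        have h6 : 21 * (M0 - m0) * ((D : ℤ) * m) ≤ 21 * (M0 - m0) * (2 * ((S.length : ℤ) * p.1)) :=
          mul_le_mul_of_nonneg_left h3 (by linarith)
        linarith
      exact le_of_mul_le_mul_left h4 hp1
    have hunit := (dec_coord hU hL hj).1 p hp
    have hs0 : 0 < s := by omega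
    have hsD : hi - lo < (2 * (D : ℤ)) * s := by nlinarith
    have hpj' : p.2 j = 1 ∨ p.2 j = -1 := by
      have := abs_le.1 hunit
      omega
    rcases hpj' with hpj' | hpj'
    · -- go up
      set i : ℤ := (x j - lo + s - 1) / s with hi'
      have hi0 : 0 ≤ i := Int.ediv_nonneg (by omega) hs0.le
      have h1 : s * i ≤ x j - lo + s - 1 := Int.mul_ediv_self_le hs0.ne'
      have h2 : x j - lo + s - 1 < s * i + s := by
        have h3 := Int.emod_add_mul_ediv (x j - lo + s - 1) s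
        have h4 := Int.emod_lt_of_pos (x j - lo + s - 1) hs0
        linarith
      have hiD : i < 2 * (D : ℤ) + 1 := by
        by_contra hc
        push Not at hc
        have : s * (2 * (D : ℤ) + 1) ≤ s * i := mul_le_mul_of_nonneg_left hc hs0.le
        nlinarith
      obtain ⟨i', hi''⟩ := Int.eq_ofNat_of_zero_le hi0
      set v := min (lo + i * s) hi with hv
      have hcomm : i * s = s * i := mul_comm _ _
      have hm0 : 0 ≤ v - x j := by rw [hv]; omega
      have hm1 : v - x j ≤ s := by rw [hv]; omega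
      refine main i' (fun k => x k + (v - x j) * p.2 k) (by omega)
        (halong _ hm0 (hm1.trans hsp)) ?_ (herr _ hm0 hm1)
      have : ((i' : ℕ) : ℤ) = i := hi''.symm
      rw [this, hpj']
      ring
    · -- go down
      set i : ℤ := (x j - lo) / s with hi'
      have hi0 : 0 ≤ i := Int.ediv_nonneg (by omega) hs0.le
      have h1 : s * i ≤ x j - lo := Int.mul_ediv_self_le hs0.ne'
      have h2 : x j - lo < s * i + s := by
        have h3 := Int.emod_add_mul_ediv (x j - lo) s
        have h4 := Int.emod_lt_of_pos (x j - lo) hs0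
        linarith
      have hiD : i < 2 * (D : ℤ) + 1 := by
        by_contra hc
        push Not at hc
        have : s * (2 * (D : ℤ) + 1) ≤ s * i := mul_le_mul_of_nonneg_left hc hs0.le
        nlinarith
      obtain ⟨i', hi''⟩ := Int.eq_ofNat_of_zero_le hi0
      have hcomm : i * s = s * i := mul_comm _ _
      have hmin : min (lo + i * s) hi = lo + i * s := by omega
      have hm0 : 0 ≤ x j - (lo + i * s) := by omega
      have hm1 : x j - (lo + i * s) ≤ s := by omega
      refine main i' (fun k => x k + (x j - (lo + i * s)) * p.2 k) (by omega)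
        (halong _ hm0 (hm1.trans hsp)) ?_ (herr _ hm0 hm1)
      have : ((i' : ℕ) : ℤ) = i := hi''.symm
      rw [this, hmin, hpj']
      ring

end Pool.Agent.H699.TA
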