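import Pool.Agent.H699.TU.Det

/-!
# Totally unimodular sets of rows, and vertex integrality
-/

namespace Pool.Agent.H699.TA

open Finset Pool.Agent.H699.TU

/-- value of a row at a vector -/
def dt {R : Type} [CommRing R] (n : ℕ) (r : ℕ → ℤ) (x : ℕ → R) : R :=
  ∑ j ∈ range n, ((r j : ℤ) : R) * x j

/-- A set of rows (with `n` entries) is totally unimodular. -/
def TUF (n : ℕ) (A : Set (ℕ → ℤ)) : Prop :=
  ∀ (k : ℕ) (f : Fin k → ℕ → ℤ) (g : Fin k → ℕ), (∀ i, f i ∈ A) → (∀ j, g j < n) →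
    U (Matrix.of fun i j => f i (g j)).det

theorem TUF.mono {n : ℕ} {A B : Set (ℕ → ℤ)} (h : TUF n B) (hAB : A ⊆ B) : TUF n A :=
  fun k f g hf hg => h k f g (fun i => hAB (hf i)) hg

/-- Rows which are signed copies. -/
theorem TUF.signed {n : ℕ} {A : Set (ℕ → ℤ)} (h : TUF n A) :
    TUF n {r' | ∃ r ∈ A, ∃ s : ℤ, U s ∧ ∀ j < n, r' j = s * r j} := by
  intro k f g hf hg
  choose f' hf' s hs hfs using hf
  have e : (Matrix.of fun i j => f i (g j)) = Matrix.of fun i j => s i *
      (Matrix.of fun (i : Fin k) (j : Fin k) => f' i (g j)) i j := by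
    funext i j
    simp [hfs i (g j) (hg j)]
  rw [e, Matrix.det_mul_column]
  exact U.mul (U.prod _ _ fun i _ => hs i) (h k f' g hf' hg)

/-- Doubling the columns with a sign. -/
theorem TUF.double {n : ℕ} {A : Set (ℕ → ℤ)} (h : TUF n A) :
    TUF (n + n) {r' | ∃ r ∈ A, (∀ j < n, r' j = r j) ∧ ∀ j < n, r' (n + j) = - r j} := by
  intro k f g hf hg
  choose f' hf' h1 h2 using hf
  have e : (Matrix.of fun i j => f i (g j)) = Matrix.of fun i j =>
      (if g j < n then (1 : ℤ) else -1) *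
      (Matrix.of fun (i : Fin k) (j : Fin k) => f' i (if g j < n then g j else g j - n)) i j := by
    funext i j
    simp only [Matrix.of_apply]
    split_ifs with hj
    · rw [h1 i _ hj]; ring
    · have h3 := hg j
      have h4 := h2 i (g j - n) (by omega)
      rw [show n + (g j - n) = g j by omega] at h4
      rw [h4]; ring
  rw [e, Matrix.det_mul_row]
  refine U.mul (U.prod _ _ fun j _ => ?_) (h k f' _ hf' fun j => ?_)
  · split_ifs
    · exact Or.inr (Or.inl rfl)
    · exact Or.inr (Or.inr rfl)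
  · have h3 := hg j
    split_ifs <;> omega

/-- Adding unit rows. -/
theorem TUF.unit {n : ℕ} {A : Set (ℕ → ℤ)} (h : TUF n A) :
    TUF n (A ∪ {r | ∃ a : ℕ, ∀ j < n, r j = if j = a then 1 else 0}) := by
  intro k
  induction k with
  | zero => intro f g _ _; right; left; simp
  | succ k ih =>
    intro f g hf hg
    set B : Matrix (Fin (k + 1)) (Fin (k + 1)) ℤ := Matrix.of fun i j => f i (g j) with hB
    by_cases hall : ∀ i, f i ∈ A
    · exact h (k + 1) f g hall hg
    · push Not at hall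
      obtain ⟨i₀, hi₀⟩ := hall
      rcases hf i₀ with h1 | ⟨a, ha⟩
      · exact absurd h1 hi₀
      · have hrow : ∀ j, B i₀ j = if g j = a then 1 else 0 := fun j => ha _ (hg j)
        by_cases h1 : ∃ j₀, g j₀ = a
        · obtain ⟨j₀, hj₀⟩ := h1
          by_cases h2 : ∃ j₁, j₁ ≠ j₀ ∧ g j₁ = a
          · obtain ⟨j₁, hj₁, hj₂⟩ := h2
            left
            refine Matrix.det_zero_of_column_eq hj₁ fun i => ?_
            simp only [hB, Matrix.of_apply, hj₂, hj₀]
          · push Not at h2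
            rw [Matrix.det_succ_row B i₀, Finset.sum_eq_single j₀]
            · rw [hrow, if_pos hj₀, mul_one]
              exact U.pow_mul (ih _ _ (fun _ => hf _) (fun _ => hg _)) _
            · intro j _ hj
              rw [hrow, if_neg (h2 j hj)]
              ring
            · intro h; exact absurd (Finset.mem_univ _) h
        · push Not at h1
          left
          refine Matrix.det_eq_zero_of_row_eq_zero i₀ fun j => ?_
          rw [hrow, if_neg (h1 j)]

theorem dt_int_cast (n : ℕ) (r x : ℕ → ℤ) :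
    ((dt n r x : ℤ) : ℝ) = dt n r (fun j => (x j : ℝ)) := by
  unfold dt
  push_cast
  rfl

/-- Vertex integrality. -/
theorem integral_of_tight {n : ℕ} {A : Set (ℕ → ℤ)} (hA : TUF n A) {T : Set (ℕ → ℤ)} (hT : T ⊆ A)
    {x : ℕ → ℝ} (hx : ∀ r ∈ T, ∃ b : ℤ, dt n r x = b)
    (hker : ∀ d : ℕ → ℝ, (∀ r ∈ T, dt n r d = 0) → ∀ j < n, d j = 0) :
    ∀ j < n, ∃ z : ℤ, x j = z := by
  classical
  set vec : (ℕ → ℤ) → (Fin n → ℝ) := fun r j => ((r j : ℤ) : ℝ) with hvec
  set S : Set (Fin n → ℝ) := vec '' T with hS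
  have hdt : ∀ (r : ℕ → ℤ) (d : ℕ → ℝ), dt n r d = ∑ j : Fin n, vec r j * d j := by
    intro r d
    unfold dt
    rw [← Fin.sum_univ_eq_sum_range (fun j => ((r j : ℤ) : ℝ) * d j) n]
  have hspan : Submodule.span ℝ S = ⊤ := by
    by_contra hne
    obtain ⟨φ, hφ, hle⟩ := Submodule.exists_le_ker_of_lt_top _ (lt_top_iff_ne_top.2 hne)
    apply hφ
    have h1 : ∀ v : Fin n → ℝ, φ v = ∑ j, v j * φ (Pi.single j 1) := by
      intro v
      conv_lhs => rw [← Finset.univ_sum_single v]
      rw [map_sum]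
      refine Finset.sum_congr rfl fun j _ => ?_
      have : Pi.single j (v j) = (v j) • (Pi.single j (1 : ℝ) : Fin n → ℝ) := by
        rw [← Pi.single_smul, smul_eq_mul, mul_one]
      rw [this, map_smul, smul_eq_mul]
    have h2 := hker (fun j => if h : j < n then φ (Pi.single ⟨j, h⟩ 1) else 0) (fun r hr => by
      rw [hdt]
      have h3 : φ (vec r) = 0 := hle (Submodule.subset_span ⟨r, hr, rfl⟩)
      rw [h1] at h3
      rw [← h3]
      refine Finset.sum_congr rfl fun j _ => ?_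
      rw [dif_pos j.2])
    refine LinearMap.ext fun v => ?_
    rw [h1, LinearMap.zero_apply]
    refine Finset.sum_eq_zero fun j _ => ?_
    have h3 := h2 j j.2
    rw [dif_pos j.2] at h3
    rw [h3, mul_zero]
  have hfin : Module.finrank ℝ (Submodule.span ℝ S) = n := by
    rw [hspan, finrank_top]
    simp
  obtain ⟨f, hf1, hf2, hf3⟩ : ∃ f : Fin n → (Fin n → ℝ), (∀ i, f i ∈ S) ∧
      Submodule.span ℝ (Set.range f) = Submodule.span ℝ S ∧ LinearIndependent ℝ f := by
    have := Submodule.exists_fun_fin_finrank_span_eq ℝ S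
    rw [hfin] at this
    exact this
  choose t ht htf using hf1
  set B : Matrix (Fin n) (Fin n) ℤ := Matrix.of fun i j => t i j with hB
  have hBR : (B.map (Int.cast : ℤ → ℝ)).row = f := by
    funext i
    rw [← htf i]
    funext j
    simp [hB, hvec, Matrix.row]
  have hunit : IsUnit (B.map (Int.cast : ℤ → ℝ)) := by
    rw [← Matrix.linearIndependent_rows_iff_isUnit, hBR]
    exact hf3
  have hdet : (B.det : ℝ) ≠ 0 := by
    have h1 := (Matrix.isUnit_iff_isUnit_det _).1 hunit
    have h2 : (B.map (Int.cast : ℤ → ℝ)).det = (B.det : ℝ) := by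
      have := (Int.castRingHom ℝ).map_det B
      simp only [Int.coe_castRingHom] at this
      rw [this]
      rfl
    rw [h2] at h1
    exact h1.ne_zero
  have hU : U B.det := hA n t (fun j => j) (fun i => hT (ht i)) (fun j => j.2)
  have hdet1 : B.det = 1 ∨ B.det = -1 := by
    rcases hU with h | h | h
    · rw [h] at hdet; simp at hdet
    · exact Or.inl h
    · exact Or.inr h
  choose b hb using fun i => hx (t i) (ht i)
  intro j hj
  have key : (B.det : ℝ) * x j = ((∑ i, B.adjugate ⟨j, hj⟩ i * b i : ℤ) : ℝ) := by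
    have h1 : (B.adjugate * B) = B.det • (1 : Matrix (Fin n) (Fin n) ℤ) := Matrix.adjugate_mul B
    rw [Int.cast_sum]
    simp only [Int.cast_mul]
    have h2 : ∀ i, ((b i : ℤ) : ℝ) = ∑ l : Fin n, ((B i l : ℤ) : ℝ) * x l := by
      intro i
      rw [← hb i, hdt]
      rfl
    have h3 : ∑ i, ((B.adjugate ⟨j, hj⟩ i : ℤ) : ℝ) * ((b i : ℤ) : ℝ) =
        ∑ l : Fin n, (∑ i, ((B.adjugate ⟨j, hj⟩ i : ℤ) : ℝ) * ((B i l : ℤ) : ℝ)) * x l := by
      rw [Finset.sum_congr rfl fun i _ => by rw [h2 i, Finset.mul_sum]]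
      rw [Finset.sum_comm]
      refine Finset.sum_congr rfl fun l _ => ?_
      rw [Finset.sum_mul]
      exact Finset.sum_congr rfl fun i _ => by ring
    rw [h3]
    have h4 : ∀ l : Fin n, (∑ i, ((B.adjugate ⟨j, hj⟩ i : ℤ) : ℝ) * ((B i l : ℤ) : ℝ)) =
        if l = ⟨j, hj⟩ then (B.det : ℝ) else 0 := by
      intro l
      have h5 := congrFun (congrFun h1 ⟨j, hj⟩) l
      rw [Matrix.mul_apply] at h5
      have h6 : (∑ i, ((B.adjugate ⟨j, hj⟩ i : ℤ) : ℝ) * ((B i l : ℤ) : ℝ)) =
          ((∑ i, B.adjugate ⟨j, hj⟩ i * B i l : ℤ) : ℝ) := by push_cast; rfl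
      rw [h6, h5]
      simp only [Matrix.smul_apply, Matrix.one_apply, smul_eq_mul]
      by_cases hl : l = ⟨j, hj⟩
      · rw [if_pos hl, if_pos hl.symm]; simp
      · rw [if_neg hl, if_neg (fun h => hl h.symm)]; simp
    rw [Finset.sum_congr rfl fun l _ => by rw [h4 l]]
    simp
  rcases hdet1 with h | h
  · refine ⟨∑ i, B.adjugate ⟨j, hj⟩ i * b i, ?_⟩
    rw [← key, h, Int.cast_one, one_mul]
  · refine ⟨-(∑ i, B.adjugate ⟨j, hj⟩ i * b i), ?_⟩
    rw [Int.cast_neg, ← key, h, Int.cast_neg, Int.cast_one]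
    ring

end Pool.Agent.H699.TA
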