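import Pool.Graph.R_seed8.Y644.QW.Opt
import Pool.Agent.H699.TA.TUR

/-!
# Linear programs over totally unimodular systems
-/

namespace Pool.Agent.H699.TA

open Finset Pool.Agent.H699.TU Pool.Agent.Y644.QS Pool.Agent.Y644.QW Pool.Agent.H687R2.LLL

/-- The function of a list. -/
def rl (l : List ℤ) : ℕ → ℤ := fun j => l.getD j 0

/-- The homogenised row. -/
def hrow (p : List ℤ × ℤ) : List ℤ := p.1 ++ [-p.2]

/-- The homogenised system. -/
def hsys (n : ℕ) (S : List (List ℤ × ℤ)) : List (List ℤ) :=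
  negV (unitV (n + 1) n) :: S.map hrow

/-- All rows have length `n`. -/
def LenS (n : ℕ) (S : List (List ℤ × ℤ)) : Prop := ∀ p ∈ S, p.1.length = n

/-- Coordinates of a vector. -/
noncomputable def ex {N : ℕ} (h : EuclideanSpace ℝ (Fin N)) : ℕ → ℝ :=
  fun j => if hj : j < N then h ⟨j, hj⟩ else 0

/-- The vector with given coordinates. -/
noncomputable def pv (N : ℕ) (x : ℕ → ℝ) : EuclideanSpace ℝ (Fin N) :=
  WithLp.toLp 2 fun j : Fin N => x j

theorem rf_dt (N : ℕ) (r : List ℤ) (h : EuclideanSpace ℝ (Fin N)) :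
    rf N r h = dt N (rl r) (ex h) := by
  rw [rf_apply, dt, ← Fin.sum_univ_eq_sum_range (fun j => ((rl r j : ℤ) : ℝ) * ex h j) N,
    PiLp.inner_apply]
  refine Finset.sum_congr rfl fun j _ => ?_
  simp only [ex, rl, j.2, dif_pos, lv_apply]
  simp [mul_comm]

theorem ex_pv (N : ℕ) (x : ℕ → ℝ) {j : ℕ} (hj : j < N) : ex (pv N x) j = x j := by
  unfold ex pv
  rw [dif_pos hj]

theorem dt_congr {R : Type} [CommRing R] (n : ℕ) (r : ℕ → ℤ) {x y : ℕ → R}
    (h : ∀ j < n, x j = y j) : dt n r x = dt n r y := by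
  unfold dt
  exact Finset.sum_congr rfl fun j hj => by rw [h j (Finset.mem_range.1 hj)]

theorem dt_congr' {R : Type} [CommRing R] (n : ℕ) {r r' : ℕ → ℤ} (x : ℕ → R)
    (h : ∀ j < n, r j = r' j) : dt n r x = dt n r' x := by
  unfold dt
  exact Finset.sum_congr rfl fun j hj => by rw [h j (Finset.mem_range.1 hj)]

theorem dt_hrow {R : Type} [CommRing R] {n : ℕ} {p : List ℤ × ℤ} (hp : p.1.length = n)
    (y : ℕ → R) : dt (n + 1) (rl (hrow p)) y = dt n (rl p.1) y - (p.2 : R) * y n := by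
  unfold dt
  rw [Finset.sum_range_succ]
  have h1 : ∀ j ∈ range n, ((rl (hrow p) j : ℤ) : R) * y j = ((rl p.1 j : ℤ) : R) * y j := by
    intro j hj
    have hj := Finset.mem_range.1 hj
    unfold rl hrow
    rw [List.getD_append _ _ _ _ (by omega)]
  rw [Finset.sum_congr rfl h1]
  have h2 : rl (hrow p) n = -p.2 := by
    unfold rl hrow
    rw [List.getD_append_right _ _ _ _ (by omega), hp, Nat.sub_self]
    rfl
  rw [h2]
  push_cast
  ring

theorem dt_unitV {R : Type} [CommRing R] {N j : ℕ} (hj : j < N) (y : ℕ → R) :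
    dt N (rl (unitV N j)) y = y j := by
  unfold dt
  rw [Finset.sum_eq_single j]
  · unfold rl
    rw [getD_unitV hj, if_pos rfl]
    simp
  · intro i hi hij
    unfold rl
    rw [getD_unitV (Finset.mem_range.1 hi), if_neg hij]
    simp
  · intro h; exact absurd (Finset.mem_range.2 hj) h

theorem rf_unit_last (n : ℕ) (h : EuclideanSpace ℝ (Fin (n + 1))) :
    rf (n + 1) (unitV (n + 1) n) h = ex h n := by
  rw [rf_dt, dt_unitV (by omega)]

theorem inC_iff {n : ℕ} {S : List (List ℤ × ℤ)} (hS : LenS n S)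
    (h : EuclideanSpace ℝ (Fin (n + 1))) : InC (rf (n + 1)) [] (hsys n S) h ↔
      0 ≤ ex h n ∧ ∀ p ∈ S, dt n (rl p.1) (ex h) ≤ (p.2 : ℝ) * ex h n := by
  unfold InC hsys
  constructor
  · rintro ⟨-, h2⟩
    refine ⟨?_, fun p hp => ?_⟩
    · have := h2 (negV (unitV (n + 1) n)) (by simp)
      rw [rf_negV, rf_unit_last] at this
      linarith
    · have := h2 (hrow p) (by
        rw [List.mem_cons]; right; exact List.mem_map.2 ⟨p, hp, rfl⟩)
      rw [rf_dt, dt_hrow (hS p hp)] at this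
      linarith
  · rintro ⟨h1, h2⟩
    refine ⟨by simp, fun r hr => ?_⟩
    rcases List.mem_cons.1 hr with rfl | hr
    · rw [rf_negV, rf_unit_last]; linarith
    · obtain ⟨p, hp, rfl⟩ := List.mem_map.1 hr
      rw [rf_dt, dt_hrow (hS p hp)]
      have := h2 p hp
      linarith

theorem len_hsys {n : ℕ} {S : List (List ℤ × ℤ)} (hS : LenS n S) : Len (n + 1) (hsys n S) := by
  intro r hr
  rcases List.mem_cons.1 hr with rfl | hr
  · exact length_negV (length_unitV _ _)
  · obtain ⟨p, hp, rfl⟩ := List.mem_map.1 hr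
    simp [hrow, hS p hp]

/-- Is the system feasible over the reals? -/
def feasB (n : ℕ) (S : List (List ℤ × ℤ)) : Bool :=
  feas (unitV (n + 1) n) [] (hsys n S) (unitV (n + 1) n)

/-- A real solution in homogeneous coordinates. -/
def faceV (n : ℕ) (S : List (List ℤ × ℤ)) : List ℤ :=
  face (unitV (n + 1) n) [] (hsys n S) (unitV (n + 1) n)

theorem dt_smul {n : ℕ} (r : ℕ → ℤ) (x : ℕ → ℝ) (s : ℝ) :
    dt n r (fun j => s * x j) = s * dt n r x := by
  unfold dt
  rw [Finset.mul_sum]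
  exact Finset.sum_congr rfl fun j _ => by ring

theorem exists_iff {n : ℕ} {S : List (List ℤ × ℤ)} (hS : LenS n S) :
    (∃ h, InC (rf (n + 1)) [] (hsys n S) h ∧ 0 < rf (n + 1) (unitV (n + 1) n) h) ↔
      ∃ x : ℕ → ℝ, ∀ p ∈ S, dt n (rl p.1) x ≤ p.2 := by
  constructor
  · rintro ⟨h, h1, h2⟩
    rw [rf_unit_last] at h2
    obtain ⟨-, h3⟩ := (inC_iff hS h).1 h1
    refine ⟨fun j => (ex h n)⁻¹ * ex h j, fun p hp => ?_⟩
    rw [dt_smul, inv_mul_le_iff₀ h2, mul_comm (ex h n)]
    exact h3 p hp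
  · rintro ⟨x, hx⟩
    set y : ℕ → ℝ := fun j => if j = n then 1 else x j with hy
    refine ⟨pv (n + 1) y, (inC_iff hS _).2 ⟨?_, fun p hp => ?_⟩, ?_⟩
    · rw [ex_pv _ _ (by omega)]; simp [hy]
    · rw [ex_pv _ _ (by omega)]
      have h1 : dt n (rl p.1) (ex (pv (n + 1) y)) = dt n (rl p.1) x := dt_congr n _ fun j hj => by
        rw [ex_pv _ _ (by omega)]
        simp only [hy]
        rw [if_neg (by omega)]
      rw [h1]
      simp only [hy, if_true, mul_one]
      exact hx p hp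
    · rw [rf_unit_last, ex_pv _ _ (by omega)]
      simp [hy]

theorem feasB_iff {n : ℕ} {S : List (List ℤ × ℤ)} (hS : LenS n S) :
    feasB n S = true ↔ ∃ x : ℕ → ℝ, ∀ p ∈ S, dt n (rl p.1) x ≤ p.2 := by
  have hc : (unitV (n + 1) n).length = n + 1 := length_unitV _ _
  rw [← exists_iff hS]
  unfold feasB
  have := feas_iff (c := unitV (n + 1) n) (E := []) (J := hsys n S) (g := unitV (n + 1) n)
    (by intro r hr; simp at hr) (by rw [hc]; exact len_hsys hS) rfl
  rw [hc] at this
  exact this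

theorem ex_lv (N : ℕ) (l : List ℤ) {j : ℕ} (hj : j < N) : ex (lv N l) j = ((rl l j : ℤ) : ℝ) := by
  unfold ex
  rw [dif_pos hj, lv_apply]
  rfl

theorem faceV_spec {n : ℕ} {S : List (List ℤ × ℤ)} (hS : LenS n S)
    (hf : ∃ x : ℕ → ℝ, ∀ p ∈ S, dt n (rl p.1) x ≤ p.2) :
    0 < rl (faceV n S) n ∧
      ∀ p ∈ S, dt n (rl p.1) (rl (faceV n S)) ≤ p.2 * rl (faceV n S) n := by
  have hc : (unitV (n + 1) n).length = n + 1 := length_unitV _ _
  have h := face_spec (c := unitV (n + 1) n) (E := []) (J := hsys n S) (g := unitV (n + 1) n)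
    (by intro r hr; simp at hr) (by rw [hc]; exact len_hsys hS) rfl
  rw [hc] at h
  obtain ⟨h1, h2, h3⟩ := h
  have h4 := h3 ((exists_iff hS).2 hf)
  change InC (rf (n + 1)) [] (hsys n S) (lv (n + 1) (faceV n S)) at h2
  change 0 < rf (n + 1) (unitV (n + 1) n) (lv (n + 1) (faceV n S)) at h4
  rw [rf_unit_last, ex_lv _ _ (by omega)] at h4
  obtain ⟨-, h5⟩ := (inC_iff hS _).1 h2
  refine ⟨by exact_mod_cast h4, fun p hp => ?_⟩
  have h6 := h5 p hp
  rw [ex_lv _ _ (by omega), dt_congr n (rl p.1) (fun j hj => ex_lv (n + 1) (faceV n S)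
    (show j < n + 1 by omega)), ← dt_int_cast] at h6
  exact_mod_cast h6

/-- The optimal vertex. -/
def solV (n : ℕ) (S : List (List ℤ × ℤ)) (c : List ℤ) : List ℤ :=
  (List.range n).map fun j => (optw (c ++ [0]) [] (hsys n S)).getD j 0 /
    (((optw (c ++ [0]) [] (hsys n S)).getD n 0).toNat : ℤ)

/-- The rows of a system, as functions. -/
def rowsOfS (S : List (List ℤ × ℤ)) : Set (ℕ → ℤ) := {r | ∃ p ∈ S, r = rl p.1}

/-- A system to which integrality applies: totally unimodular and with a trivial recession cone. -/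
structure Good (n : ℕ) (S : List (List ℤ × ℤ)) : Prop where
  len : LenS n S
  tu : TUF n (rowsOfS S)
  bdd : ∀ d : ℕ → ℝ, (∀ p ∈ S, dt n (rl p.1) d ≤ 0) → ∀ j < n, d j = 0

theorem vertex_integral {n : ℕ} {S : List (List ℤ × ℤ)} (hG : Good n S)
    {v : EuclideanSpace ℝ (Fin (n + 1))} (hv : Ext (rf (n + 1)) [] (hsys n S) v)
    (hτ : 0 < ex v n) : ∀ j < n, ∃ z : ℤ, (ex v n)⁻¹ * ex v j = z := by
  refine integral_of_tight hG.tu (T := {r | ∃ p ∈ S, r = rl p.1 ∧
    dt n (rl p.1) (ex v) = (p.2 : ℝ) * ex v n}) ?_ (x := fun j => (ex v n)⁻¹ * ex v j) ?_ ?_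
  · rintro r ⟨p, hp, rfl, -⟩
    exact ⟨p, hp, rfl⟩
  · rintro r ⟨p, hp, rfl, h1⟩
    refine ⟨p.2, ?_⟩
    rw [dt_smul, h1]
    field_simp
  · intro d hd
    set y : ℕ → ℝ := fun j => if j = n then 0 else d j with hy
    have hyn : ex (pv (n + 1) y) n = 0 := by rw [ex_pv _ _ (by omega)]; simp [hy]
    have hyd : ∀ j < n, ex (pv (n + 1) y) j = d j := by
      intro j hj
      rw [ex_pv _ _ (by omega)]
      simp only [hy]
      rw [if_neg (by omega)]
    obtain ⟨s, hs⟩ := hv.ker (pv (n + 1) y) (by simp) (by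
      intro r hr h0
      rcases List.mem_cons.1 hr with rfl | hr
      · rw [rf_negV, rf_unit_last] at h0
        linarith
      · obtain ⟨p, hp, rfl⟩ := List.mem_map.1 hr
        rw [rf_dt, dt_hrow (hG.len p hp)] at h0 ⊢
        rw [hyn, dt_congr n _ hyd, hd (rl p.1) ⟨p, hp, rfl, by linarith⟩]
        ring)
    have hsn : ∀ j < n + 1, ex (pv (n + 1) y) j = s * ex v j := by
      intro j hj
      rw [hs]
      unfold ex
      rw [dif_pos hj, dif_pos hj]
      rfl
    have h1 := hsn n (by omega)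
    rw [hyn] at h1
    have hs0 : s = 0 := by
      rcases mul_eq_zero.1 h1.symm with h | h
      · exact h
      · exact absurd h hτ.ne'
    intro j hj
    rw [← hyd j hj, hsn j (by omega), hs0, zero_mul]

theorem solV_spec {n : ℕ} {S : List (List ℤ × ℤ)} (hG : Good n S) {c : List ℤ}
    (hc : c.length = n) (hf : ∃ x : ℕ → ℝ, ∀ p ∈ S, dt n (rl p.1) x ≤ p.2) :
    (∀ p ∈ S, dt n (rl p.1) (rl (solV n S c)) ≤ p.2) ∧
      ∀ x : ℕ → ℝ, (∀ p ∈ S, dt n (rl p.1) x ≤ p.2) →
        dt n (rl c) x ≤ ((dt n (rl c) (rl (solV n S c)) : ℤ) : ℝ) := by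
  have hS := hG.len
  set c' := c ++ [0] with hc'
  have hcl : c'.length = n + 1 := by simp [hc', hc]
  have hτ' : tau c' = unitV (n + 1) n := by unfold tau; rw [hcl]; rfl
  have hzero : ∀ h : EuclideanSpace ℝ (Fin (n + 1)), ex h n = 0 →
      (∀ p ∈ S, dt n (rl p.1) (ex h) ≤ 0) → h = 0 := by
    intro h h1 h2
    have h3 := hG.bdd (ex h) h2
    ext j
    have h4 : ex h j = 0 := by
      by_cases hj : (j : ℕ) < n
      · exact h3 j hj
      · have : (j : ℕ) = n := by have := j.2; omega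
        rw [this, h1]
    unfold ex at h4
    rw [dif_pos j.2] at h4
    simpa using h4
  -- an integral vertex
  obtain ⟨z, hz, hzτ⟩ := (exists_iff hS).2 hf
  obtain ⟨u, hu, huτ⟩ := exists_ext (φ := rf (n + 1)) (E := ([] : List (List ℤ)))
    (J := hsys n S) (g := rf (n + 1) (unitV (n + 1) n)) (by
      intro h _ h2
      have h3 := h2 (negV (unitV (n + 1) n)) (by simp [hsys])
      rw [rf_negV, rf_unit_last] at h3
      have h3' : ex h n = 0 := by linarith
      refine hzero h h3' fun p hp => ?_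
      have h4 := h2 (hrow p) (by
        unfold hsys; rw [List.mem_cons]; right; exact List.mem_map.2 ⟨p, hp, rfl⟩)
      rw [rf_dt, dt_hrow (hS p hp), h3'] at h4
      linarith) hz hzτ
  rw [rf_unit_last] at huτ
  have hint := vertex_integral hG hu huτ
  have hvx : ∃ v : List ℤ, Vx c' [] (hsys n S) v := by
    choose! zz hzz using hint
    set v : List ℤ := (List.range (n + 1)).map fun j => if j = n then 1 else zz j with hv
    have hvl : v.length = n + 1 := by simp [hv]
    have hvj : ∀ j < n + 1, rl v j = if j = n then 1 else zz j := by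
      intro j hj
      unfold rl
      rw [List.getD_eq_getElem _ _ (by rw [hvl]; exact hj)]
      simp [hv]
    have hlv : lv (n + 1) v = (ex u n)⁻¹ • u := by
      ext j
      rw [lv_apply]
      have h1 := hvj j j.2
      unfold rl at h1
      rw [h1]
      have h2 : ((ex u n)⁻¹ • u) j = (ex u n)⁻¹ * ex u j := by
        unfold ex
        rw [dif_pos j.2]
        rfl
      rw [h2]
      split_ifs with h3
      · rw [h3, inv_mul_cancel₀ huτ.ne', Int.cast_one]
      · rw [hzz j (by have := j.2; omega)]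
    refine ⟨v, ?_, ?_, ?_⟩
    · rw [hvl, hcl]
    · rw [hcl, hlv]
      exact hu.smul (inv_pos.2 huτ)
    · rw [hcl, hτ', rf_unit_last, ex_lv _ _ (by omega), hvj n (by omega), if_pos rfl]
      norm_num
  obtain ⟨v, hv⟩ := hvx
  have hτJ : negV (tau c') ∈ hsys n S := by rw [hτ']; simp [hsys]
  have hspec := optw_spec (c := c') (E := []) (J := hsys n S) (by omega)
    (by intro r hr; simp at hr) (by rw [hcl]; exact len_hsys hS) hτJ hv
  unfold Pool.Agent.Y644.QS.Top at hspec
  rw [hcl, hτ'] at hspec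
  set w := optw c' [] (hsys n S) with hw
  obtain ⟨w1, w2, w3, w4⟩ := hspec
  have hwn : 0 < ex (lv (n + 1) w) n := by
    rcases w4 with h | ⟨h, -⟩
    · rw [rf_unit_last] at h; exact h
    · rw [rf_unit_last] at h
      exfalso
      refine w2.ne (hzero _ h fun p hp => ?_)
      have h1 := ((inC_iff hS _).1 w2.mem).2 p hp
      rw [h, mul_zero] at h1
      exact h1
  have hwint := vertex_integral hG w2 hwn
  have hwn' : 0 < rl w n := by
    rw [ex_lv _ _ (by omega)] at hwn
    exact_mod_cast hwn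
  -- the entries of the solution
  have hsol : ∀ j < n, rl w j = rl (solV n S c) j * rl w n := by
    intro j hj
    obtain ⟨zj, hzj⟩ := hwint j hj
    rw [ex_lv _ _ (by omega), ex_lv _ _ (by omega)] at hzj
    have h1 : ((rl w j : ℤ) : ℝ) = ((zj * rl w n : ℤ) : ℝ) := by
      push_cast
      rw [← hzj]
      have : ((rl w n : ℤ) : ℝ) ≠ 0 := by exact_mod_cast hwn'.ne'
      field_simp
    have h2 : rl w j = zj * rl w n := by exact_mod_cast h1
    have h3 : rl (solV n S c) j = rl w j / ((rl w n).toNat : ℤ) := by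
      unfold rl solV
      rw [List.getD_eq_getElem _ _ (by simpa using hj)]
      simp [hw, hc']
    rw [h3, Int.toNat_of_nonneg hwn'.le, h2, Int.mul_ediv_cancel _ hwn'.ne']
  have hdtw : ∀ r : ℕ → ℤ, dt n r (rl w) = dt n r (rl (solV n S c)) * rl w n := by
    intro r
    unfold dt
    rw [Finset.sum_mul]
    refine Finset.sum_congr rfl fun j hj => ?_
    rw [hsol j (Finset.mem_range.1 hj)]
    simp only [Int.cast_id]
    ring
  have hexw : ∀ r : ℕ → ℤ, dt n r (ex (lv (n + 1) w)) =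
      ((dt n r (rl (solV n S c)) : ℤ) : ℝ) * ((rl w n : ℤ) : ℝ) := by
    intro r
    rw [dt_congr n r (fun j hj => ex_lv (n + 1) w (show j < n + 1 by omega)), ← dt_int_cast, hdtw]
    push_cast
    ring
  have hwnr : (0 : ℝ) < ((rl w n : ℤ) : ℝ) := by exact_mod_cast hwn'
  refine ⟨fun p hp => ?_, fun x hx => ?_⟩
  · have h1 := ((inC_iff hS _).1 w2.mem).2 p hp
    rw [hexw, ex_lv _ _ (by omega)] at h1
    have h2 := le_of_mul_le_mul_right h1 hwnr
    exact_mod_cast h2
  · set y : ℕ → ℝ := fun j => if j = n then 1 else x j with hy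
    have hyn : ex (pv (n + 1) y) n = 1 := by rw [ex_pv _ _ (by omega)]; simp [hy]
    have hyd : ∀ j < n, ex (pv (n + 1) y) j = x j := by
      intro j hj
      rw [ex_pv _ _ (by omega)]
      simp only [hy]
      rw [if_neg (by omega)]
    have htop := w3 (pv (n + 1) y) (by
      refine (inC_iff hS _).2 ⟨by rw [hyn]; norm_num, fun p hp => ?_⟩
      rw [hyn, mul_one, dt_congr n _ hyd]
      exact hx p hp)
    rw [rf_unit_last, rf_unit_last, hyn, ex_lv _ _ (by omega), mul_one] at htop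
    have hcr : ∀ h : EuclideanSpace ℝ (Fin (n + 1)), rf (n + 1) c' h = dt n (rl c) (ex h) := by
      intro h
      have h1 : c' = hrow (c, 0) := by simp [hc', hrow]
      rw [rf_dt, h1, dt_hrow hc]
      simp
    rw [hcr, hcr, hexw, dt_congr n _ hyd] at htop
    exact le_of_mul_le_mul_right htop hwnr

theorem length_solV (n : ℕ) (S : List (List ℤ × ℤ)) (c : List ℤ) : (solV n S c).length = n := by
  simp [solV]

end Pool.Agent.H699.TA
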