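import Pool.Agent.H699.TA.AugAlg

/-!
# Minimising a separable convex quadratic function by augmentation
-/

namespace Pool.Agent.H699.TA

open Finset Pool.Agent.H699.TU Pool.Agent.Y644.QS

/-- the value at a list -/
def ffl (n : ℕ) (a h x : List ℤ) : ℤ :=
  ((List.range n).map fun j => a.getD j 0 * (x.getD j 0 * x.getD j 0) +
    h.getD j 0 * x.getD j 0).sum

theorem ffl_eq (n : ℕ) (a h x : List ℤ) : ffl n a h x = FF n (rl a) (rl h) (rl x) := by
  unfold ffl FF rl
  rw [← sum_range_list]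
  exact Finset.sum_congr rfl fun j _ => by ring

/-- feasibility test -/
def pfb (n : ℕ) (S : List (List ℤ × ℤ)) (x : List ℤ) : Bool :=
  S.all fun p => decide (dtl n p.1 x ≤ p.2)

theorem pfb_iff {n : ℕ} {S : List (List ℤ × ℤ)} {x : List ℤ} : pfb n S x = true ↔ PF n S (rl x) := by
  unfold pfb PF
  simp only [List.all_eq_true, decide_eq_true_eq, dtl_eq]

/-- the best element of a list -/
def best (n : ℕ) (a h : List ℤ) (l : List (List ℤ)) (x : List ℤ) : List ℤ :=
  ((l.filter fun y => l.all fun y' => decide (ffl n a h y ≤ ffl n a h y')).head?).getD x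

theorem best_spec (n : ℕ) (a h : List ℤ) {l : List (List ℤ)} (hl : l ≠ []) (x : List ℤ) :
    best n a h l x ∈ l ∧ ∀ y ∈ l, ffl n a h (best n a h l x) ≤ ffl n a h y := by
  obtain ⟨y, hy, hmin⟩ : ∃ y ∈ l, ∀ y' ∈ l, ffl n a h y ≤ ffl n a h y' := by
    have hne : l.toFinset.Nonempty := by
      obtain ⟨b, hb⟩ := List.exists_mem_of_ne_nil l hl
      exact ⟨b, by simpa using hb⟩
    obtain ⟨y, h1, h2⟩ := Finset.exists_min_image l.toFinset (fun y => ffl n a h y) hne
    exact ⟨y, by simpa using h1, fun y' hy' => h2 y' (by simpa using hy')⟩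
  have hmem : y ∈ l.filter fun y => l.all fun y' => decide (ffl n a h y ≤ ffl n a h y') := by
    rw [List.mem_filter]
    refine ⟨hy, ?_⟩
    rw [List.all_eq_true]
    intro y' hy'
    simpa using hmin y' hy'
  obtain ⟨b, hb⟩ : ∃ b, (l.filter fun y => l.all fun y' =>
      decide (ffl n a h y ≤ ffl n a h y')).head? = some b := by
    cases hh : (l.filter fun y => l.all fun y' => decide (ffl n a h y ≤ ffl n a h y')) with
    | nil => rw [hh] at hmem; simp at hmem
    | cons b t => exact ⟨b, rfl⟩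
  have hbest : best n a h l x = b := by unfold best; rw [hb]; rfl
  rw [hbest]
  have hbm := List.mem_of_mem_head? hb
  rw [List.mem_filter, List.all_eq_true] at hbm
  exact ⟨hbm.1, fun y' hy' => by simpa using hbm.2 y' hy'⟩

/-- the candidates of one step -/
def cands (n : ℕ) (S : List (List ℤ × ℤ)) (a h : List ℤ) (K : ℕ) (x : List ℤ) : List (List ℤ) :=
  x :: ((List.range (K + 1)).map fun k => augV n S a h x (2 ^ (min k K))).filter (pfb n S)

/-- one step -/
def step (n : ℕ) (S : List (List ℤ × ℤ)) (a h : List ℤ) (K : ℕ) (x : List ℤ) : List ℤ :=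
  best n a h (cands n S a h K x) x

theorem step_mem (n : ℕ) (S : List (List ℤ × ℤ)) (a h : List ℤ) (K : ℕ) (x : List ℤ) :
    step n S a h K x = x ∨ ((step n S a h K x).length = n ∧ PF n S (rl (step n S a h K x))) := by
  have h1 := (best_spec n a h (l := cands n S a h K x) (by simp [cands]) x).1
  unfold step
  unfold cands at h1 ⊢
  rcases List.mem_cons.1 h1 with h2 | h2
  · exact Or.inl h2
  · right
    rw [List.mem_filter, List.mem_map] at h2
    obtain ⟨⟨k, _, h3⟩, h4⟩ := h2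
    exact ⟨by rw [← h3]; simp [augV], pfb_iff.1 h4⟩

theorem step_spec {n : ℕ} {S : List (List ℤ × ℤ)} (hS : LenS n S) (htu : TUF n (fr (rowsL S)))
    (hU : HasU n (rowsL S)) {a h : List ℤ} (ha : ∀ j < n, 0 ≤ rl a j) {K : ℕ}
    (hK : ∀ x y, PF n S x → PF n S y → ∀ j < n, |y j - x j| < 2 ^ (K + 1))
    {x : List ℤ} (hx : PF n S (rl x)) :
    PF n S (rl (step n S a h K x)) ∧
      FF n (rl a) (rl h) (rl (step n S a h K x)) ≤ FF n (rl a) (rl h) (rl x) ∧
      ∀ y, PF n S y → FF n (rl a) (rl h) y < FF n (rl a) (rl h) (rl x) →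
        2 * (S.length : ℤ) * (FF n (rl a) (rl h) (rl (step n S a h K x)) -
          FF n (rl a) (rl h) (rl x)) ≤ FF n (rl a) (rl h) y - FF n (rl a) (rl h) (rl x) := by
  obtain ⟨h1, h2⟩ := best_spec n a h (l := cands n S a h K x) (by simp [cands]) x
  refine ⟨?_, ?_, fun y hy hlt => ?_⟩
  · rcases step_mem n S a h K x with h3 | h3
    · rw [h3]; exact hx
    · exact h3.2
  · have h3 := h2 x (by simp [cands])
    rw [ffl_eq, ffl_eq] at h3
    exact h3
  · obtain ⟨k, g, hg1, ⟨j, hj, hjk⟩, hgf, hg2⟩ := exists_aug hS htu hU ha (rl h) hx hy hlt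
    have hkK : k ≤ K := by
      by_contra hk
      have h3 := hK (rl x) y hx hy j hj
      have h4 : (2 : ℤ) ^ (K + 1) ≤ 2 ^ k := pow_le_pow_right₀ (by norm_num) (by omega)
      omega
    have hcast : ((2 ^ k : ℕ) : ℤ) = (2 : ℤ) ^ k := by push_cast; rfl
    obtain ⟨s1, s2⟩ := augV_spec hS htu ha hx (h := h) (c := 2 ^ k) (by positivity)
    rw [hcast] at s2
    have h5 := s2 g hg1 hgf
    have hmem : augV n S a h x (2 ^ k) ∈ cands n S a h K x := by
      unfold cands
      rw [List.mem_cons, List.mem_filter, List.mem_map]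
      right
      exact ⟨⟨k, List.mem_range.2 (by omega), by rw [min_eq_left hkK]⟩, pfb_iff.2 s1⟩
    have h6 := h2 _ hmem
    rw [ffl_eq, ffl_eq] at h6
    have h7 : FF n (rl a) (rl h) (rl (step n S a h K x)) ≤
        FF n (rl a) (rl h) (fun j => rl x j + 2 ^ k * g j) := h6.trans h5
    have h8 : (0 : ℤ) ≤ 2 * (S.length : ℤ) := by positivity
    have h9 := mul_le_mul_of_nonneg_left (sub_le_sub_right h7 (FF n (rl a) (rl h) (rl x))) h8
    exact h9.trans hg2

/-- the iteration -/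
def leafIter (n : ℕ) (S : List (List ℤ × ℤ)) (a h : List ℤ) (K T : ℕ) (x : List ℤ) : List ℤ :=
  (step n S a h K)^[T] x

theorem bern (m : ℤ) (hm : 0 ≤ m) (T : ℕ) : m ^ (T + 1) + (T + 1) * m ^ T ≤ (m + 1) ^ (T + 1) := by
  induction T with
  | zero => simp
  | succ T ih =>
    have h1 : 0 ≤ m ^ T := pow_nonneg hm T
    have h2 : (m ^ (T + 1) + (T + 1) * m ^ T) * (m + 1) ≤ (m + 1) ^ (T + 1) * (m + 1) :=
      mul_le_mul_of_nonneg_right ih (by linarith)
    rw [pow_succ (m + 1) (T + 1)]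
    refine le_trans ?_ h2
    have e1 : m ^ (T + 1 + 1) = m ^ T * (m * m) := by ring
    have e2 : m ^ (T + 1) = m ^ T * m := by ring
    rw [e1, e2]
    push_cast
    have h3 : (0 : ℤ) ≤ ((T : ℤ) + 1) * m ^ T := by positivity
    nlinarith

theorem bern2 (N E : ℕ) (hN : 0 < N) :
    (E : ℤ) * (2 * (N : ℤ) - 1) ^ (2 * N * E) ≤ (2 * (N : ℤ)) ^ (2 * N * E) := by
  rcases Nat.eq_zero_or_pos E with rfl | hE
  · simp
  · obtain ⟨T, hT⟩ : ∃ T, 2 * N * E = T + 1 := ⟨2 * N * E - 1, by
      have : 0 < 2 * N * E := by positivity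
      omega⟩
    rw [hT]
    have hm : (0 : ℤ) ≤ 2 * (N : ℤ) - 1 := by
      have : (1 : ℤ) ≤ (N : ℤ) := by exact_mod_cast hN
      linarith
    have h1 := bern (2 * (N : ℤ) - 1) hm T
    have e : 2 * (N : ℤ) - 1 + 1 = 2 * (N : ℤ) := by ring
    rw [e] at h1
    refine le_trans ?_ h1
    have h2 : ((T : ℤ) + 1) = 2 * (N : ℤ) * (E : ℤ) := by
      have : ((2 * N * E : ℕ) : ℤ) = ((T + 1 : ℕ) : ℤ) := by rw [hT]
      push_cast at this
      linarith
    rw [h2, pow_succ]
    have h3 : 0 ≤ (2 * (N : ℤ) - 1) ^ T := pow_nonneg hm T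
    have h4 : (0 : ℤ) ≤ (E : ℤ) := by positivity
    have h5 : (E : ℤ) * ((2 * (N : ℤ) - 1) ^ T * (2 * (N : ℤ) - 1)) ≤
        2 * (N : ℤ) * (E : ℤ) * (2 * (N : ℤ) - 1) ^ T := by
      have h6 := mul_nonneg h4 h3
      nlinarith
    have h7 : 0 ≤ (2 * (N : ℤ) - 1) ^ T * (2 * (N : ℤ) - 1) := mul_nonneg h3 hm
    linarith

theorem leafIter_spec {n : ℕ} {S : List (List ℤ × ℤ)} (hS : LenS n S)
    (htu : TUF n (fr (rowsL S))) (hU : HasU n (rowsL S)) {a h : List ℤ}
    (ha : ∀ j < n, 0 ≤ rl a j) {K : ℕ}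
    (hK : ∀ x y, PF n S x → PF n S y → ∀ j < n, |y j - x j| < 2 ^ (K + 1))
    {x : List ℤ} (hx : PF n S (rl x)) (E : ℕ) (hSl : 0 < S.length) :
    PF n S (rl (leafIter n S a h K (2 * S.length * E) x)) ∧
      ∀ y, PF n S y → FF n (rl a) (rl h) y ≤ FF n (rl a) (rl h) (rl x) →
        (E : ℤ) * (FF n (rl a) (rl h) (rl (leafIter n S a h K (2 * S.length * E) x)) -
          FF n (rl a) (rl h) y) ≤ FF n (rl a) (rl h) (rl x) - FF n (rl a) (rl h) y := by
  set xs : ℕ → List ℤ := fun t => (step n S a h K)^[t] x with hxs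
  have hsucc : ∀ t, xs (t + 1) = step n S a h K (xs t) := fun t => by
    simp only [hxs, Function.iterate_succ_apply']
  have hfeas : ∀ t, PF n S (rl (xs t)) := by
    intro t
    induction t with
    | zero => exact hx
    | succ t ih => rw [hsucc]; exact (step_spec hS htu hU ha hK (h := h) ih).1
  set G : (ℕ → ℤ) → ℕ → ℤ := fun y t => FF n (rl a) (rl h) (rl (xs t)) - FF n (rl a) (rl h) y
  have hmono : ∀ y t, G y (t + 1) ≤ G y t := by
    intro y t
    simp only [G]
    rw [hsucc]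
    have := (step_spec hS htu hU ha hK (h := h) (hfeas t)).2.1
    linarith
  refine ⟨hfeas _, fun y hy hle => ?_⟩
  have hG0 : 0 ≤ G y 0 := by simp only [G, hxs, Function.iterate_zero, id]; linarith
  have key : ∀ t, 0 < G y t → (2 * (S.length : ℤ)) ^ t * G y t ≤
      (2 * (S.length : ℤ) - 1) ^ t * G y 0 := by
    intro t
    induction t with
    | zero => intro _; simp
    | succ t ih =>
      intro hpos
      have hpos' : 0 < G y t := lt_of_lt_of_le hpos (hmono y t)
      have ih := ih hpos'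
      have h1 := (step_spec hS htu hU ha hK (h := h) (hfeas t)).2.2 y hy (by
        simp only [G] at hpos'; linarith)
      rw [← hsucc] at h1
      have h2 : 2 * (S.length : ℤ) * G y (t + 1) ≤ (2 * (S.length : ℤ) - 1) * G y t := by
        simp only [G]
        linarith
      have h3 : (0 : ℤ) ≤ (2 * (S.length : ℤ)) ^ t := by positivity
      have hN1 : (1 : ℤ) ≤ (S.length : ℤ) := by exact_mod_cast hSl
      calc (2 * (S.length : ℤ)) ^ (t + 1) * G y (t + 1)
          = (2 * (S.length : ℤ)) ^ t * (2 * (S.length : ℤ) * G y (t + 1)) := by ring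
        _ ≤ (2 * (S.length : ℤ)) ^ t * ((2 * (S.length : ℤ) - 1) * G y t) :=
            mul_le_mul_of_nonneg_left h2 h3
        _ = (2 * (S.length : ℤ) - 1) * ((2 * (S.length : ℤ)) ^ t * G y t) := by ring
        _ ≤ (2 * (S.length : ℤ) - 1) * ((2 * (S.length : ℤ) - 1) ^ t * G y 0) :=
            mul_le_mul_of_nonneg_left ih (by linarith)
        _ = (2 * (S.length : ℤ) - 1) ^ (t + 1) * G y 0 := by ring
  change (E : ℤ) * G y (2 * S.length * E) ≤ G y 0
  by_cases hpos : 0 < G y (2 * S.length * E)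
  · have h1 := key _ hpos
    have h2 := bern2 S.length E hSl
    have h3 : (0 : ℤ) < (2 * (S.length : ℤ)) ^ (2 * S.length * E) := by
      have : (0 : ℤ) < (S.length : ℤ) := by exact_mod_cast hSl
      positivity
    -- multiply the first by E
    have h4 : (E : ℤ) * ((2 * (S.length : ℤ)) ^ (2 * S.length * E) * G y (2 * S.length * E)) ≤
        (E : ℤ) * ((2 * (S.length : ℤ) - 1) ^ (2 * S.length * E) * G y 0) :=
      mul_le_mul_of_nonneg_left h1 (by positivity)
    have h5 : (E : ℤ) * (2 * (S.length : ℤ) - 1) ^ (2 * S.length * E) * G y 0 ≤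
        (2 * (S.length : ℤ)) ^ (2 * S.length * E) * G y 0 := mul_le_mul_of_nonneg_right h2 hG0
    have h6 : (2 * (S.length : ℤ)) ^ (2 * S.length * E) * ((E : ℤ) * G y (2 * S.length * E)) ≤
        (2 * (S.length : ℤ)) ^ (2 * S.length * E) * G y 0 := by linarith
    exact le_of_mul_le_mul_left h6 h3
  · push Not at hpos
    have h1 : (E : ℤ) * G y (2 * S.length * E) ≤ 0 :=
      mul_nonpos_of_nonneg_of_nonpos (by positivity) hpos
    linarith

end Pool.Agent.H699.TA
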