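import Pool.Agent.H699.TA.Grid

/-!
# The bounded problem
-/

namespace Pool.Agent.H699.TA

open Finset Pool.Agent.H699.TU Pool.Agent.Y644.QS

/-- number of rows of the systems with boxes -/
def nrows (n : ℕ) (Wr : List (List ℤ)) (w : List ℤ) : ℕ := (List.zip Wr w).length + 2 * n

/-- fixing the variables of the list `js`, one after the other -/
def levP (n : ℕ) (Wr : List (List ℤ)) (w : List ℤ) (D : ℕ) :
    ℕ → List ℕ → List (List ℤ × List ℤ) → List (List ℤ × List ℤ)
  | 0, _, bs => bs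
  | p + 1, js, bs => js.head?.elim bs fun j => levP n Wr w D p js.tail (bs.flatMap fun b =>
      gridB n Wr w D j b)

theorem lev_spec {n : ℕ} {Wr : List (List ℤ)} (hl : ∀ r ∈ Wr, r.length = n)
    (htu : TUF n (fr Wr)) (w : List ℤ) {D : ℕ} (hD : 2 * nrows n Wr w ≤ D) (q h : ℕ → ℤ)
    {m0 M0 : ℤ} (p : ℕ) : ∀ (js : List ℕ) (bs : List (List ℤ × List ℤ)), js.length ≤ p →
      (∀ j ∈ js, j < n) → ∀ b ∈ bs,
      (∀ y, PF n (sysB n Wr w b.1 b.2) y → m0 ≤ FF n q h y ∧ FF n q h y ≤ M0) →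
      ∀ x, PF n (sysB n Wr w b.1 b.2) x →
      ∃ b' ∈ levP n Wr w D p js bs, (∀ j ∈ js, rl b'.1 j = rl b'.2 j) ∧
        (∀ i < n, i ∉ js → rl b'.1 i = rl b.1 i ∧ rl b'.2 i = rl b.2 i) ∧
        (∀ y, PF n (sysB n Wr w b'.1 b'.2) y → PF n (sysB n Wr w b.1 b.2) y) ∧
        ∃ x', PF n (sysB n Wr w b'.1 b'.2) x' ∧
          (D : ℤ) * (FF n q h x' - FF n q h x) ≤
            (js.length : ℤ) * (42 * (nrows n Wr w : ℤ) * (M0 - m0)) := by
  induction p with
  | zero =>
    intro js bs hjs _ b hb _ x hx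
    have : js = [] := List.length_eq_zero_iff.1 (by omega)
    subst this
    exact ⟨b, hb, by simp, fun i _ _ => ⟨rfl, rfl⟩, fun y hy => hy, x, hx, by simp⟩
  | succ p ih =>
    intro js bs hjs hjn b hb hf x hx
    cases js with
    | nil => exact ⟨b, hb, by simp, fun i _ _ => ⟨rfl, rfl⟩, fun y hy => hy, x, hx, by simp⟩
    | cons j js =>
      have hlen : (sysB n Wr w b.1 b.2).length = nrows n Wr w := length_sysB _ _ _ _ _
      obtain ⟨b1, hb1, g1, g2, g3, x1, hx1, g4⟩ := grid_spec hl htu w (D := D) (b := b)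
        (by rw [hlen]; exact hD) (hjn j List.mem_cons_self) q h hf hx
      rw [hlen] at g4
      obtain ⟨b2, hb2, k1, k2, k3, x2, hx2, k4⟩ := ih js (bs.flatMap fun b => gridB n Wr w D j b)
        (by simpa using hjs) (fun j' hj' => hjn j' (List.mem_cons_of_mem _ hj')) b1
        (List.mem_flatMap.2 ⟨b, hb, hb1⟩) (fun y hy => hf y (g3 y hy)) x1 hx1
      refine ⟨b2, hb2, ?_, ?_, fun y hy => g3 y (k3 y hy), x2, hx2, ?_⟩
      · intro j' hj'
        by_cases hj'' : j' ∈ js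
        · exact k1 j' hj''
        · rcases List.mem_cons.1 hj' with rfl | h'
          · have h5 := k2 j' (hjn j' List.mem_cons_self) hj''
            rw [h5.1, h5.2, g1]
          · exact absurd h' hj''
      · intro i hi hij
        rw [List.mem_cons, not_or] at hij
        have h5 := k2 i hi hij.2
        have h6 := g2 i hi hij.1
        exact ⟨h5.1.trans h6.1, h5.2.trans h6.2⟩
      · rw [List.length_cons]
        push_cast
        linarith

/-- positive parts -/
def posL (n : ℕ) (q : List ℤ) : List ℤ := (List.range n).map fun j => max (q.getD j 0) 0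

/-- the zero list -/
def zeroL (n : ℕ) : List ℤ := (List.range n).map fun _ => 0

/-- the solution of a leaf -/
def leafB (n : ℕ) (Wr : List (List ℤ)) (w q h : List ℤ) (E K : ℕ) (b : List ℤ × List ℤ) :
    List ℤ :=
  leafIter n (sysB n Wr w b.1 b.2) (posL n q) h K (2 * (sysB n Wr w b.1 b.2).length * E)
    (solV n (sysB n Wr w b.1 b.2) (zeroL n))

/-- The solution of the bounded problem. -/
def bOpt (p n : ℕ) (Wr : List (List ℤ)) (w q h : List ℤ) (E K : ℕ) (js : List ℕ)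
    (b0 : List ℤ × List ℤ) (x0 : List ℤ) : List ℤ :=
  best n q h (x0 :: ((levP n Wr w (42 * nrows n Wr w * (p + 1) * E) p js [b0]).map
    (leafB n Wr w q h E K)).filter fun x => pfb n (sysB n Wr w b0.1 b0.2) x) x0

theorem leafB_spec {n : ℕ} (hn : 0 < n) {Wr : List (List ℤ)} (hl : ∀ r ∈ Wr, r.length = n)
    (htu : TUF n (fr Wr)) (w : List ℤ) {q h : List ℤ} {b : List ℤ × List ℤ}
    (hq : ∀ j < n, rl q j < 0 → rl b.1 j = rl b.2 j) {E K : ℕ}
    (hK : ∀ x y, PF n (sysB n Wr w b.1 b.2) x → PF n (sysB n Wr w b.1 b.2) y →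
      ∀ j < n, |y j - x j| < 2 ^ (K + 1)) {m0 M0 : ℤ}
    (hf : ∀ y, PF n (sysB n Wr w b.1 b.2) y →
      m0 ≤ FF n (rl q) (rl h) y ∧ FF n (rl q) (rl h) y ≤ M0)
    {x : ℕ → ℤ} (hx : PF n (sysB n Wr w b.1 b.2) x) :
    PF n (sysB n Wr w b.1 b.2) (rl (leafB n Wr w q h E K b)) ∧
      (E : ℤ) * (FF n (rl q) (rl h) (rl (leafB n Wr w q h E K b)) - FF n (rl q) (rl h) x) ≤
        M0 - m0 := by
  have hG := good_sysB hl htu w b.1 b.2
  have hlen : (sysB n Wr w b.1 b.2).length = nrows n Wr w := length_sysB _ _ _ _ _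
  obtain ⟨s1, -⟩ := solV_spec hG (c := zeroL n) (by simp [zeroL]) (real_of_int hx)
  have hpos : ∀ j < n, rl (posL n q) j = max (rl q j) 0 := fun j hj => rl_map_range _ hj
  have hSl : 0 < (sysB n Wr w b.1 b.2).length := by rw [hlen]; unfold nrows; omega
  obtain ⟨t1, t2⟩ := leafIter_spec (lenS_sysB hl w b.1 b.2) (tuf_sysB htu w b.1 b.2)
    (hasU_sysB n Wr w b.1 b.2) (a := posL n q) (h := h) (fun j hj => by rw [hpos j hj]; omega) hK s1
    E hSl
  -- the two functions differ by a constant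
  have hconst : ∀ y, PF n (sysB n Wr w b.1 b.2) y → FF n (rl q) (rl h) y -
      FF n (rl (posL n q)) (rl h) y = ∑ j ∈ range n, min (rl q j) 0 * rl b.1 j ^ 2 := by
    intro y hy
    unfold FF
    rw [← Finset.sum_sub_distrib]
    refine Finset.sum_congr rfl fun j hj => ?_
    have hj := Finset.mem_range.1 hj
    rw [hpos j hj]
    have h1 := (PF_sysB.1 hy).2 j hj
    by_cases hqj : rl q j < 0
    · have h2 := hq j hj hqj
      have h3 : y j = rl b.1 j := by omega
      rw [h3, max_eq_right hqj.le, min_eq_left hqj.le]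
      ring
    · push Not at hqj
      rw [max_eq_left hqj, min_eq_right hqj]
      ring
  set xl := rl (leafB n Wr w q h E K b) with hxl
  set xs := rl (solV n (sysB n Wr w b.1 b.2) (zeroL n)) with hxs
  have t1' : PF n (sysB n Wr w b.1 b.2) xl := t1
  refine ⟨t1', ?_⟩
  have c1 := hconst xl t1'
  have c2 := hconst xs s1
  have c3 := hconst x hx
  have hE : (0 : ℤ) ≤ (E : ℤ) := by positivity
  by_cases hle : FF n (rl (posL n q)) (rl h) x ≤ FF n (rl (posL n q)) (rl h) xs
  · have h1 : (E : ℤ) * (FF n (rl (posL n q)) (rl h) xl - FF n (rl (posL n q)) (rl h) x) ≤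
        FF n (rl (posL n q)) (rl h) xs - FF n (rl (posL n q)) (rl h) x := t2 x hx hle
    have e1 : FF n (rl q) (rl h) xl - FF n (rl q) (rl h) x =
        FF n (rl (posL n q)) (rl h) xl - FF n (rl (posL n q)) (rl h) x := by linarith
    rw [e1]
    have h2 := hf xs s1
    have h3 := hf x hx
    linarith
  · push Not at hle
    have h1 : (E : ℤ) * (FF n (rl (posL n q)) (rl h) xl - FF n (rl (posL n q)) (rl h) xs) ≤
        FF n (rl (posL n q)) (rl h) xs - FF n (rl (posL n q)) (rl h) xs := t2 xs s1 le_rfl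
    have e1 : FF n (rl q) (rl h) xl - FF n (rl q) (rl h) x ≤
        FF n (rl (posL n q)) (rl h) xl - FF n (rl (posL n q)) (rl h) xs := by linarith
    have h4 := mul_le_mul_of_nonneg_left e1 hE
    have h3 := hf x hx
    linarith

theorem bOpt_spec {n : ℕ} (hn : 0 < n) {Wr : List (List ℤ)} (hl : ∀ r ∈ Wr, r.length = n)
    (htu : TUF n (fr Wr)) (w : List ℤ) {q h : List ℤ} {p : ℕ} {js : List ℕ} (hjs : js.length ≤ p)
    (hjn : ∀ j ∈ js, j < n) (hq : ∀ j < n, rl q j < 0 → j ∈ js) {b0 : List ℤ × List ℤ} {E K : ℕ}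
    (hE : 0 < E)
    (hK : ∀ x y, PF n (sysB n Wr w b0.1 b0.2) x → PF n (sysB n Wr w b0.1 b0.2) y →
      ∀ j < n, |y j - x j| < 2 ^ (K + 1)) {m0 M0 : ℤ}
    (hf : ∀ y, PF n (sysB n Wr w b0.1 b0.2) y →
      m0 ≤ FF n (rl q) (rl h) y ∧ FF n (rl q) (rl h) y ≤ M0)
    {x0 : List ℤ} (hx0 : PF n (sysB n Wr w b0.1 b0.2) (rl x0)) :
    PF n (sysB n Wr w b0.1 b0.2) (rl (bOpt p n Wr w q h E K js b0 x0)) ∧
      ∀ y, PF n (sysB n Wr w b0.1 b0.2) y →
        (E : ℤ) * (FF n (rl q) (rl h) (rl (bOpt p n Wr w q h E K js b0 x0)) -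
          FF n (rl q) (rl h) y) ≤ 2 * (M0 - m0) := by
  obtain ⟨e1, e2⟩ := best_spec n q h (l := x0 :: ((levP n Wr w (42 * nrows n Wr w * (p + 1) * E) p
    js [b0]).map (leafB n Wr w q h E K)).filter fun x => pfb n (sysB n Wr w b0.1 b0.2) x)
    (by simp) x0
  refine ⟨?_, fun y hy => ?_⟩
  · rcases List.mem_cons.1 e1 with h1 | h1
    · unfold bOpt
      rw [h1]
      exact hx0
    · rw [List.mem_filter] at h1
      exact pfb_iff.1 h1.2
  · have hN : 0 < nrows n Wr w := by unfold nrows; omega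
    obtain ⟨b, hb, k1, -, k3, x', hx', k4⟩ := lev_spec hl htu w
      (D := 42 * nrows n Wr w * (p + 1) * E) (by
        have h1 : nrows n Wr w * 1 ≤ nrows n Wr w * ((p + 1) * E) :=
          Nat.mul_le_mul_left _ (Nat.mul_pos (by omega) hE)
        have h2 : 42 * nrows n Wr w * (p + 1) * E = 42 * (nrows n Wr w * ((p + 1) * E)) := by ring
        rw [h2]
        omega) (rl q) (rl h) p js [b0] hjs hjn b0 (by simp) hf y hy
    obtain ⟨l1, l2⟩ := leafB_spec hn hl htu w (q := q) (h := h) (b := b) (E := E) (K := K)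
      (fun j hj hqj => k1 j (hq j hj hqj)) (fun x y hx hy => hK x y (k3 x hx) (k3 y hy))
      (fun y hy => hf y (k3 y hy)) hx'
    have h1 : ffl n q h (bOpt p n Wr w q h E K js b0 x0) ≤ ffl n q h (leafB n Wr w q h E K b) :=
      e2 _ (by
        rw [List.mem_cons, List.mem_filter]
        exact Or.inr ⟨List.mem_map.2 ⟨b, hb, rfl⟩, pfb_iff.2 (k3 _ l1)⟩)
    rw [ffl_eq, ffl_eq] at h1
    have hR : 0 ≤ M0 - m0 := by have := hf y hy; linarith
    set R := M0 - m0
    set t := FF n (rl q) (rl h) x' - FF n (rl q) (rl h) y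
    have hEz : (0 : ℤ) < (E : ℤ) := by exact_mod_cast hE
    have hNz : (0 : ℤ) < (nrows n Wr w : ℤ) := by exact_mod_cast hN
    have h2 : (E : ℤ) * t ≤ R := by
      by_contra hc
      push Not at hc
      push_cast at k4
      have h3 : (js.length : ℤ) ≤ (p : ℤ) := by exact_mod_cast hjs
      have h4 : (js.length : ℤ) * (42 * (nrows n Wr w : ℤ) * R) ≤
          (p : ℤ) * (42 * (nrows n Wr w : ℤ) * R) :=
        mul_le_mul_of_nonneg_right h3 (by positivity)
      have h5 : (42 * (nrows n Wr w : ℤ) * ((p : ℤ) + 1)) * R <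
          (42 * (nrows n Wr w : ℤ) * ((p : ℤ) + 1)) * ((E : ℤ) * t) :=
        mul_lt_mul_of_pos_left hc (by positivity)
      have h6 : 0 ≤ 42 * (nrows n Wr w : ℤ) * R := by positivity
      nlinarith
    have h3 : (E : ℤ) * (FF n (rl q) (rl h) (rl (bOpt p n Wr w q h E K js b0 x0)) -
        FF n (rl q) (rl h) (rl (leafB n Wr w q h E K b))) ≤ 0 :=
      mul_nonpos_of_nonneg_of_nonpos hEz.le (by linarith)
    have h4 : (E : ℤ) * (FF n (rl q) (rl h) (rl (bOpt p n Wr w q h E K js b0 x0)) -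
        FF n (rl q) (rl h) y) =
        (E : ℤ) * (FF n (rl q) (rl h) (rl (bOpt p n Wr w q h E K js b0 x0)) -
        FF n (rl q) (rl h) (rl (leafB n Wr w q h E K b))) +
        (E : ℤ) * (FF n (rl q) (rl h) (rl (leafB n Wr w q h E K b)) - FF n (rl q) (rl h) x') +
        (E : ℤ) * t := by simp only [t]; ring
    rw [h4]
    linarith

end Pool.Agent.H699.TA
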