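import Pool.Agent.H699.TA.Alg

/-!
# The algorithm is correct
-/

namespace Pool.Agent.H699.TA

open Finset Pool.Agent.NPC Pool.Agent.H699.TU Pool.Agent.Y644.QS

theorem bOpt_feas {n : ℕ} {Wr : List (List ℤ)} {w : List ℤ} {q h : List ℤ} {p : ℕ} {js : List ℕ}
    {b0 : List ℤ × List ℤ} {E K : ℕ} {x0 : List ℤ} (hx0 : PF n (sysB n Wr w b0.1 b0.2) (rl x0)) :
    PF n (sysB n Wr w b0.1 b0.2) (rl (bOpt p n Wr w q h E K js b0 x0)) := by
  obtain ⟨e1, -⟩ := best_spec n q h (l := x0 :: ((levP n Wr w (42 * nrows n Wr w * (p + 1) * E) p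
    js [b0]).map (leafB n Wr w q h E K)).filter fun x => pfb n (sysB n Wr w b0.1 b0.2) x)
    (by simp) x0
  rcases List.mem_cons.1 e1 with h1 | h1
  · unfold bOpt
    rw [h1]
    exact hx0
  · rw [List.mem_filter] at h1
    exact pfb_iff.1 h1.2

theorem xS_spec {I : Inst} (hI : Valid I) (hf : feasB (numV I) (syS I) = true) :
    PF (numV I) (syS I) (rl (xS I)) := by
  have hl : ∀ r ∈ rows I, r.length = numV I := hI.2.2.1
  have hlS : LenS (numV I) (syS I) := lenS_zip hl _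
  have hr := (feasB_iff hlS).1 hf
  obtain ⟨f1, f2⟩ := faceV_spec hlS hr
  set n := numV I with hn
  set F := rl (faceV n (syS I)) with hF
  have hτ : (0 : ℝ) < (F n : ℝ) := by exact_mod_cast f1
  have hyL : ∀ j < n, rl (yL I) j = F j / F n := by
    intro j hj
    unfold yL
    rw [rl_map_range _ hj]
    have : ((F n).toNat : ℤ) = F n := Int.toNat_of_nonneg f1.le
    exact congrArg (F j / ·) this
  have hyU : ∀ j < n, rl (yU I) j = F j / F n + 1 := by
    intro j hj
    unfold yU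
    rw [rl_map_range _ hj, ← hyL j hj]
    rfl
  have hreal : ∃ x : ℕ → ℝ, ∀ p ∈ sysB n (rows I) (rhs I) (yL I) (yU I),
      dt n (rl p.1) x ≤ p.2 := by
    refine ⟨fun j => (F n : ℝ)⁻¹ * (F j : ℝ), fun p hp => ?_⟩
    rcases mem_sysB.1 hp with hp | ⟨j, hj, rfl | rfl⟩
    · rw [dt_smul, inv_mul_le_iff₀ hτ, ← dt_int_cast]
      have := f2 p hp
      rw [mul_comm]
      exact_mod_cast this
    · simp only
      rw [dt_unitV hj, hyU j hj, inv_mul_le_iff₀ hτ]
      have h1 : F j < F n * (F j / F n) + F n := by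
        have h3 := Int.emod_add_mul_ediv (F j) (F n)
        have h4 := Int.emod_lt_of_pos (F j) f1
        linarith
      have h2 : F j ≤ F n * (F j / F n + 1) := by linarith
      exact_mod_cast h2
    · simp only
      rw [dt_neg, dt_unitV hj, hyL j hj]
      have h1 : F n * (F j / F n) ≤ F j := Int.mul_ediv_self_le f1.ne'
      have h2 : (F n : ℝ) * ((F j / F n : ℤ) : ℝ) ≤ (F j : ℝ) := by exact_mod_cast h1
      have h3 : ((F j / F n : ℤ) : ℝ) ≤ (F n : ℝ)⁻¹ * (F j : ℝ) := by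
        rw [inv_mul_eq_div, le_div_iff₀ hτ]
        linarith
      push_cast
      linarith
  obtain ⟨s1, -⟩ := solV_spec (good_sysB hl (tuf_of_valid hI) (rhs I) (yL I) (yU I))
    (c := zeroL n) (by simp [zeroL]) hreal
  exact (PF_sysB.1 s1).1

theorem le_sum_range {n : ℕ} (f : ℕ → ℕ) {j : ℕ} (hj : j < n) :
    f j ≤ ((List.range n).map f).sum :=
  List.le_sum_of_mem (List.mem_map.2 ⟨j, List.mem_range.2 hj, rfl⟩)

theorem D0_spec (I : Inst) {j : ℕ} (hj : j < numV I) : |rl (xS I) j| ≤ (D0 I : ℤ) := by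
  have h := le_sum_range (fun j => ((xS I).getD j 0).natAbs) hj
  rw [Int.abs_eq_natAbs]
  exact_mod_cast h

theorem D1_spec (I : Inst) {p : List ℤ × ℤ} (hp : p ∈ syS I) :
    p.2 - dt (numV I) (rl p.1) (rl (xS I)) ≤ (D1 I : ℤ) := by
  have h : (p.2 - dtl (numV I) p.1 (xS I)).toNat ≤ D1 I :=
    List.le_sum_of_mem (List.mem_map.2 ⟨p, hp, rfl⟩)
  rw [← dtl_eq]
  have h1 := Int.self_le_toNat (p.2 - dtl (numV I) p.1 (xS I))
  have h2 : (((p.2 - dtl (numV I) p.1 (xS I)).toNat : ℕ) : ℤ) ≤ (D1 I : ℤ) := by exact_mod_cast h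
  linarith

theorem PF_box (I : Inst) {x : ℕ → ℤ} :
    PF (numV I) (sysB (numV I) (rows I) (rhs I) (bx I).1 (bx I).2) x ↔
      PF (numV I) (syS I) x ∧ ∀ j < numV I, |x j| ≤ (Dl I : ℤ) := by
  rw [PF_sysB]
  refine and_congr Iff.rfl (forall_congr' fun j => forall_congr' fun hj => ?_)
  unfold bx
  simp only
  rw [rl_map_range _ hj, rl_map_range _ hj, abs_le]

theorem box_xS {I : Inst} (hI : Valid I) (hf : feasB (numV I) (syS I) = true) :
    PF (numV I) (sysB (numV I) (rows I) (rhs I) (bx I).1 (bx I).2) (rl (xS I)) := by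
  refine (PF_box I).2 ⟨xS_spec hI hf, fun j hj => (D0_spec I hj).trans ?_⟩
  unfold Dl
  push_cast
  have : (0 : ℤ) ≤ (nrows (numV I) (rows I) (rhs I) : ℤ) * (D1 I : ℤ) := by positivity
  linarith

theorem out_PF {p E : ℕ} {I : Inst} (hI : Valid I) (hf : feasB (numV I) (syS I) = true) :
    PF (numV I) (sysB (numV I) (rows I) (rhs I) (bx I).1 (bx I).2) (rl (outL p E I)) :=
  bOpt_feas (box_xS hI hf)

theorem out_feasible {p E : ℕ} {I : Inst} (hI : Valid I) (hf : feasB (numV I) (syS I) = true) :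
    Feasible I (outP p E I) :=
  (feasible_iff hI _ (z := rl (outL p E I)) fun _ => rfl).2 ((PF_box I).1 (out_PF hI hf)).1

theorem feasB_of_feasible {I : Inst} (hI : Valid I) {x : Fin (numV I) → ℤ} (hx : Feasible I x) :
    feasB (numV I) (syS I) = true := by
  have hl : ∀ r ∈ rows I, r.length = numV I := hI.2.2.1
  have hlS : LenS (numV I) (syS I) := lenS_zip hl _
  rw [feasB_iff hlS]
  exact real_of_int ((feasible_iff hI x (z := ext0 x) fun j => ext0_val x j).1 hx)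

theorem out_approx {p E : ℕ} {I : Inst} (hI : Valid I) (hp : numConcave I ≤ p) (hE : 0 < E)
    (hf : feasB (numV I) (syS I) = true) {ε : ℝ} (hε : 2 ≤ (E : ℝ) * ε) :
    IsApprox I ε (outP p E I) := by
  refine ⟨out_feasible hI hf, fun y hy M hM => ?_⟩
  have hn0 : 0 < (numV I) := hI.1
  have hl : ∀ r ∈ rows I, r.length = (numV I) := hI.2.2.1
  have htu := tuf_of_valid hI
  have hobj : ∀ z : ℕ → ℤ, TU.obj I (fun j : Fin (numV I) => z j) =
      FF (numV I) (rl (quad I)) (rl (lin I)) z := fun z => obj_eq I _ fun _ => rfl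
  have hfe : ∀ z : ℕ → ℤ, Feasible I (fun j : Fin (numV I) => z j) ↔ PF (numV I) (syS I) z :=
    fun z => feasible_iff hI _ fun _ => rfl
  have hyext : (fun j : Fin (numV I) => ext0 y j) = y := by
    funext j; exact ext0_val y j
  set Y := ext0 y with hY
  have hyf : PF (numV I) (syS I) Y := (feasible_iff hI y (z := Y) fun j => ext0_val y j).1 hy.1
  have hyo : TU.obj I y = FF (numV I) (rl (quad I)) (rl (lin I)) Y := obj_eq I y fun j => ext0_val y j
  have hmin : ∀ z, PF (numV I) (syS I) z → FF (numV I) (rl (quad I)) (rl (lin I)) Y ≤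
      FF (numV I) (rl (quad I)) (rl (lin I)) z := by
    intro z hz
    rw [← hyo, ← hobj]
    exact hy.2 _ ((hfe z).2 hz)
  have hmax : ∀ z, PF (numV I) (syS I) z → FF (numV I) (rl (quad I)) (rl (lin I)) z ≤ ⌊M⌋ := by
    intro z hz
    rw [Int.le_floor, ← hobj]
    exact hM.1 ⟨_, (hfe z).2 hz, rfl⟩
  obtain ⟨v, hv1, hv2, hv3⟩ := exists_small hl htu (rhs I) (rl (quad I)) (rl (lin I))
    (x0 := rl (xS I)) (y := Y) (xS_spec hI hf) hyf hmin hmax (D0 := (D0 I : ℤ)) (D1 := (D1 I : ℤ))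
    (fun j hj => D0_spec I hj) (fun p hp => D1_spec I hp) (by positivity)
  have hvbox : PF (numV I) (sysB (numV I) (rows I) (rhs I) (bx I).1 (bx I).2) v := by
    refine (PF_box I).2 ⟨hv1, fun j hj => (hv3 j hj).trans ?_⟩
    unfold Dl
    push_cast
    exact le_rfl
  have hK : ∀ x y, PF (numV I) (sysB (numV I) (rows I) (rhs I) (bx I).1 (bx I).2) x →
      PF (numV I) (sysB (numV I) (rows I) (rhs I) (bx I).1 (bx I).2) y →
      ∀ j < (numV I), |y j - x j| < 2 ^ (sz (Dl I) + 1) := by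
    intro x y hx hy j hj
    have h1 := abs_le.1 (((PF_box I).1 hx).2 j hj)
    have h2 := abs_le.1 (((PF_box I).1 hy).2 j hj)
    have h3 : Dl I < 2 ^ sz (Dl I) := by
      refine lt_of_lt_of_le (Nat.lt_size_self (Dl I)) (Nat.pow_le_pow_right (by norm_num) ?_)
      have := size_le_sz (Dl I)
      omega
    have h4 : (Dl I : ℤ) < 2 ^ sz (Dl I) := by exact_mod_cast h3
    rw [pow_succ, abs_lt]
    constructor <;> linarith
  obtain ⟨-, hb⟩ := bOpt_spec hn0 hl htu (rhs I) (q := quad I) (h := lin I) (p := p) (js := cc I)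
    (by rw [cc_length]; exact hp) (fun j hj => by
      unfold cc at hj
      rw [List.mem_filter, List.mem_range] at hj
      exact hj.1) (fun j hj hq => by
      unfold cc
      rw [List.mem_filter, List.mem_range]
      exact ⟨hj, by rw [decide_eq_true_eq]; exact hq⟩) (b0 := bx I) hE hK (m0 := FF (numV I) (rl (quad I)) (rl (lin I)) Y)
      (M0 := ⌊M⌋) (fun z hz => ⟨hmin z (PF_sysB.1 hz).1, hmax z (PF_sysB.1 hz).1⟩)
      (x0 := xS I) (box_xS hI hf)
  have hb' := hb v hvbox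
  rw [hv2] at hb'
  have hout : TU.obj I (outP p E I) = FF (numV I) (rl (quad I)) (rl (lin I)) (rl (outL p E I)) :=
    obj_eq I _ fun _ => rfl
  rw [hout, hyo]
  change (E : ℤ) * (FF (numV I) (rl (quad I)) (rl (lin I)) (rl (outL p E I)) -
    FF (numV I) (rl (quad I)) (rl (lin I)) Y) ≤ _ at hb'
  set fo := FF (numV I) (rl (quad I)) (rl (lin I)) (rl (outL p E I)) with hfo
  set fy := FF (numV I) (rl (quad I)) (rl (lin I)) Y with hfy
  have hM1 : (fy : ℝ) ≤ M := by
    rw [← hyo]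
    exact hM.1 ⟨y, hy.1, rfl⟩
  rcases eq_or_lt_of_le hM1 with h1 | h1
  · exact Or.inl h1
  · right
    have hpos : 0 < M - (fy : ℝ) := by linarith
    rw [div_le_iff₀ hpos]
    have h2 : ((E : ℤ) : ℝ) * ((fo : ℝ) - (fy : ℝ)) ≤ 2 * ((⌊M⌋ : ℝ) - (fy : ℝ)) := by
      exact_mod_cast hb'
    have h3 : (⌊M⌋ : ℝ) ≤ M := Int.floor_le M
    have hEr : (0 : ℝ) < (E : ℝ) := by exact_mod_cast hE
    have h4 : (E : ℝ) * ((fo : ℝ) - (fy : ℝ)) ≤ (E : ℝ) * (ε * (M - (fy : ℝ))) := by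
      have h5 : 2 * (M - (fy : ℝ)) ≤ (E : ℝ) * ε * (M - (fy : ℝ)) :=
        mul_le_mul_of_nonneg_right hε hpos.le
      have h6 : ((E : ℤ) : ℝ) = (E : ℝ) := by push_cast; rfl
      rw [h6] at h2
      linarith
    exact le_of_mul_le_mul_left h4 hEr

end Pool.Agent.H699.TA
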