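import Pool.Graph.R_seed8.Y644.QW.PolyW
import Pool.Agent.H699.TA.Spec

/-!
# The building blocks are computable in polynomial time
-/

namespace Pool.Agent.H699.TA

open Pool.Agent.NPC Pool.Agent.H699.TU Pool.Agent.Y644.QS Pool.Agent.Y644.QW

section

variable {α β : Type} [TEnc α] [TEnc β]

theorem poly_unitV {n j : α → ℕ} (hn : UPoly n) (hj : NPC.Poly j) :
    NPC.Poly (fun a => unitV (n a) (j a)) := NPC.Poly.unitV hn hj

theorem poly_negV' {u : α → List ℤ} (hu : NPC.Poly u) : NPC.Poly (fun a => negV (u a)) :=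
  NPC.Y644.poly_negV hu

theorem poly_get {u : α → List ℤ} {j : α → ℕ} (hu : NPC.Poly u) (hj : NPC.Poly j) :
    NPC.Poly (fun a => (u a).getD (j a) 0) := NPC.Poly.getD hu hj (NPC.Poly.const 0)

/-- lists indexed by a range -/
theorem poly_mapR {n : α → ℕ} {f : α → ℕ → β} (hn : UPoly n)
    (hf : NPC.Poly (fun p : α × ℕ => f p.1 p.2)) :
    NPC.Poly (fun a => (List.range (n a)).map fun j => f a j) :=
  NPC.Poly.map (F := f) (UPoly.range hn) hf

theorem poly_flatR {n : α → ℕ} {f : α → ℕ → List β} (hn : UPoly n)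
    (hf : NPC.Poly (fun p : α × ℕ => f p.1 p.2)) :
    NPC.Poly (fun a => (List.range (n a)).flatMap fun j => f a j) :=
  NPC.Poly.flatMap (F := f) (UPoly.range hn) hf

theorem p1 : NPC.Poly (fun p : α × β => p.1) := NPC.Poly.fst NPC.Poly.id

theorem p2 : NPC.Poly (fun p : α × β => p.2) := NPC.Poly.snd NPC.Poly.id

theorem poly_hrow {p : α → List ℤ × ℤ} (hp : NPC.Poly p) : NPC.Poly (fun a => hrow (p a)) := by
  unfold hrow
  exact NPC.Poly.append (NPC.Poly.fst hp)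
    (NPC.Poly.cons (NPC.Poly.ineg (NPC.Poly.snd hp)) (NPC.Poly.const []))

theorem poly_hsys {n : α → ℕ} {S : α → List (List ℤ × ℤ)} (hn : UPoly n) (hS : NPC.Poly S) :
    NPC.Poly (fun a => hsys (n a) (S a)) := by
  unfold hsys
  exact NPC.Poly.cons (poly_negV' (poly_unitV (UPoly.add hn (UPoly.const 1)) hn.toPoly))
    (NPC.Poly.map (F := fun _ p => hrow p) hS (poly_hrow p2))

theorem poly_feasB {n : α → ℕ} {S : α → List (List ℤ × ℤ)} (hn : UPoly n) (hS : NPC.Poly S) :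
    NPC.Poly (fun a => feasB (n a) (S a)) := by
  have h := poly_unitV (UPoly.add hn (UPoly.const 1)) hn.toPoly
  unfold feasB
  exact NPC.Y644.poly_feas h (NPC.Poly.const []) (poly_hsys hn hS) h

theorem poly_faceV {n : α → ℕ} {S : α → List (List ℤ × ℤ)} (hn : UPoly n) (hS : NPC.Poly S) :
    NPC.Poly (fun a => faceV (n a) (S a)) := by
  have h := poly_unitV (UPoly.add hn (UPoly.const 1)) hn.toPoly
  unfold faceV
  exact NPC.Y644.poly_face h (NPC.Poly.const []) (poly_hsys hn hS) h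

theorem poly_solV {n : α → ℕ} {S : α → List (List ℤ × ℤ)} {c : α → List ℤ} (hn : UPoly n)
    (hS : NPC.Poly S) (hc : NPC.Poly c) : NPC.Poly (fun a => solV (n a) (S a) (c a)) := by
  have h1 : NPC.Poly (fun a => c a ++ [0]) := NPC.Poly.append hc (NPC.Poly.const [0])
  have h2 : NPC.Poly (fun a => optw (c a ++ [0]) [] (hsys (n a) (S a))) :=
    NPC.Y644.poly_optw h1 (NPC.Poly.const []) (poly_hsys hn hS)
  have h3 : NPC.Poly (fun a => ((optw (c a ++ [0]) [] (hsys (n a) (S a))).getD (n a) 0).toNat) :=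
    NPC.Poly.toNat (poly_get h2 hn.toPoly)
  unfold solV
  exact poly_mapR hn (NPC.Poly.idiv (poly_get (h2.comp p1) p2) (h3.comp p1))

theorem poly_dtl {n : α → ℕ} {r x : α → List ℤ} (hn : UPoly n) (hr : NPC.Poly r)
    (hx : NPC.Poly x) : NPC.Poly (fun a => dtl (n a) (r a) (x a)) := by
  unfold dtl
  exact NPC.Poly.isum (poly_mapR hn
    (NPC.Poly.imul (poly_get (hr.comp p1) p2) (poly_get (hx.comp p1) p2)))

theorem poly_dblS {n c : α → ℕ} {S : α → List (List ℤ × ℤ)} {x : α → List ℤ} (hn : UPoly n)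
    (hc : NPC.Poly c) (hS : NPC.Poly S) (hx : NPC.Poly x) :
    NPC.Poly (fun a => dblS (n a) (S a) (x a) (c a)) := by
  have hn1 : UPoly (fun p : α × (List ℤ × ℤ) => n p.1) := hn.comp p1
  have hn2 : UPoly (fun p : α × ℕ => n p.1 + n p.1) := UPoly.add (hn.comp p1) (hn.comp p1)
  have q1 : NPC.Poly (fun p : α × (List ℤ × ℤ) => p.2.1) := NPC.Poly.fst p2
  have q2 : NPC.Poly (fun p : α × (List ℤ × ℤ) => p.2.2) := NPC.Poly.snd p2
  have h1 : NPC.Poly (fun p : α × (List ℤ × ℤ) =>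
      (p.2.1 ++ negV p.2.1, (p.2.2 - dtl (n p.1) p.2.1 (x p.1)) / (c p.1 : ℤ))) :=
    NPC.Poly.pair (NPC.Poly.append q1 (poly_negV' q1))
      (NPC.Poly.idiv (NPC.Poly.isub q2 (poly_dtl hn1 q1 (hx.comp p1))) (hc.comp p1))
  have hu := poly_unitV hn2 (p2 (α := α) (β := ℕ))
  have h2 : NPC.Poly (fun p : α × ℕ =>
      [(unitV (n p.1 + n p.1) p.2, (1 : ℤ)), (negV (unitV (n p.1 + n p.1) p.2), 0)]) :=
    NPC.Poly.cons (NPC.Poly.pair hu (NPC.Poly.const 1))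
      (NPC.Poly.cons (NPC.Poly.pair (poly_negV' hu) (NPC.Poly.const 0)) (NPC.Poly.const []))
  unfold dblS
  exact NPC.Poly.append (NPC.Poly.map (F := fun a (p : List ℤ × ℤ) => (p.1 ++ negV p.1,
    (p.2 - dtl (n a) p.1 (x a)) / (c a : ℤ))) hS h1) (poly_flatR (UPoly.add hn hn) h2)

theorem poly_costV {n c : α → ℕ} {a h x : α → List ℤ} (hn : UPoly n)
    (hc : NPC.Poly c) (ha : NPC.Poly a) (hh : NPC.Poly h) (hx : NPC.Poly x) :
    NPC.Poly (fun t => costV (n t) (a t) (h t) (x t) (c t)) := by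
  have a' : NPC.Poly (fun p : α × ℕ => (a p.1).getD p.2 0) := poly_get (ha.comp p1) p2
  have h' : NPC.Poly (fun p : α × ℕ => (h p.1).getD p.2 0) := poly_get (hh.comp p1) p2
  have x' : NPC.Poly (fun p : α × ℕ => (x p.1).getD p.2 0) := poly_get (hx.comp p1) p2
  have c' : NPC.Poly (fun p : α × ℕ => ((c p.1 : ℕ) : ℤ)) := NPC.Poly.natCast_int (hc.comp p1)
  have xc : NPC.Poly (fun p : α × ℕ => 2 * (x p.1).getD p.2 0 * ((c p.1 : ℕ) : ℤ)) :=
    NPC.Poly.imul (NPC.Poly.imul (NPC.Poly.const 2) x') c'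
  have cc' : NPC.Poly (fun p : α × ℕ => ((c p.1 : ℕ) : ℤ) * ((c p.1 : ℕ) : ℤ)) :=
    NPC.Poly.imul c' c'
  have e1 : NPC.Poly (fun p : α × ℕ => -((a p.1).getD p.2 0 *
      (2 * (x p.1).getD p.2 0 * ((c p.1 : ℕ) : ℤ) + ((c p.1 : ℕ) : ℤ) * ((c p.1 : ℕ) : ℤ)) +
      (h p.1).getD p.2 0 * ((c p.1 : ℕ) : ℤ))) :=
    NPC.Poly.ineg (NPC.Poly.iadd (NPC.Poly.imul a' (NPC.Poly.iadd xc cc')) (NPC.Poly.imul h' c'))
  have e2 : NPC.Poly (fun p : α × ℕ => -((a p.1).getD p.2 0 *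
      (((c p.1 : ℕ) : ℤ) * ((c p.1 : ℕ) : ℤ) - 2 * (x p.1).getD p.2 0 * ((c p.1 : ℕ) : ℤ)) -
      (h p.1).getD p.2 0 * ((c p.1 : ℕ) : ℤ))) :=
    NPC.Poly.ineg (NPC.Poly.isub (NPC.Poly.imul a' (NPC.Poly.isub cc' xc)) (NPC.Poly.imul h' c'))
  have f1 := poly_mapR (f := fun t j => -((a t).getD j 0 *
      (2 * (x t).getD j 0 * ((c t : ℕ) : ℤ) + ((c t : ℕ) : ℤ) * ((c t : ℕ) : ℤ)) +
      (h t).getD j 0 * ((c t : ℕ) : ℤ))) hn e1
  have f2 := poly_mapR (f := fun t j => -((a t).getD j 0 *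
      (((c t : ℕ) : ℤ) * ((c t : ℕ) : ℤ) - 2 * (x t).getD j 0 * ((c t : ℕ) : ℤ)) -
      (h t).getD j 0 * ((c t : ℕ) : ℤ))) hn e2
  unfold costV
  exact NPC.Poly.append f1 f2

theorem poly_augV {n c : α → ℕ} {S : α → List (List ℤ × ℤ)} {a h x : α → List ℤ} (hn : UPoly n)
    (hc : NPC.Poly c) (hS : NPC.Poly S) (ha : NPC.Poly a) (hh : NPC.Poly h) (hx : NPC.Poly x) :
    NPC.Poly (fun t => augV (n t) (S t) (a t) (h t) (x t) (c t)) := by
  have hG := poly_solV (UPoly.add hn hn) (poly_dblS hn hc hS hx) (poly_costV hn hc ha hh hx)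
  have x' : NPC.Poly (fun p : α × ℕ => (x p.1).getD p.2 0) := poly_get (hx.comp p1) p2
  have c' : NPC.Poly (fun p : α × ℕ => ((c p.1 : ℕ) : ℤ)) := NPC.Poly.natCast_int (hc.comp p1)
  have hn' : NPC.Poly (fun p : α × ℕ => n p.1 + p.2) := NPC.Poly.add (hn.toPoly.comp p1) p2
  unfold augV
  exact poly_mapR hn (NPC.Poly.iadd x' (NPC.Poly.imul c'
    (NPC.Poly.isub (poly_get (hG.comp p1) p2) (poly_get (hG.comp p1) hn'))))

theorem poly_ffl {n : α → ℕ} {a h x : α → List ℤ} (hn : UPoly n) (ha : NPC.Poly a)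
    (hh : NPC.Poly h) (hx : NPC.Poly x) : NPC.Poly (fun t => ffl (n t) (a t) (h t) (x t)) := by
  have a' : NPC.Poly (fun p : α × ℕ => (a p.1).getD p.2 0) := poly_get (ha.comp p1) p2
  have h' : NPC.Poly (fun p : α × ℕ => (h p.1).getD p.2 0) := poly_get (hh.comp p1) p2
  have x' : NPC.Poly (fun p : α × ℕ => (x p.1).getD p.2 0) := poly_get (hx.comp p1) p2
  unfold ffl
  exact NPC.Poly.isum (poly_mapR hn (NPC.Poly.iadd (NPC.Poly.imul a' (NPC.Poly.imul x' x'))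
    (NPC.Poly.imul h' x')))

theorem poly_pfb {n : α → ℕ} {S : α → List (List ℤ × ℤ)} {x : α → List ℤ} (hn : UPoly n)
    (hS : NPC.Poly S) (hx : NPC.Poly x) : NPC.Poly (fun t => pfb (n t) (S t) (x t)) := by
  have h : NPC.Poly (fun p : α × (List ℤ × ℤ) => decide (dtl (n p.1) p.2.1 (x p.1) ≤ p.2.2)) :=
    NPC.Poly.ile (poly_dtl (hn.comp p1) (NPC.Poly.fst p2) (hx.comp p1)) (NPC.Poly.snd p2)
  unfold pfb
  exact NPC.Poly.all (p := fun t (p : List ℤ × ℤ) => decide (dtl (n t) p.1 (x t) ≤ p.2)) hS h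

theorem poly_best {n : α → ℕ} {l : α → List (List ℤ)} {a h x : α → List ℤ} (hn : UPoly n)
    (ha : NPC.Poly a) (hh : NPC.Poly h) (hl : NPC.Poly l) (hx : NPC.Poly x) :
    NPC.Poly (fun t => best (n t) (a t) (h t) (l t) (x t)) := by
  have q1 : NPC.Poly (fun p : (α × List ℤ) × List ℤ => p.1.1) := NPC.Poly.fst p1
  have q2 : NPC.Poly (fun p : (α × List ℤ) × List ℤ => p.1.2) := NPC.Poly.snd p1
  have h1 : NPC.Poly (fun p : (α × List ℤ) × List ℤ =>
      decide (ffl (n p.1.1) (a p.1.1) (h p.1.1) p.1.2 ≤ ffl (n p.1.1) (a p.1.1) (h p.1.1) p.2)) :=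
    NPC.Poly.ile (poly_ffl (hn.comp q1) (ha.comp q1) (hh.comp q1) q2)
      (poly_ffl (hn.comp q1) (ha.comp q1) (hh.comp q1) p2)
  have h2 : NPC.Poly (fun p : α × List ℤ => (l p.1).all fun y' =>
      decide (ffl (n p.1) (a p.1) (h p.1) p.2 ≤ ffl (n p.1) (a p.1) (h p.1) y')) :=
    NPC.Poly.all (p := fun (p : α × List ℤ) y' =>
      decide (ffl (n p.1) (a p.1) (h p.1) p.2 ≤ ffl (n p.1) (a p.1) (h p.1) y')) (hl.comp p1) h1
  unfold best
  exact NPC.Poly.optGetD (NPC.Poly.head? (NPC.Poly.filter (p := fun t y => (l t).all fun y' =>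
    decide (ffl (n t) (a t) (h t) y ≤ ffl (n t) (a t) (h t) y')) hl h2)) hx

theorem poly_cands {n K : α → ℕ} {S : α → List (List ℤ × ℤ)} {a h x : α → List ℤ} (hn : UPoly n)
    (hK : UPoly K) (hS : NPC.Poly S) (ha : NPC.Poly a) (hh : NPC.Poly h) (hx : NPC.Poly x) :
    NPC.Poly (fun t => cands (n t) (S t) (a t) (h t) (K t) (x t)) := by
  have hmin : UPoly (fun p : α × ℕ => min p.2 (K p.1)) :=
    UPoly.of_le (NPC.Poly.min p2 (hK.toPoly.comp p1)) (hK.comp p1) fun _ => min_le_right _ _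
  have hpow : NPC.Poly (fun p : α × ℕ => 2 ^ (min p.2 (K p.1))) :=
    NPC.Poly.npow (NPC.Poly.const 2) hmin
  have h1 : NPC.Poly (fun p : α × ℕ => augV (n p.1) (S p.1) (a p.1) (h p.1) (x p.1)
      (2 ^ (min p.2 (K p.1)))) :=
    poly_augV (hn.comp p1) hpow (hS.comp p1) (ha.comp p1) (hh.comp p1) (hx.comp p1)
  have h2 : NPC.Poly (fun p : α × List ℤ => pfb (n p.1) (S p.1) p.2) :=
    poly_pfb (hn.comp p1) (hS.comp p1) p2
  unfold cands
  exact NPC.Poly.cons hx (NPC.Poly.filter (p := fun t y => pfb (n t) (S t) y)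
    (poly_mapR (UPoly.add hK (UPoly.const 1)) h1) h2)

theorem poly_step {n K : α → ℕ} {S : α → List (List ℤ × ℤ)} {a h x : α → List ℤ} (hn : UPoly n)
    (hK : UPoly K) (hS : NPC.Poly S) (ha : NPC.Poly a) (hh : NPC.Poly h) (hx : NPC.Poly x) :
    NPC.Poly (fun t => step (n t) (S t) (a t) (h t) (K t) (x t)) :=
  poly_best hn ha hh (poly_cands hn hK hS ha hh hx) hx

end

end Pool.Agent.H699.TA
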