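import Pool.Agent.H699.TA.PolyA

/-!
# The bounded problem is solved in polynomial time
-/

namespace Pool.Agent.H699.TA

open Pool.Agent.NPC Pool.Agent.H699.TU Pool.Agent.Y644.QS

section

variable {α β : Type} [TEnc α] [TEnc β]

theorem poly_sysB {n : α → ℕ} {Wr : α → List (List ℤ)} {w l u : α → List ℤ} (hn : UPoly n)
    (hW : NPC.Poly Wr) (hw : NPC.Poly w) (hl : NPC.Poly l) (hu : NPC.Poly u) :
    NPC.Poly (fun t => sysB (n t) (Wr t) (w t) (l t) (u t)) := by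
  have e := poly_unitV (hn.comp (p1 (α := α) (β := ℕ))) (p2 (α := α) (β := ℕ))
  have h : NPC.Poly (fun p : α × ℕ => [(unitV (n p.1) p.2, (u p.1).getD p.2 0),
      (negV (unitV (n p.1) p.2), -((l p.1).getD p.2 0))]) :=
    NPC.Poly.cons (NPC.Poly.pair e (poly_get (hu.comp p1) p2))
      (NPC.Poly.cons (NPC.Poly.pair (poly_negV' e) (NPC.Poly.ineg (poly_get (hl.comp p1) p2)))
        (NPC.Poly.const []))
  unfold sysB
  exact NPC.Poly.append (NPC.Poly.zip hW hw) (poly_flatR hn h)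

theorem poly_posL {n : α → ℕ} {q : α → List ℤ} (hn : UPoly n) (hq : NPC.Poly q) :
    NPC.Poly (fun t => posL (n t) (q t)) := by
  have h : NPC.Poly (fun p : α × ℕ => (((q p.1).getD p.2 0).toNat : ℤ)) :=
    NPC.Poly.natCast_int (NPC.Poly.toNat (poly_get (hq.comp p1) p2))
  have h' : NPC.Poly (fun p : α × ℕ => max ((q p.1).getD p.2 0) 0) :=
    h.congr fun p => Int.ofNat_toNat _
  unfold posL
  exact poly_mapR hn h'

theorem poly_zeroL {n : α → ℕ} (hn : UPoly n) : NPC.Poly (fun t => zeroL (n t)) := by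
  unfold zeroL
  exact poly_mapR hn (NPC.Poly.const 0)

theorem poly_setL {n j : α → ℕ} {l : α → List ℤ} {v : α → ℤ} (hn : UPoly n) (hl : NPC.Poly l)
    (hj : NPC.Poly j) (hv : NPC.Poly v) :
    NPC.Poly (fun t => setL (n t) (l t) (j t) (v t)) := by
  have h : NPC.Poly (fun p : α × ℕ => if p.2 = j p.1 then v p.1 else (l p.1).getD p.2 0) :=
    NPC.Poly.ite (NPC.Poly.decide_eq p2 (hj.comp p1)) (hv.comp p1) (poly_get (hl.comp p1) p2)
  unfold setL
  exact poly_mapR hn h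

theorem poly_loV {n j : α → ℕ} {Wr : α → List (List ℤ)} {w l u : α → List ℤ} (hn : UPoly n)
    (hW : NPC.Poly Wr) (hw : NPC.Poly w) (hl : NPC.Poly l) (hu : NPC.Poly u) (hj : NPC.Poly j) :
    NPC.Poly (fun t => loV (n t) (Wr t) (w t) (l t) (u t) (j t)) := by
  unfold loV
  exact poly_get (poly_solV hn (poly_sysB hn hW hw hl hu) (poly_negV' (poly_unitV hn hj))) hj

theorem poly_hiV {n j : α → ℕ} {Wr : α → List (List ℤ)} {w l u : α → List ℤ} (hn : UPoly n)
    (hW : NPC.Poly Wr) (hw : NPC.Poly w) (hl : NPC.Poly l) (hu : NPC.Poly u) (hj : NPC.Poly j) :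
    NPC.Poly (fun t => hiV (n t) (Wr t) (w t) (l t) (u t) (j t)) := by
  unfold hiV
  exact poly_get (poly_solV hn (poly_sysB hn hW hw hl hu) (poly_unitV hn hj)) hj

theorem poly_imax {a b : α → ℤ} (ha : NPC.Poly a) (hb : NPC.Poly b) :
    NPC.Poly (fun t => max (a t) (b t)) :=
  (NPC.Poly.cond (NPC.Poly.ile ha hb) hb ha).congr fun t => by
    by_cases h : a t ≤ b t
    · simp [h]
    · simp [h, (not_le.1 h).le]

theorem poly_imin {a b : α → ℤ} (ha : NPC.Poly a) (hb : NPC.Poly b) :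
    NPC.Poly (fun t => min (a t) (b t)) :=
  (NPC.Poly.cond (NPC.Poly.ile ha hb) ha hb).congr fun t => by
    by_cases h : a t ≤ b t
    · simp [h]
    · simp [h, (not_le.1 h).le]

/-- the grid values -/
def gval (lo hi : ℤ) (D i : ℕ) : ℤ := min (lo + (i : ℤ) * max 1 ((hi - lo) / (D : ℤ))) hi

theorem poly_gval {lo hi : α → ℤ} {D i : α → ℕ} (hlo : NPC.Poly lo) (hhi : NPC.Poly hi)
    (hD : NPC.Poly D) (hi' : NPC.Poly i) :
    NPC.Poly (fun t => gval (lo t) (hi t) (D t) (i t)) := by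
  unfold gval
  exact poly_imin (NPC.Poly.iadd hlo (NPC.Poly.imul (NPC.Poly.natCast_int hi')
    (poly_imax (NPC.Poly.const 1) (NPC.Poly.idiv (NPC.Poly.isub hhi hlo) hD)))) hhi

theorem poly_gridB {n D j : α → ℕ} {Wr : α → List (List ℤ)} {w : α → List ℤ}
    {b : α → List ℤ × List ℤ} (hn : UPoly n) (hW : NPC.Poly Wr) (hw : NPC.Poly w) (hD : UPoly D)
    (hj : NPC.Poly j) (hb : NPC.Poly b) :
    NPC.Poly (fun t => gridB (n t) (Wr t) (w t) (D t) (j t) (b t)) := by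
  have hlo := poly_loV hn hW hw (NPC.Poly.fst hb) (NPC.Poly.snd hb) hj
  have hhi := poly_hiV hn hW hw (NPC.Poly.fst hb) (NPC.Poly.snd hb) hj
  have hg : NPC.Poly (fun p : α × ℕ => gval (loV (n p.1) (Wr p.1) (w p.1) (b p.1).1 (b p.1).2
      (j p.1)) (hiV (n p.1) (Wr p.1) (w p.1) (b p.1).1 (b p.1).2 (j p.1)) (D p.1) p.2) :=
    poly_gval (hlo.comp p1) (hhi.comp p1) (hD.toPoly.comp p1) p2
  have b1 : NPC.Poly (fun p : α × ℕ => (b p.1).1) := NPC.Poly.fst (hb.comp p1)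
  have b2 : NPC.Poly (fun p : α × ℕ => (b p.1).2) := NPC.Poly.snd (hb.comp p1)
  have h := NPC.Poly.pair (poly_setL (hn.comp p1) b1 (hj.comp p1) hg)
    (poly_setL (hn.comp p1) b2 (hj.comp p1) hg)
  have hD2 : UPoly (fun t => 2 * D t + 1) :=
    UPoly.add (UPoly.mul (UPoly.const 2) hD) (UPoly.const 1)
  exact poly_mapR (f := fun t i => (setL (n t) (b t).1 (j t) (gval (loV (n t) (Wr t) (w t) (b t).1
    (b t).2 (j t)) (hiV (n t) (Wr t) (w t) (b t).1 (b t).2 (j t)) (D t) i),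
    setL (n t) (b t).2 (j t) (gval (loV (n t) (Wr t) (w t) (b t).1 (b t).2 (j t)) (hiV (n t) (Wr t)
    (w t) (b t).1 (b t).2 (j t)) (D t) i))) hD2 h

end

theorem poly_levP (p : ℕ) : ∀ {α : Type} [TEnc α] {n D : α → ℕ} {Wr : α → List (List ℤ)}
    {w : α → List ℤ} {js : α → List ℕ} {bs : α → List (List ℤ × List ℤ)}, UPoly n →
    NPC.Poly Wr → NPC.Poly w → UPoly D → NPC.Poly js → NPC.Poly bs →
    NPC.Poly (fun t => levP (n t) (Wr t) (w t) (D t) p (js t) (bs t)) := by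
  induction p with
  | zero => intro α _ n D Wr w js bs hn hW hw hD hjs hbs; exact hbs
  | succ p ih =>
    intro α _ n D Wr w js bs hn hW hw hD hjs hbs
    have q1 : NPC.Poly (fun p : (α × ℕ) × (List ℤ × List ℤ) => p.1.1) := NPC.Poly.fst p1
    have q2 : NPC.Poly (fun p : (α × ℕ) × (List ℤ × List ℤ) => p.1.2) := NPC.Poly.snd p1
    have h1 : NPC.Poly (fun p : (α × ℕ) × (List ℤ × List ℤ) =>
        gridB (n p.1.1) (Wr p.1.1) (w p.1.1) (D p.1.1) p.1.2 p.2) :=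
      poly_gridB (hn.comp q1) (hW.comp q1) (hw.comp q1) (hD.comp q1) q2 p2
    have h2 : NPC.Poly (fun x : α × ℕ => (bs x.1).flatMap fun b =>
        gridB (n x.1) (Wr x.1) (w x.1) (D x.1) x.2 b) :=
      NPC.Poly.flatMap (F := fun (x : α × ℕ) b => gridB (n x.1) (Wr x.1) (w x.1) (D x.1) x.2 b)
        (hbs.comp p1) h1
    have h3 : NPC.Poly (fun x : α × ℕ => levP (n x.1) (Wr x.1) (w x.1) (D x.1) p (js x.1).tail
        ((bs x.1).flatMap fun b => gridB (n x.1) (Wr x.1) (w x.1) (D x.1) x.2 b)) :=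
      ih (hn.comp p1) (hW.comp p1) (hw.comp p1) (hD.comp p1) (NPC.Poly.tail (hjs.comp p1)) h2
    exact NPC.Poly.optElim (h := fun t j => levP (n t) (Wr t) (w t) (D t) p (js t).tail
      ((bs t).flatMap fun b => gridB (n t) (Wr t) (w t) (D t) j b)) (NPC.Poly.head? hjs) hbs h3

end Pool.Agent.H699.TA
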