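import Pool.Agent.H699.TA.PolyB

/-!
# The algorithm runs in polynomial time
-/

namespace Pool.Agent.H699.TA

open Pool.Agent.NPC Pool.Agent.H699.TU Pool.Agent.Y644.QS Pool.Agent.H687R2.LLL

theorem iter_mem (n : ℕ) (S : List (List ℤ × ℤ)) (a h : List ℤ) (K : ℕ) (x : List ℤ) (k : ℕ) :
    (step n S a h K)^[k] x = x ∨ (((step n S a h K)^[k] x).length = n ∧
      PF n S (rl ((step n S a h K)^[k] x))) := by
  induction k with
  | zero => exact Or.inl rfl
  | succ k ih =>
    rw [Function.iterate_succ_apply']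
    rcases step_mem n S a h K ((step n S a h K)^[k] x) with h1 | h1
    · rw [h1]; exact ih
    · exact Or.inr h1

theorem natAbs_rl_le (l : List ℤ) (j : ℕ) : (rl l j).natAbs ≤ nrm l := by
  unfold rl
  by_cases hj : j < l.length
  · rw [List.getD_eq_getElem _ _ hj]
    exact natAbs_le_nrm (List.getElem_mem hj)
  · rw [List.getD_eq_default _ _ (by omega)]
    simp

theorem sz_box {n : ℕ} {Wr : List (List ℤ)} {w l u v : List ℤ} (hv : v.length = n)
    (hf : PF n (sysB n Wr w l u) (rl v)) : sz v ≤ n * (4 * (sz l + sz u) + 6) + 1 := by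
  have h := sz_le_length_mul v (4 * (sz l + sz u) + 5) fun x hx => by
    obtain ⟨j, hj, rfl⟩ := List.mem_iff_getElem.1 hx
    refine sz_of_lt ?_
    have h1 := (PF_sysB.1 hf).2 j (by omega)
    have h2 : rl v j = v[j] := by unfold rl; rw [List.getD_eq_getElem _ _ hj]
    rw [h2] at h1
    have h3 := natAbs_rl_le l j
    have h4 := natAbs_rl_le u j
    have h5 := nrm_lt l
    have h6 := nrm_lt u
    have h7 : 2 ^ sz l ≤ 2 ^ (sz l + sz u) := Nat.pow_le_pow_right (by norm_num) (by omega)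
    have h8 : 2 ^ sz u ≤ 2 ^ (sz l + sz u) := Nat.pow_le_pow_right (by norm_num) (by omega)
    omega
  rwa [hv] at h

section

variable {α β : Type} [TEnc α] [TEnc β]

theorem upoly_lenB {n : α → ℕ} {Wr : α → List (List ℤ)} {w l u : α → List ℤ} (hn : UPoly n)
    (hW : NPC.Poly Wr) (hw : NPC.Poly w) (hl : NPC.Poly l) (hu : NPC.Poly u) :
    UPoly (fun t => (sysB (n t) (Wr t) (w t) (l t) (u t)).length) :=
  UPoly.length (poly_sysB hn hW hw hl hu)

theorem poly_leafB {E : α → ℕ} (hE : UPoly E) {n K : α → ℕ} {Wr : α → List (List ℤ)} {w q h : α → List ℤ}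
    {b : α → List ℤ × List ℤ} (hn : UPoly n) (hW : NPC.Poly Wr) (hw : NPC.Poly w)
    (hq : NPC.Poly q) (hh : NPC.Poly h) (hK : UPoly K) (hb : NPC.Poly b) :
    NPC.Poly (fun t => leafB (n t) (Wr t) (w t) (q t) (h t) (E t) (K t) (b t)) := by
  have b1 := NPC.Poly.fst hb
  have b2 := NPC.Poly.snd hb
  have hS := poly_sysB hn hW hw b1 b2
  have hx := poly_solV hn hS (poly_zeroL hn)
  have hT : UPoly (fun t => 2 * (sysB (n t) (Wr t) (w t) (b t).1 (b t).2).length * E t) :=
    UPoly.mul (UPoly.mul (UPoly.const 2) (UPoly.length hS)) hE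
  have hF : NPC.Poly (fun p : α × List ℤ => step (n p.1)
      (sysB (n p.1) (Wr p.1) (w p.1) (b p.1).1 (b p.1).2) (posL (n p.1) (q p.1)) (h p.1) (K p.1)
      p.2) :=
    poly_step (hn.comp p1) (hK.comp p1) (hS.comp p1) ((poly_posL hn hq).comp p1) (hh.comp p1) p2
  obtain ⟨rn, hrn⟩ := NPC.Poly.sz_le hn
  obtain ⟨rl', hrl⟩ := b1.sz_le
  obtain ⟨ru, hru⟩ := b2.sz_le
  obtain ⟨rx, hrx⟩ := hx.sz_le
  refine NPC.Poly.iterU (F := fun t x => step (n t) (sysB (n t) (Wr t) (w t) (b t).1 (b t).2)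
    (posL (n t) (q t)) (h t) (K t) x) hT hx hF
    (rn * (Polynomial.C 4 * (rl' + ru) + Polynomial.C 6) + Polynomial.C 1 + rx) ?_
  intro t k _
  simp only [Polynomial.eval_add, Polynomial.eval_mul, Polynomial.eval_C]
  rcases iter_mem (n t) (sysB (n t) (Wr t) (w t) (b t).1 (b t).2) (posL (n t) (q t)) (h t) (K t)
    (solV (n t) (sysB (n t) (Wr t) (w t) (b t).1 (b t).2) (zeroL (n t))) k with h1 | h1
  · change sz ((step (n t) (sysB (n t) (Wr t) (w t) (b t).1 (b t).2) (posL (n t) (q t)) (h t)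
      (K t))^[k] _) ≤ _
    rw [h1]
    exact (hrx t).trans (Nat.le_add_left _ _)
  · refine (sz_box h1.1 h1.2).trans ?_
    have e1 := hrn t
    have e2 := hrl t
    have e3 := hru t
    have e4 := length_lt_sz (List.replicate (n t) ())
    rw [List.length_replicate] at e4
    have e5 : n t * (4 * (sz (b t).1 + sz (b t).2) + 6) ≤
        rn.eval (sz t) * (4 * (rl'.eval (sz t) + ru.eval (sz t)) + 6) :=
      Nat.mul_le_mul (by omega) (by omega)
    omega

theorem upoly_nrows {n : α → ℕ} {Wr : α → List (List ℤ)} {w : α → List ℤ} (hn : UPoly n)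
    (hW : NPC.Poly Wr) (hw : NPC.Poly w) : UPoly (fun t => nrows (n t) (Wr t) (w t)) := by
  unfold nrows
  exact UPoly.add (UPoly.length (NPC.Poly.zip hW hw)) (UPoly.mul (UPoly.const 2) hn)

theorem poly_bOpt (p : ℕ) {E : α → ℕ} (hE : UPoly E) {n K : α → ℕ} {Wr : α → List (List ℤ)} {w q h x0 : α → List ℤ}
    {js : α → List ℕ} {b0 : α → List ℤ × List ℤ} (hn : UPoly n) (hW : NPC.Poly Wr)
    (hw : NPC.Poly w) (hq : NPC.Poly q) (hh : NPC.Poly h) (hK : UPoly K) (hjs : NPC.Poly js)
    (hb : NPC.Poly b0) (hx : NPC.Poly x0) :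
    NPC.Poly (fun t => bOpt p (n t) (Wr t) (w t) (q t) (h t) (E t) (K t) (js t) (b0 t)
      (x0 t)) := by
  have hD : UPoly (fun t => 42 * nrows (n t) (Wr t) (w t) * (p + 1) * E t) :=
    UPoly.mul (UPoly.mul (UPoly.mul (UPoly.const 42) (upoly_nrows hn hW hw)) (UPoly.const (p + 1)))
      hE
  have hL := poly_levP p hn hW hw hD hjs (NPC.Poly.cons hb (NPC.Poly.const []))
  have hleaf : NPC.Poly (fun x : α × (List ℤ × List ℤ) =>
      leafB (n x.1) (Wr x.1) (w x.1) (q x.1) (h x.1) (E x.1) (K x.1) x.2) :=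
    poly_leafB (hE.comp p1) (hn.comp p1) (hW.comp p1) (hw.comp p1) (hq.comp p1) (hh.comp p1) (hK.comp p1) p2
  have hS := poly_sysB hn hW hw (NPC.Poly.fst hb) (NPC.Poly.snd hb)
  have hf : NPC.Poly (fun x : α × List ℤ => pfb (n x.1)
      (sysB (n x.1) (Wr x.1) (w x.1) (b0 x.1).1 (b0 x.1).2) x.2) :=
    poly_pfb (hn.comp p1) (hS.comp p1) p2
  have h1 := NPC.Poly.map (F := fun t b => leafB (n t) (Wr t) (w t) (q t) (h t) (E t) (K t) b) hL hleaf
  have h2 := NPC.Poly.filter (p := fun t x => pfb (n t)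
    (sysB (n t) (Wr t) (w t) (b0 t).1 (b0 t).2) x) h1 hf
  exact poly_best hn hq hh (NPC.Poly.cons hx h2) hx

end

theorem poly_quad : NPC.Poly quad := NPC.Poly.fst (NPC.Poly.snd p2)

theorem poly_rows : NPC.Poly rows := p1

theorem poly_rhs : NPC.Poly rhs := NPC.Poly.fst p2

theorem poly_lin : NPC.Poly lin := NPC.Poly.snd (NPC.Poly.snd p2)

theorem upoly_numV : UPoly numV := UPoly.length poly_quad

theorem poly_syS : NPC.Poly syS := NPC.Poly.zip poly_rows poly_rhs

theorem poly_yL : NPC.Poly yL := by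
  have h := poly_faceV upoly_numV poly_syS
  have h1 : NPC.Poly (fun I => ((faceV (numV I) (syS I)).getD (numV I) 0).toNat) :=
    NPC.Poly.toNat (poly_get h upoly_numV.toPoly)
  exact poly_mapR upoly_numV (NPC.Poly.idiv (poly_get (h.comp p1) p2) (h1.comp p1))

theorem poly_yU : NPC.Poly yU :=
  poly_mapR (f := fun I j => (yL I).getD j 0 + 1) upoly_numV
    (NPC.Poly.iadd (poly_get (poly_yL.comp p1) p2) (NPC.Poly.const 1))

theorem poly_xS : NPC.Poly xS :=
  poly_solV upoly_numV (poly_sysB upoly_numV poly_rows poly_rhs poly_yL poly_yU)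
    (poly_zeroL upoly_numV)

theorem poly_D0 : NPC.Poly D0 :=
  NPC.Poly.sum (poly_mapR (f := fun I j => ((xS I).getD j 0).natAbs) upoly_numV
    (NPC.Poly.natAbs (poly_get (poly_xS.comp p1) p2)))

theorem poly_D1 : NPC.Poly D1 := by
  have h : NPC.Poly (fun x : Inst × (List ℤ × ℤ) => (x.2.2 - dtl (numV x.1) x.2.1 (xS x.1)).toNat) :=
    NPC.Poly.toNat (NPC.Poly.isub (NPC.Poly.snd p2)
      (poly_dtl (upoly_numV.comp p1) (NPC.Poly.fst p2) (poly_xS.comp p1)))
  exact NPC.Poly.sum (NPC.Poly.map (F := fun (I : Inst) (p : List ℤ × ℤ) =>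
    (p.2 - dtl (numV I) p.1 (xS I)).toNat) poly_syS h)

theorem poly_Dl : NPC.Poly Dl :=
  NPC.Poly.add poly_D0 (NPC.Poly.mul (upoly_nrows upoly_numV poly_rows poly_rhs).toPoly poly_D1)

theorem poly_bx : NPC.Poly bx := by
  have h : NPC.Poly (fun x : Inst × ℕ => ((Dl x.1 : ℕ) : ℤ)) :=
    NPC.Poly.natCast_int (poly_Dl.comp p1)
  exact NPC.Poly.pair (poly_mapR (f := fun I _ => -(Dl I : ℤ)) upoly_numV (NPC.Poly.ineg h))
    (poly_mapR (f := fun I _ => (Dl I : ℤ)) upoly_numV h)

theorem poly_cc : NPC.Poly cc :=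
  NPC.Poly.filter (p := fun (I : Inst) j => decide ((quad I).getD j 0 < 0))
    (UPoly.range upoly_numV) (NPC.Poly.isNeg (poly_get (poly_quad.comp p1) p2))

theorem poly_outL (p : ℕ) {α : Type} [TEnc α] {E : α → ℕ} {I : α → Inst} (hE : UPoly E)
    (hI : NPC.Poly I) : NPC.Poly (fun t => outL p (E t) (I t)) :=
  poly_bOpt p hE (upoly_numV.comp hI) (poly_rows.comp hI) (poly_rhs.comp hI) (poly_quad.comp hI)
    (poly_lin.comp hI) ((UPoly.sz poly_Dl).comp hI) (poly_cc.comp hI) (poly_bx.comp hI)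
    (poly_xS.comp hI)

theorem poly_answ (p : ℕ) {α : Type} [TEnc α] {E : α → ℕ} {I : α → Inst} (hE : UPoly E)
    (hI : NPC.Poly I) : NPC.Poly (fun t => answ p (E t) (I t)) := by
  have h1 : NPC.Poly (fun t => (List.range (numV (I t))).map fun j =>
      (outL p (E t) (I t)).getD j 0) :=
    poly_mapR (f := fun t j => (outL p (E t) (I t)).getD j 0) (upoly_numV.comp hI)
      (poly_get ((poly_outL p hE hI).comp p1) p2)
  exact NPC.Poly.ite (NPC.Poly.decide_bool ((poly_feasB upoly_numV poly_syS).comp hI))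
    (NPC.Poly.inr h1) (NPC.Poly.const _)

/-- the algorithm on bit strings; the precision is given in unary -/
def algB (p : ℕ) (x : List Bool) : Answer :=
  (unbits (Inst × List Unit) x).elim (Sum.inl false) fun y => answ p (2 * y.2.length) y.1

theorem polyTime_algB (p : ℕ) : PolyTime (fun x => bits (algB p x)) := by
  refine polyTime_bits ?_
  have h : NPC.Poly (fun x : List Bool × (Inst × List Unit) =>
      answ p (2 * x.2.2.length) x.2.1) :=
    poly_answ p (UPoly.mul (UPoly.const 2) (UPoly.length (NPC.Poly.snd p2))) (NPC.Poly.fst p2)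
  exact NPC.Poly.optElim (h := fun _ (y : Inst × List Unit) => answ p (2 * y.2.length) y.1)
    poly_unbits (NPC.Poly.const _) h

theorem algB_bits (p k : ℕ) (I : Inst) :
    algB p (bits (I, List.replicate k ())) = answ p (2 * k) I := by
  unfold algB
  rw [unbits_bits]
  simp

/-- the algorithm on bit strings, with a fixed precision -/
def algC (p E : ℕ) (x : List Bool) : Answer :=
  (unbits Inst x).elim (Sum.inl false) fun I => answ p E I

theorem polyTime_algC (p E : ℕ) : PolyTime (fun x => bits (algC p E x)) := by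
  refine polyTime_bits ?_
  exact NPC.Poly.optElim (h := fun _ I => answ p E I) poly_unbits (NPC.Poly.const _)
    (poly_answ p (UPoly.const E) p2)

theorem algC_bits (p E : ℕ) (I : Inst) : algC p E (bits I) = answ p E I := by
  unfold algC
  rw [unbits_bits]
  rfl

/-- For all `p` and all positive `ε` the problem without unboundedness detection is solved in
polynomial time. -/
theorem main (p : ℕ) {ε : ℝ} (hε : 0 < ε) : ∃ A : List Bool → List Bool, PolyTime A ∧
    ∀ I : Inst, Valid I →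
      ((¬ ∃ x, Feasible I x) → A (bits I) = infeasible) ∧
      ((∃ x, Feasible I x) → ∃ x, Feasible I x ∧ A (bits I) = point I x ∧
        (numConcave I ≤ p → IsApprox I ε x)) := by
  obtain ⟨E, hE⟩ := exists_nat_gt (2 / ε)
  have hE0 : 0 < E := by
    have h1 : (0 : ℝ) < E := lt_trans (by positivity) hE
    exact_mod_cast h1
  have hE2 : 2 ≤ (E : ℝ) * ε := by
    rw [div_lt_iff₀ hε] at hE
    exact hE.le
  refine ⟨fun x => bits (algC p E x), polyTime_algC p E, fun I hI => ⟨fun hno => ?_, ?_⟩⟩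
  · simp only
    rw [algC_bits]
    exact answ_infeasible p E I fun hf => hno ⟨_, out_feasible (p := p) (E := E) hI hf⟩
  · rintro ⟨x, hx⟩
    have hf := feasB_of_feasible hI hx
    refine ⟨outP p E I, out_feasible hI hf, ?_, fun hp => out_approx hI hp hE0 hf hE2⟩
    simp only
    rw [algC_bits]
    exact answ_point p E I hf

/-- The version with the precision `1 / k` as part of the input, in unary. -/
theorem main' (p : ℕ) : ∃ A : List Bool → List Bool, PolyTime A ∧
    ∀ (I : Inst) (k : ℕ), Valid I → 0 < k →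
      ((¬ ∃ x, Feasible I x) → A (bits (I, List.replicate k ())) = infeasible) ∧
      ((∃ x, Feasible I x) → ∃ x, Feasible I x ∧ A (bits (I, List.replicate k ())) = point I x ∧
        (numConcave I ≤ p → IsApprox I (1 / k) x)) := by
  refine ⟨fun x => bits (algB p x), polyTime_algB p, fun I k hI hk => ⟨fun hno => ?_, ?_⟩⟩
  · simp only
    rw [algB_bits]
    exact answ_infeasible p _ I fun hf => hno ⟨_, out_feasible (p := p) (E := 2 * k) hI hf⟩
  · rintro ⟨x, hx⟩
    have hf := feasB_of_feasible hI hx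
    have hE0 : 0 < 2 * k := by omega
    have hE2 : 2 ≤ ((2 * k : ℕ) : ℝ) * (1 / (k : ℝ)) := by
      have : (0 : ℝ) < k := by exact_mod_cast hk
      push_cast
      field_simp
      exact le_rfl
    refine ⟨outP p (2 * k) I, out_feasible hI hf, ?_, fun hp => out_approx hI hp hE0 hf hE2⟩
    simp only
    rw [algB_bits]
    exact answ_point p _ I hf

end Pool.Agent.H699.TA
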